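import Pool.Agent.Lib_MP_e5a66a_an.Base

/-! Piece 8: approximation by refining sequences of partitions, and a criterion for generating.
Independent of the other pieces. -/

open MeasureTheory Filter Topology

namespace Pool.MPe5a66a

/-- `s` is, off sets of small measure, a union of atoms of some `P k` -/
def ApproxSet {X : Type} [MeasurableSpace X] (μ : Measure X) (P : ℕ → X → ℕ) (s : Set X) : Prop :=
  ∀ ε : ENNReal, ε ≠ 0 → ∃ k, ∃ C : Set ℕ, ∃ B : Set X, MeasurableSet B ∧ μ B ≤ ε ∧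
    ∀ x, x ∉ B → (x ∈ s ↔ P k x ∈ C)

theorem refine_le {X : Type} {P : ℕ → X → ℕ}
    (href : ∀ k x y, P (k + 1) x = P (k + 1) y → P k x = P k y) {k k' : ℕ} (h : k ≤ k') (x y : X)
    (hxy : P k' x = P k' y) : P k x = P k y := by
  induction k', h using Nat.le_induction with
  | base => exact hxy
  | succ n hn ih => exact ih (href n x y hxy)

theorem approxSet_compl {X : Type} [MeasurableSpace X] {μ : Measure X} {P : ℕ → X → ℕ}
    {s : Set X} (hs : ApproxSet μ P s) : ApproxSet μ P sᶜ := by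
  intro ε hε
  obtain ⟨k, C, B, hB, hμ, h⟩ := hs ε hε
  refine ⟨k, Cᶜ, B, hB, hμ, fun x hx => ?_⟩
  rw [Set.mem_compl_iff, Set.mem_compl_iff, h x hx]

theorem approxSet_iUnion {X : Type} [MeasurableSpace X] {μ : Measure X} [IsProbabilityMeasure μ]
    {P : ℕ → X → ℕ} (href : ∀ k x y, P (k + 1) x = P (k + 1) y → P k x = P k y)
    {s : ℕ → Set X} (hs : ∀ n, ApproxSet μ P (s n)) (hm : ∀ n, NullMeasurableSet (s n) μ) :
    ApproxSet μ P (⋃ n, s n) := by
  intro ε hε
  have hε2 : ε / 2 ≠ 0 := by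
    simpa using hε
  obtain ⟨δ, hδ, hδs⟩ := ENNReal.exists_pos_sum_of_countable hε2 ℕ
  have hδ' : ∀ n, (δ n : ENNReal) ≠ 0 := fun n => by
    simpa using (hδ n).ne'
  choose k C B hB hμ h using fun n => hs n (δ n) (hδ' n)
  -- tails
  have hT : Tendsto (μ ∘ fun N => (⋃ n, s n) \ ⋃ n, ⋃ (_ : n < N), s n) atTop
      (𝓝 (μ (⋂ N, ((⋃ n, s n) \ ⋃ n, ⋃ (_ : n < N), s n)))) := by
    apply tendsto_measure_iInter_atTop
    · intro N
      exact (NullMeasurableSet.iUnion hm).diff
        (NullMeasurableSet.iUnion fun n => NullMeasurableSet.iUnion fun _ => hm n)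
    · intro N M hNM
      apply Set.sdiff_subset_sdiff_right
      intro x hx
      simp only [Set.mem_iUnion] at hx ⊢
      obtain ⟨n, hn, hx⟩ := hx
      exact ⟨n, lt_of_lt_of_le hn hNM, hx⟩
    · exact ⟨0, measure_ne_top _ _⟩
  have hE : (⋂ N, ((⋃ n, s n) \ ⋃ n, ⋃ (_ : n < N), s n)) = ∅ := by
    ext x
    simp only [Set.mem_iInter, Set.mem_diff, Set.mem_iUnion, Set.mem_empty_iff_false, iff_false]
    intro hx
    obtain ⟨n, hn⟩ := (hx 0).1
    exact (hx (n + 1)).2 ⟨n, Nat.lt_succ_self n, hn⟩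
  rw [hE, measure_empty] at hT
  obtain ⟨N, hN⟩ := ((ENNReal.tendsto_atTop_zero.1 hT) (ε / 2) (pos_iff_ne_zero.2 hε2))
  have hN' := hN N le_rfl
  simp only [Function.comp] at hN'
  set T : Set X := (⋃ n, s n) \ ⋃ n, ⋃ (_ : n < N), s n with hTdef
  set K : ℕ := (Finset.range N).sup k with hK
  refine ⟨K, {m | ∃ n, n < N ∧ ∃ y, P K y = m ∧ P (k n) y ∈ C n},
    toMeasurable μ T ∪ ⋃ n, B n, ?_, ?_, ?_⟩
  · exact (measurableSet_toMeasurable _ _).union (MeasurableSet.iUnion hB)
  · calc μ (toMeasurable μ T ∪ ⋃ n, B n) ≤ μ (toMeasurable μ T) + μ (⋃ n, B n) :=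
          measure_union_le _ _
      _ ≤ ε / 2 + ε / 2 := by
          apply add_le_add
          · rw [measure_toMeasurable]; exact hN'
          · calc μ (⋃ n, B n) ≤ ∑' n, μ (B n) := measure_iUnion_le _
              _ ≤ ∑' n, (δ n : ENNReal) := ENNReal.tsum_le_tsum hμ
              _ ≤ ε / 2 := hδs.le
      _ = ε := ENNReal.add_halves ε
  · intro x hx
    simp only [Set.mem_union, Set.mem_iUnion, not_or, not_exists] at hx
    have hxT : x ∉ T := fun hxT => hx.1 (subset_toMeasurable μ T hxT)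
    constructor
    · intro hxU
      have : x ∈ ⋃ n, ⋃ (_ : n < N), s n := by
        by_contra hcon
        exact hxT ⟨hxU, hcon⟩
      simp only [Set.mem_iUnion] at this
      obtain ⟨n, hn, hxn⟩ := this
      exact ⟨n, hn, x, rfl, (h n x (hx.2 n)).1 hxn⟩
    · rintro ⟨n, hn, y, hy, hyC⟩
      have hkn : k n ≤ K := Finset.le_sup (f := k) (Finset.mem_range.2 hn)
      have := refine_le href hkn y x hy
      rw [this] at hyC
      exact Set.mem_iUnion.2 ⟨n, (h n x (hx.2 n)).2 hyC⟩

theorem approxSet_of_null {X : Type} [MeasurableSpace X] {μ : Measure X} {P : ℕ → X → ℕ}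
    {s t : Set X} (hs : ApproxSet μ P s) (hst : μ (symmDiff s t) = 0) : ApproxSet μ P t := by
  intro ε hε
  obtain ⟨k, C, B, hB, hμ, h⟩ := hs ε hε
  refine ⟨k, C, B ∪ toMeasurable μ (symmDiff s t), hB.union (measurableSet_toMeasurable _ _), ?_,
    fun x hx => ?_⟩
  · calc μ (B ∪ toMeasurable μ (symmDiff s t)) ≤ μ B + μ (toMeasurable μ (symmDiff s t)) :=
          measure_union_le _ _
      _ ≤ ε := by
          rw [measure_toMeasurable, hst, add_zero]; exact hμ
  · rw [Set.mem_union, not_or] at hx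
    rw [← h x hx.1]
    have hx2 : x ∉ symmDiff s t := fun hh => hx.2 (subset_toMeasurable μ _ hh)
    rw [Set.mem_symmDiff] at hx2
    tauto

theorem approxSet_of_generates {X : Type} [MeasurableSpace X] {μ : Measure X}
    [IsProbabilityMeasure μ]
    {P : ℕ → X → ℕ} (hmeas : ∀ k i, NullMeasurableSet (P k ⁻¹' {i}) μ)
    (href : ∀ k x y, P (k + 1) x = P (k + 1) y → P k x = P k y)
    {s : Set X}
    (hs : MeasurableSet[MeasurableSpace.generateFrom (atoms P ∪ {s | μ s = 0})] s) :
    NullMeasurableSet s μ ∧ ApproxSet μ P s := by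
  have hempty : ApproxSet μ P ∅ := fun ε hε =>
    ⟨0, ∅, ∅, MeasurableSet.empty, by simp, fun x _ => by simp⟩
  refine MeasurableSpace.generateFrom_induction (atoms P ∪ {s | μ s = 0})
    (fun s _ => NullMeasurableSet s μ ∧ ApproxSet μ P s) ?_ ?_ ?_ ?_ s hs
  · rintro t (⟨k, i, rfl⟩ | ht) _
    · refine ⟨hmeas k i, fun ε hε => ⟨k, {i}, ∅, MeasurableSet.empty, by simp, fun x _ => by simp⟩⟩
    · have ht' : μ t = 0 := ht
      refine ⟨NullMeasurableSet.of_null ht', approxSet_of_null hempty ?_⟩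
      simpa [symmDiff] using ht'
  · exact ⟨nullMeasurableSet_empty, hempty⟩
  · intro t _ ht
    exact ⟨ht.1.compl, approxSet_compl ht.2⟩
  · intro f _ hf
    exact ⟨NullMeasurableSet.iUnion fun n => (hf n).1,
      approxSet_iUnion href (fun n => (hf n).2) fun n => (hf n).1⟩

/-- every finite (null-)measurable labelling `F` is, off a set of small measure, a function of the
labelling `P k` for some `k` -/
theorem approx {X : Type} [MeasurableSpace X] {μ : Measure X} [IsProbabilityMeasure μ]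
    {P : ℕ → X → ℕ} (hmeas : ∀ k i, NullMeasurableSet (P k ⁻¹' {i}) μ)
    (href : ∀ k x y, P (k + 1) x = P (k + 1) y → P k x = P k y)
    (hgen : ∀ s : Set X, MeasurableSet s →
      MeasurableSet[MeasurableSpace.generateFrom (atoms P ∪ {s | μ s = 0})] s)
    {F : X → ℕ} (hF : (Set.range F).Finite) (hFm : ∀ i, NullMeasurableSet (F ⁻¹' {i}) μ)
    {ε : ℝ} (hε : 0 < ε) :
    ∃ k, ∃ B : Set X, MeasurableSet B ∧ μ.real B ≤ ε ∧
      ∀ x, x ∉ B → ∀ y, y ∉ B → P k x = P k y → F x = F y := by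
  have hA : ∀ i, ApproxSet μ P (F ⁻¹' {i}) := by
    intro i
    obtain ⟨t, ht, hts⟩ := (hFm i).exists_measurable_superset_ae_eq.imp fun t ht => ht.2
    have := (approxSet_of_generates hmeas href (hgen t ht)).2
    refine approxSet_of_null this ?_
    exact measure_symmDiff_eq_zero_iff.2 hts
  have hε' : ENNReal.ofReal ε ≠ 0 := by
    simpa using hε
  obtain ⟨δ, hδ, hδs⟩ := ENNReal.exists_pos_sum_of_countable hε' ℕ
  have hδ' : ∀ n, (δ n : ENNReal) ≠ 0 := fun n => by
    simpa using (hδ n).ne'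
  choose k C B hB hμ h using fun n => hA n (δ n) (hδ' n)
  refine ⟨hF.toFinset.sup k, ⋃ n, B n, MeasurableSet.iUnion hB, ?_, ?_⟩
  · have h1 : μ (⋃ n, B n) ≤ ENNReal.ofReal ε := by
      calc μ (⋃ n, B n) ≤ ∑' n, μ (B n) := measure_iUnion_le _
        _ ≤ ∑' n, (δ n : ENNReal) := ENNReal.tsum_le_tsum hμ
        _ ≤ ENNReal.ofReal ε := hδs.le
    exact ENNReal.toReal_le_of_le_ofReal hε.le h1
  · intro x hx y hy hxy
    simp only [Set.mem_iUnion, not_exists] at hx hy
    have hk : k (F x) ≤ hF.toFinset.sup k :=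
      Finset.le_sup (f := k) (by simp)
    have h1 := refine_le href hk x y hxy
    have h2 : P (k (F x)) x ∈ C (F x) := (h (F x) x (hx _)).1 rfl
    rw [h1] at h2
    have h3 : y ∈ F ⁻¹' {F x} := (h (F x) y (hy _)).2 h2
    exact h3.symm

/-- Lusin-Souslin: labellings separating the points of `D` generate the Borel subsets of `D` -/
theorem generates_of_injOn {X : Type} [MeasurableSpace X] [StandardBorelSpace X]
    {P : ℕ → X → ℕ} (hmeas : ∀ k, Measurable (P k)) {D : Set X} (hD : MeasurableSet D)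
    (hDP : MeasurableSet[MeasurableSpace.generateFrom (atoms P)] D)
    (hinj : ∀ x ∈ D, ∀ y ∈ D, (∀ k, P k x = P k y) → x = y) {s : Set X} (hs : MeasurableSet s)
    (hsD : s ⊆ D) : MeasurableSet[MeasurableSpace.generateFrom (atoms P)] s := by
  set code : X → ℕ → ℕ := fun x k => P k x with hcode
  have hcm : Measurable code := measurable_pi_lambda _ hmeas
  have him : MeasurableSet (code '' s) := by
    apply hs.image_of_measurable_injOn hcm
    intro x hx y hy hxy
    exact hinj x (hsD hx) y (hsD hy) fun k => congrFun hxy k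
  have hcm' : @Measurable X (ℕ → ℕ) (MeasurableSpace.generateFrom (atoms P)) _ code := by
    letI : MeasurableSpace X := MeasurableSpace.generateFrom (atoms P)
    refine measurable_pi_lambda _ fun k => measurable_to_countable' fun i => ?_
    exact MeasurableSpace.measurableSet_generateFrom ⟨k, i, rfl⟩
  have hEq : s = D ∩ code ⁻¹' (code '' s) := by
    ext x
    constructor
    · intro hx
      exact ⟨hsD hx, Set.mem_image_of_mem _ hx⟩
    · rintro ⟨hxD, y, hy, hyx⟩
      have : y = x := hinj y (hsD hy) x hxD fun k => congrFun hyx k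
      rwa [← this]
  rw [hEq]
  exact @MeasurableSet.inter X (MeasurableSpace.generateFrom (atoms P)) _ _ hDP (hcm' him)

end Pool.MPe5a66a
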