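import Pool.Agent.Lib_MP_e5a66a_an.Defs

/-!
# The construction for MP_e5a66a_an

`XX = ℤ_2 × (ZMod 2)^(ℕ×ℕ)`, `TX (z,w) = (z+1, w(· xor del 1 z, ·))`;
`YY = XX × ZMod 2`, `TY (x,u) = (TX x, u + psi x)`.
-/

open MeasureTheory Filter Topology

namespace Pool.MPe5a66a

noncomputable instance instMSpadic : MeasurableSpace ℤ_[2] := borel _
instance instBSpadic : BorelSpace ℤ_[2] := ⟨rfl⟩

/-- Haar probability measure of a compact group. -/
noncomputable def haarP (G : Type) [AddGroup G] [TopologicalSpace G] [IsTopologicalAddGroup G]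
    [CompactSpace G] [MeasurableSpace G] [BorelSpace G] : Measure G :=
  Measure.addHaarMeasure ⊤

/-- number of elements of `S` below `N` -/
noncomputable def cnt (S : Set ℕ) (N : ℕ) : ℕ := (S ∩ Set.Iio N).ncard

/-- eventual value of a sequence (`0` if there is none) -/
noncomputable def evl {α : Type} [Zero α] (s : ℕ → α) : α :=
  open scoped Classical in
  if h : ∃ d, ∀ᶠ R in atTop, s R = d then h.choose else 0

/-- start of the block of level `J` (it consists of the `2^(J+1)*(J+1)` positions from `aPos J`) -/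
def aPos : ℕ → ℕ
  | 0 => 0
  | J + 1 => aPos J + 2 ^ (J + 1) * (J + 1) + 3 + (J + 1) + 1

/-- end of the block of level `J`, plus `3` -/
def sPos (J : ℕ) : ℕ := aPos J + 2 ^ (J + 1) * (J + 1) + 3

/-- position of the steering bit of level `J`; `aPos (J+1) = cPos J + 1` -/
def cPos (J : ℕ) : ℕ := sPos J + (J + 1)

/-- residue of `z` modulo `2^k` -/
noncomputable def val (k : ℕ) (z : ℤ_[2]) : ℕ := (PadicInt.toZModPow k z).val

/-- the `i`-th binary digit of `z` -/
noncomputable def bit (i : ℕ) (z : ℤ_[2]) : Bool := (val (i + 1) z).testBit i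

/-- the number whose binary digits are the steering bits of the levels `< R` -/
noncomputable def gam (R : ℕ) (z : ℤ_[2]) : ℕ := Nat.ofBits (fun J : Fin R => bit (cPos J) z)

def G0 : Set ℤ_[2] := {z | ∀ᶠ J in atTop, val (cPos J) z + 2 ^ sPos J ≤ 2 ^ cPos J}

/-- the typical points of `ℤ_2` -/
def GG : Set ℤ_[2] := {z | ∀ n : ℤ, z + n ∈ G0}

/-- the shift of the scenery after `n` steps: digit `J` is `bit (cPos J) (z+n) xor bit (cPos J) z` -/
noncomputable def del (n : ℕ) (z : ℤ_[2]) : ℕ :=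
  evl (fun R => gam R (z + n) ^^^ gam R z)

abbrev WW : Type := ℕ × ℕ → ZMod 2

abbrev XX : Type := ℤ_[2] × WW

noncomputable def TX (x : XX) : XX := (x.1 + 1, fun p => x.2 (p.1 ^^^ del 1 x.1, p.2))

noncomputable def muX : Measure XX := (haarP ℤ_[2]).prod (haarP WW)

noncomputable def phi (r : ℕ) (x : XX) : ZMod 2 :=
  ∑ η ∈ Finset.range (2 ^ (r + 1)), ∑ j ∈ Finset.range (r + 1),
    x.2 (η ^^^ gam (r + 1) x.1, j) *
      (if bit (aPos r + (η + 2 ^ (r + 1) * j)) x.1 = true then 1 else 0)

noncomputable def Psi (R : ℕ) (x : XX) : ZMod 2 := ∑ r ∈ Finset.range R, phi r x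

noncomputable def psi (x : XX) : ZMod 2 := evl (fun R => Psi R (TX x) - Psi R x)

abbrev YY : Type := XX × ZMod 2

noncomputable def TY (y : YY) : YY := (TX y.1, y.2 + psi y.1)

noncomputable def muY : Measure YY := muX.prod (haarP (ZMod 2))

end Pool.MPe5a66a
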