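import Pool.Agent.Lib_MP_e5a66a_an.Base

/-! Piece 1: residues and digits of 2-adic integers, positions, eventual values. -/

open MeasureTheory Filter Topology

namespace Pool.MPe5a66a

theorem val_lt (k : ℕ) (z : ℤ_[2]) : val k z < 2 ^ k := ZMod.val_lt _

theorem val_mod {k m : ℕ} (h : k ≤ m) (z : ℤ_[2]) : val m z % 2 ^ k = val k z := by
  unfold val
  rw [← PadicInt.cast_toZModPow k m h z, ← ZMod.natCast_val, ZMod.val_natCast]

theorem val_add_nat (k : ℕ) (z : ℤ_[2]) (n : ℕ) : val k (z + n) = (val k z + n) % 2 ^ k := by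
  unfold val
  rw [map_add, map_natCast, ZMod.val_add, ZMod.val_natCast, Nat.add_mod_mod]

theorem eq_of_val {z z' : ℤ_[2]} (h : ∀ k, val k z = val k z') : z = z' := by
  rw [← PadicInt.ext_of_toZModPow]
  intro k
  exact ZMod.val_injective _ (h k)

theorem val_add_ne {k : ℕ} {z z' : ℤ_[2]} (h : val k z ≠ val k z') (n : ℕ) :
    val k (z + n) ≠ val k (z' + n) := by
  intro h2
  apply h
  unfold val at h2 ⊢
  have h3 := ZMod.val_injective _ h2
  rw [map_add, map_add, add_left_inj] at h3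
  rw [h3]

theorem bit_eq_testBit {i m : ℕ} (h : i < m) (z : ℤ_[2]) : bit i z = (val m z).testBit i := by
  unfold bit
  rw [← val_mod (k := i + 1) (m := m) h z, Nat.testBit_mod_two_pow]
  simp

/-- no carry beyond position `c` -/
theorem bit_no_carry {c n i : ℕ} {z : ℤ_[2]} (h : val c z + n < 2 ^ c) (hi : c ≤ i) :
    bit i (z + n) = bit i z := by
  rw [bit_eq_testBit (Nat.lt_succ_self i), bit_eq_testBit (Nat.lt_succ_self i), val_add_nat]
  set v := val (i + 1) z with hv
  have hvm : v % 2 ^ c = val c z := val_mod (by omega) z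
  have hvlt : v < 2 ^ (i + 1) := val_lt _ _
  set a := v / 2 ^ c with ha
  have hdec : v = 2 ^ c * a + val c z := by
    rw [← hvm, ha]
    exact (Nat.div_add_mod v (2 ^ c)).symm
  have hpow : 2 ^ (i + 1) = 2 ^ c * 2 ^ (i + 1 - c) := by
    rw [← pow_add]
    congr 1
    omega
  have halt : a < 2 ^ (i + 1 - c) := by
    rw [ha]
    apply Nat.div_lt_of_lt_mul
    rw [← hpow]
    exact hvlt
  have hsum : v + n = 2 ^ c * a + (val c z + n) := by rw [hdec]; ring
  have hlt : v + n < 2 ^ (i + 1) := by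
    rw [hsum, hpow]
    calc 2 ^ c * a + (val c z + n) < 2 ^ c * a + 2 ^ c := by omega
      _ = 2 ^ c * (a + 1) := by ring
      _ ≤ 2 ^ c * 2 ^ (i + 1 - c) := Nat.mul_le_mul_left _ halt
  rw [Nat.mod_eq_of_lt hlt, hsum, Nat.testBit_two_pow_mul_add _ h]
  have hc : val c z < 2 ^ c := val_lt _ _
  rw [show v.testBit i = (2 ^ c * a + val c z).testBit i by rw [← hdec],
    Nat.testBit_two_pow_mul_add _ hc]
  simp [not_lt.mpr hi]

theorem bit_flip {P : ℕ} {z : ℤ_[2]} (h : bit P z = false) :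
    bit P (z + (2 ^ P : ℕ)) = true ∧ ∀ i, i ≠ P → bit i (z + (2 ^ P : ℕ)) = bit i z := by
  have key : ∀ m, P < m → ∃ a b : ℕ, b < 2 ^ P ∧ val m z = 2 ^ (P + 1) * a + b ∧
      val m (z + (2 ^ P : ℕ)) = 2 ^ (P + 1) * a + (2 ^ P + b) := by
    intro m hm
    set v := val m z with hv
    have hvlt : v < 2 ^ m := val_lt _ _
    have hb : v.testBit P = false := by rw [← bit_eq_testBit hm]; exact h
    refine ⟨v / 2 ^ (P + 1), v % 2 ^ (P + 1), ?_, (Nat.div_add_mod v (2 ^ (P + 1))).symm, ?_⟩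
    · rw [Nat.mod_pow_succ]
      rw [Nat.testBit_eq_decide_div_mod_eq] at hb
      have h2 : v / 2 ^ P % 2 = 0 := by
        have := Nat.mod_lt (v / 2 ^ P) (show 2 > 0 by norm_num)
        have h3 : ¬ (v / 2 ^ P % 2 = 1) := of_decide_eq_false hb
        omega
      rw [h2, Nat.mul_zero, Nat.add_zero]
      exact Nat.mod_lt _ (by positivity)
    · rw [val_add_nat, ← hv]
      have hbl : v % 2 ^ (P + 1) < 2 ^ P := by
        rw [Nat.mod_pow_succ]
        rw [Nat.testBit_eq_decide_div_mod_eq] at hb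
        have h2 : v / 2 ^ P % 2 = 0 := by
          have := Nat.mod_lt (v / 2 ^ P) (show 2 > 0 by norm_num)
          have h3 : ¬ (v / 2 ^ P % 2 = 1) := of_decide_eq_false hb
          omega
        rw [h2, Nat.mul_zero, Nat.add_zero]
        exact Nat.mod_lt _ (by positivity)
      have hsum : v + 2 ^ P = 2 ^ (P + 1) * (v / 2 ^ (P + 1)) + (2 ^ P + v % 2 ^ (P + 1)) := by
        have := Nat.div_add_mod v (2 ^ (P + 1))
        omega
      have hpow : 2 ^ m = 2 ^ (P + 1) * 2 ^ (m - (P + 1)) := by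
        rw [← pow_add]
        congr 1
        omega
      have halt : v / 2 ^ (P + 1) < 2 ^ (m - (P + 1)) := by
        apply Nat.div_lt_of_lt_mul
        rw [← hpow]
        exact hvlt
      have hlt : v + 2 ^ P < 2 ^ m := by
        rw [hsum, hpow]
        have h4 : 2 ^ (P + 1) = 2 ^ P + 2 ^ P := by rw [pow_succ]; ring
        calc 2 ^ (P + 1) * (v / 2 ^ (P + 1)) + (2 ^ P + v % 2 ^ (P + 1))
            < 2 ^ (P + 1) * (v / 2 ^ (P + 1)) + 2 ^ (P + 1) := by omega
          _ = 2 ^ (P + 1) * (v / 2 ^ (P + 1) + 1) := by ring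
          _ ≤ 2 ^ (P + 1) * 2 ^ (m - (P + 1)) := Nat.mul_le_mul_left _ halt
      rw [Nat.mod_eq_of_lt hlt, hsum]
  constructor
  · obtain ⟨a, b, hb, h1, h2⟩ := key (P + 1) (Nat.lt_succ_self P)
    rw [bit_eq_testBit (Nat.lt_succ_self P), h2, Nat.testBit_two_pow_mul_add _ (by
      rw [pow_succ]; omega)]
    rw [if_pos (Nat.lt_succ_self P), Nat.testBit_two_pow_add_eq, Nat.testBit_lt_two_pow hb]
    rfl
  · intro i hi
    obtain ⟨a, b, hb, h1, h2⟩ := key (max i P + 1) (by omega)
    rw [bit_eq_testBit (show i < max i P + 1 by omega), bit_eq_testBit (show i < max i P + 1 by omega),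
      h1, h2, Nat.testBit_two_pow_mul_add _ (by rw [pow_succ]; omega),
      Nat.testBit_two_pow_mul_add _ (by rw [pow_succ]; omega)]
    rcases Nat.lt_or_ge i P with h3 | h3
    · rw [if_pos (by omega), if_pos (by omega), Nat.testBit_two_pow_add_gt h3]
    · rw [if_neg (by omega), if_neg (by omega)]

theorem aPos_succ (J : ℕ) : aPos (J + 1) = cPos J + 1 := rfl

theorem aPos_lt_sPos (J : ℕ) : aPos J + 3 ≤ sPos J := by
  unfold sPos
  omega

theorem sPos_lt_cPos (J : ℕ) : sPos J < cPos J := by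
  unfold cPos
  omega

theorem aPos_lt_cPos (J : ℕ) : aPos J < cPos J := by
  have := aPos_lt_sPos J
  have := sPos_lt_cPos J
  omega

theorem aPos_mono : StrictMono aPos := by
  apply strictMono_nat_of_lt_succ
  intro J
  rw [aPos_succ]
  have := aPos_lt_cPos J
  omega

theorem cPos_lt_aPos {J K : ℕ} (h : J < K) : cPos J < aPos K := by
  have h1 : aPos (J + 1) ≤ aPos K := aPos_mono.monotone h
  rw [aPos_succ] at h1
  omega

theorem cPos_strictMono : StrictMono cPos := by
  intro J K h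
  exact (cPos_lt_aPos h).trans (aPos_lt_cPos K)

theorem le_aPos (J : ℕ) : J ≤ aPos J := aPos_mono.le_apply

theorem le_cPos (J : ℕ) : J ≤ cPos J := cPos_strictMono.le_apply

theorem sPos_mono : StrictMono sPos := by
  intro J K h
  have h1 := sPos_lt_cPos J
  have h2 := cPos_lt_aPos h
  have h3 := aPos_lt_sPos K
  omega

/-- positions inside the blocks are not steering positions -/
theorem ne_cPos {r P : ℕ} (h1 : aPos r ≤ P) (h2 : P < sPos r) (J : ℕ) : P ≠ cPos J := by
  rcases Nat.lt_or_ge J r with h | h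
  · have := cPos_lt_aPos h
    omega
  · have h3 := cPos_strictMono.monotone h
    have h4 := sPos_lt_cPos r
    omega

/-- different blocks are disjoint -/
theorem ne_of_blocks {r r' P Q : ℕ} (hr : r ≠ r') (h1 : aPos r ≤ P) (h2 : P < sPos r)
    (h3 : aPos r' ≤ Q) (h4 : Q < sPos r') : P ≠ Q := by
  rcases Nat.lt_or_ge r r' with h | h
  · have h5 := cPos_lt_aPos h
    have h6 := sPos_lt_cPos r
    omega
  · have h5 := cPos_lt_aPos (lt_of_le_of_ne h (Ne.symm hr))
    have h6 := sPos_lt_cPos r'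
    omega

theorem gam_testBit (R J : ℕ) (z : ℤ_[2]) :
    (gam R z).testBit J = (decide (J < R) && bit (cPos J) z) := by
  unfold gam
  rcases Nat.lt_or_ge J R with h | h
  · rw [Nat.testBit_ofBits_lt _ _ h]
    simp [h]
  · rw [Nat.testBit_ofBits_ge _ _ h]
    simp [not_lt.mpr h]

theorem gam_lt (R : ℕ) (z : ℤ_[2]) : gam R z < 2 ^ R := Nat.ofBits_lt_two_pow _

theorem evl_eq {α : Type} [Zero α] {s : ℕ → α} {d : α} (h : ∀ᶠ R in atTop, s R = d) :
    evl s = d := by
  classical
  have hex : ∃ d, ∀ᶠ R in atTop, s R = d := ⟨d, h⟩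
  unfold evl
  rw [dif_pos hex]
  obtain ⟨R, hR1, hR2⟩ := (hex.choose_spec.and h).exists
  rw [← hR1, hR2]

theorem add_nat_mem_GG (z : ℤ_[2]) (n : ℕ) : z + n ∈ GG ↔ z ∈ GG := by
  unfold GG
  simp only [Set.mem_setOf_eq]
  constructor
  · intro h m
    have := h (m - n)
    have e : z + (n : ℤ_[2]) + ((m - n : ℤ) : ℤ_[2]) = z + (m : ℤ_[2]) := by
      push_cast
      ring
    rwa [e] at this
  · intro h m
    have := h (n + m)
    have e : z + (((n : ℤ) + m : ℤ) : ℤ_[2]) = z + (n : ℤ_[2]) + (m : ℤ_[2]) := by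
      push_cast
      ring
    rwa [e] at this

theorem GG_spec {z : ℤ_[2]} (hz : z ∈ GG) :
    ∀ᶠ J in atTop, ∀ n : ℕ, n < 2 ^ sPos J → ∀ i, cPos J ≤ i → bit i (z + n) = bit i z := by
  have h0 : z ∈ G0 := by
    have := hz 0
    simpa using this
  unfold G0 at h0
  rw [Set.mem_setOf_eq] at h0
  filter_upwards [h0] with J hJ n hn i hi
  exact bit_no_carry (by omega) hi

end Pool.MPe5a66a
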