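import Pool.Agent.Lib_MP_e5a66a_an.Sys

/-! Piece 4: the cocycle `psi` and the system `TY`. May use `Bits.lean`, `Haar.lean`,
`Sys.lean`. -/

open MeasureTheory Filter Topology

namespace Pool.MPe5a66a

instance instProbMuY : IsProbabilityMeasure muY := by
  unfold muY; infer_instance

/-- `phi` written along the orbit -/
theorem phi_iterate {x : XX} (hx : x.1 ∈ GG) (n r : ℕ) :
    phi r (TX^[n] x) = ∑ η ∈ Finset.range (2 ^ (r + 1)), ∑ j ∈ Finset.range (r + 1),
      x.2 ((η ^^^ gam (r + 1) (x.1 + n)) ^^^ del n x.1, j) *
      (if bit (aPos r + (η + 2 ^ (r + 1) * j)) (x.1 + n) = true then 1 else 0) := by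
  rw [TX_iterate hx n]
  rfl

/-- for a typical point, `phi r (TX^[n] x) = phi r x` for all large `r` -/
theorem phi_eventually {x : XX} (hx : x.1 ∈ GG) (n : ℕ) :
    ∀ᶠ r in atTop, phi r (TX^[n] x) = phi r x := by
  have h2 : ∀ᶠ J in atTop, n < 2 ^ sPos J := by
    filter_upwards [eventually_ge_atTop n] with J hJ
    calc n < 2 ^ n := Nat.lt_two_pow_self
      _ ≤ 2 ^ sPos J := by
        apply Nat.pow_le_pow_right (by norm_num)
        have := le_aPos J
        have := aPos_lt_sPos J
        omega
  obtain ⟨J, hJ1, hJ2⟩ := ((GG_spec hx).and h2).exists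
  filter_upwards [eventually_gt_atTop J] with r hr
  rw [phi_iterate hx]
  unfold phi
  apply Finset.sum_congr rfl
  intro η _
  apply Finset.sum_congr rfl
  intro j _
  have hb : bit (aPos r + (η + 2 ^ (r + 1) * j)) (x.1 + n) =
      bit (aPos r + (η + 2 ^ (r + 1) * j)) x.1 := by
    apply hJ1 n hJ2
    have := cPos_lt_aPos hr
    omega
  have hg : (η ^^^ gam (r + 1) (x.1 + n)) ^^^ del n x.1 = η ^^^ gam (r + 1) x.1 := by
    apply Nat.eq_of_testBit_eq
    intro i
    rw [Nat.testBit_xor, Nat.testBit_xor, Nat.testBit_xor, gam_testBit, gam_testBit,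
      del_testBit hx]
    by_cases hi : i < r + 1
    · simp only [hi, decide_true, Bool.true_and]
      cases η.testBit i <;> cases bit (cPos i) (x.1 + n) <;> cases bit (cPos i) x.1 <;> rfl
    · have hc : cPos J ≤ cPos i := cPos_strictMono.monotone (by omega)
      rw [hJ1 n hJ2 (cPos i) hc]
      simp [hi]
  rw [hb, hg]

theorem psi_eventually {x : XX} (hx : x.1 ∈ GG) :
    ∀ᶠ R in atTop, Psi R (TX x) - Psi R x = psi x := by
  have h1 := phi_eventually hx 1
  obtain ⟨J, hJ⟩ := eventually_atTop.1 h1
  have h3 : ∀ᶠ R in atTop, Psi R (TX x) - Psi R x = Psi J (TX x) - Psi J x := by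
    filter_upwards [eventually_ge_atTop J] with R hR
    obtain ⟨m, rfl⟩ := Nat.exists_eq_add_of_le hR
    clear hR
    induction m with
    | zero => rfl
    | succ m ih =>
      have e1 : Psi (J + (m + 1)) (TX x) = Psi (J + m) (TX x) + phi (J + m) (TX x) := by
        unfold Psi
        rw [← Nat.add_assoc, Finset.sum_range_succ]
      have e2 : Psi (J + (m + 1)) x = Psi (J + m) x + phi (J + m) x := by
        unfold Psi
        rw [← Nat.add_assoc, Finset.sum_range_succ]
      have e3 : phi (J + m) (TX x) = phi (J + m) x := hJ (J + m) (by omega)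
      rw [e1, e2, e3, ← ih]
      ring
  have h4 : psi x = Psi J (TX x) - Psi J x := evl_eq h3
  rw [h4]
  exact h3

theorem TY_iterate_fst (n : ℕ) (y : YY) : (TY^[n] y).1 = TX^[n] y.1 := by
  induction n with
  | zero => rfl
  | succ n ih =>
    rw [Function.iterate_succ_apply', Function.iterate_succ_apply', ← ih]
    rfl

theorem TY_iterate_snd {y : YY} (hy : y.1.1 ∈ GG) (n : ℕ) :
    ∀ᶠ R in atTop, (TY^[n] y).2 = y.2 + (Psi R (TX^[n] y.1) - Psi R y.1) := by
  induction n with
  | zero =>
    filter_upwards with R
    simp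
  | succ n ih =>
    have hx : (TX^[n] y.1).1 ∈ GG := by
      rw [TX_iterate_fst]
      exact (add_nat_mem_GG _ n).2 hy
    filter_upwards [ih, psi_eventually hx] with R h1 h2
    rw [Function.iterate_succ_apply', Function.iterate_succ_apply']
    show (TY^[n] y).2 + psi (TY^[n] y).1 = _
    rw [TY_iterate_fst, h1, ← h2]
    ring

theorem measurable_joint0 (δ : ℤ_[2] → ℕ) (hδ : Measurable δ) (j : ℕ) :
    Measurable (fun x : XX => x.2 (δ x.1, j)) := by
  have h1 : Measurable (fun y : ℕ × WW => y.2 (y.1, j)) := by
    apply measurable_from_prod_countable_right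
    intro n
    exact measurable_pi_apply (n, j)
  exact h1.comp ((hδ.comp measurable_fst).prodMk measurable_snd)

theorem measurable_phi (r : ℕ) : Measurable (phi r) := by
  unfold phi
  apply Finset.measurable_sum
  intro η _
  apply Finset.measurable_sum
  intro j _
  apply Measurable.mul
  · have hx : Measurable (fun z : ℤ_[2] => η ^^^ gam (r + 1) z) :=
      (measurable_of_countable (fun m : ℕ => η ^^^ m)).comp (measurable_gam (r + 1))
    exact measurable_joint0 (fun z => η ^^^ gam (r + 1) z) hx j
  · have hb : Measurable (fun x : XX => bit (aPos r + (η + 2 ^ (r + 1) * j)) x.1) :=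
      (measurable_bit _).comp measurable_fst
    exact (measurable_of_countable
      (fun b : Bool => if b = true then (1 : ZMod 2) else 0)).comp hb

theorem measurable_Psi (R : ℕ) : Measurable (Psi R) := by
  unfold Psi
  apply Finset.measurable_sum
  intro r _
  exact measurable_phi r

theorem measurable_TX : Measurable TX := measurePreserving_TX.measurable

theorem measurable_psi : Measurable psi := by
  unfold psi
  apply measurable_evl
  intro R
  exact ((measurable_Psi R).comp measurable_TX).sub (measurable_Psi R)

theorem measurePreserving_TY : MeasurePreserving TY muY muY := by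
  have hm : Measurable (Function.uncurry (fun (x : XX) (u : ZMod 2) => u + psi x)) := by
    have h1 : Measurable (fun y : XX × ZMod 2 => y.2 + psi y.1) :=
      measurable_snd.add (measurable_psi.comp measurable_fst)
    exact h1
  exact measurePreserving_TX.skew_product (μc := haarP (ZMod 2)) (μd := haarP (ZMod 2))
    (g := fun (x : XX) (u : ZMod 2) => u + psi x) hm
    (Eventually.of_forall fun x => (measurePreserving_add_right (haarP (ZMod 2)) (psi x)).map_eq)

end Pool.MPe5a66a
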