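import Pool.Agent.Lib_MP_e5a66a_an.Sys

/-! Piece 11: the canonical finite labellings of `XX` and `YY`. May use `Bits.lean`, `Haar.lean`. -/

open MeasureTheory Filter Topology

namespace Pool.MPe5a66a

/-- labellings by finite types give labellings by numbers -/
theorem mk_labels {X : Type} [MeasurableSpace X] {C : ℕ → Type} [∀ k, Finite (C k)]
    [∀ k, MeasurableSpace (C k)] [∀ k, MeasurableSingletonClass (C k)]
    (c : ∀ k, X → C k) (hc : ∀ k, Measurable (c k)) :
    ∃ R : ℕ → X → ℕ, (∀ k, (Set.range (R k)).Finite) ∧ (∀ k, Measurable (R k)) ∧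
      ∀ k x y, R k x = R k y ↔ c k x = c k y := by
  refine ⟨fun k x => ((Finite.equivFin (C k) (c k x) : Fin _) : ℕ), ?_, ?_, ?_⟩
  · intro k
    refine (Set.finite_range (fun a : C k => ((Finite.equivFin (C k) a : Fin _) : ℕ))).subset ?_
    rintro _ ⟨x, rfl⟩
    exact ⟨c k x, rfl⟩
  · intro k
    exact (measurable_of_countable (fun a : C k => ((Finite.equivFin (C k) a : Fin _) : ℕ))).comp
      (hc k)
  · intro k x y
    constructor
    · intro h
      exact (Finite.equivFin (C k)).injective (Fin.ext h)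
    · intro h
      simp only [h]

/-- the code of a point of `XX` -/
noncomputable def codeX (k : ℕ) (x : XX) : Fin (2 ^ k) × (Fin k × Fin k → ZMod 2) :=
  (⟨val k x.1, val_lt k x.1⟩, fun p => x.2 ((p.1 : ℕ), (p.2 : ℕ)))

theorem measurable_codeX (k : ℕ) : Measurable (codeX k) := by
  refine Measurable.prodMk ?_ ?_
  · apply measurable_to_countable'
    intro a
    have h1 : Measurable fun x : XX => val k x.1 := (measurable_val k).comp measurable_fst
    have h2 := h1 (measurableSet_singleton (a : ℕ))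
    convert h2 using 1
    ext x
    simp only [Set.mem_preimage, Set.mem_singleton_iff]
    exact Fin.ext_iff
  · refine measurable_pi_lambda _ fun p => ?_
    exact (measurable_pi_apply _).comp measurable_snd

theorem codeX_eq (k : ℕ) (x y : XX) : codeX k x = codeX k y ↔ (val k x.1 = val k y.1 ∧
      ∀ p : ℕ × ℕ, p.1 < k → p.2 < k → x.2 p = y.2 p) := by
  unfold codeX
  rw [Prod.mk.injEq, Fin.mk.injEq]
  refine and_congr_right fun _ => ?_
  constructor
  · intro h p hp hq
    exact congrFun h (⟨p.1, hp⟩, ⟨p.2, hq⟩)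
  · intro h
    funext p
    exact h _ p.1.2 p.2.2

theorem exists_RX : ∃ R : ℕ → XX → ℕ, (∀ k, (Set.range (R k)).Finite) ∧ (∀ k, Measurable (R k)) ∧
    ∀ k x y, R k x = R k y ↔ (val k x.1 = val k y.1 ∧
      ∀ p : ℕ × ℕ, p.1 < k → p.2 < k → x.2 p = y.2 p) := by
  obtain ⟨R, h1, h2, h3⟩ := mk_labels codeX measurable_codeX
  exact ⟨R, h1, h2, fun k x y => (h3 k x y).trans (codeX_eq k x y)⟩

open scoped Classical in
/-- the code of a point of `YY` -/
noncomputable def codeY (k : ℕ) (y : YY) :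
    Bool × ((Fin (2 ^ k) × (Fin k × Fin k → ZMod 2)) × ZMod 2) :=
  if y.1.1 ∈ GG then (true, (codeX k y.1, y.2))
  else (false, ((⟨0, by positivity⟩, fun _ => 0), 0))

theorem measurable_codeY (k : ℕ) : Measurable (codeY k) := by
  unfold codeY
  refine Measurable.ite ?_ ?_ measurable_const
  · exact (measurable_fst.comp measurable_fst) measurableSet_GG
  · exact measurable_const.prodMk
      (((measurable_codeX k).comp measurable_fst).prodMk measurable_snd)

theorem exists_RY : ∃ R : ℕ → YY → ℕ, (∀ k, (Set.range (R k)).Finite) ∧ (∀ k, Measurable (R k)) ∧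
    ∀ k x y, R k x = R k y ↔ ((x.1.1 ∉ GG ∧ y.1.1 ∉ GG) ∨
      (x.1.1 ∈ GG ∧ y.1.1 ∈ GG ∧ val k x.1.1 = val k y.1.1 ∧
        (∀ p : ℕ × ℕ, p.1 < k → p.2 < k → x.1.2 p = y.1.2 p) ∧ x.2 = y.2)) := by
  obtain ⟨R, h1, h2, h3⟩ := mk_labels codeY measurable_codeY
  refine ⟨R, h1, h2, fun k x y => (h3 k x y).trans ?_⟩
  unfold codeY
  by_cases hx : x.1.1 ∈ GG <;> by_cases hy : y.1.1 ∈ GG
  · simp only [hx, hy, if_true, not_true, false_and, true_and, false_or, Prod.mk.injEq,
      codeX_eq, and_assoc]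
  · simp [hx, hy]
  · simp [hx, hy]
  · simp [hx, hy]

end Pool.MPe5a66a
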