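import Pool.Agent.Lib_MP_e5a66a_an.Sys

/-! Piece 9: exact equidistribution of the digits of `del n z`. May use `Bits.lean`, `Sys.lean`
(statements `del_testBit`, `val_add_nat`, `bit_eq_testBit`, ...). -/

open MeasureTheory Filter Topology

namespace Pool.MPe5a66a

theorem cx_cnt_eq (P : ℕ → Prop) [DecidablePred P] (N : ℕ) :
    cnt {v | P v} N = ((Finset.range N).filter P).card := by
  unfold cnt
  rw [← Set.ncard_coe_finset]
  congr 1
  ext v
  simp [and_comm]

theorem cx_cnt_mono {S T : Set ℕ} (h : S ⊆ T) (N : ℕ) : cnt S N ≤ cnt T N := by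
  unfold cnt
  exact Set.ncard_le_ncard (Set.inter_subset_inter_left _ h)
    ((Set.finite_Iio N).subset Set.inter_subset_right)

/-- `q` independent switches: position `b j` switches `χ j` and does not touch the other `χ i` -/
theorem count_switch (a q : ℕ) (χ : ℕ → ℕ → Bool) (b : ℕ → ℕ) (hb : ∀ j < q, b j < a)
    (hflip : ∀ j < q, ∀ v < 2 ^ a, χ j (v ^^^ 2 ^ b j) = !(χ j v))
    (hother : ∀ j < q, ∀ i < q, i ≠ j → ∀ v < 2 ^ a, χ i (v ^^^ 2 ^ b j) = χ i v) :
    cnt {v | ∀ j < q, χ j v = false} (2 ^ a) * 2 ^ q ≤ 2 ^ a := by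
  induction q with
  | zero =>
    rw [cx_cnt_eq]
    simp
  | succ q ih =>
    have ih' := ih (fun j hj => hb j (by omega)) (fun j hj => hflip j (by omega))
      (fun j hj i hi => hother j (by omega) i (by omega))
    have key : 2 * cnt {v | ∀ j < q + 1, χ j v = false} (2 ^ a) ≤
        cnt {v | ∀ j < q, χ j v = false} (2 ^ a) := by
      rw [cx_cnt_eq, cx_cnt_eq]
      set A := (Finset.range (2 ^ a)).filter fun v => ∀ j < q + 1, χ j v = false with hA
      set B := (Finset.range (2 ^ a)).filter fun v => ∀ j < q, χ j v = false with hB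
      have hAB : A ⊆ B := by
        intro v hv
        rw [hA, Finset.mem_filter] at hv
        rw [hB, Finset.mem_filter]
        exact ⟨hv.1, fun j hj => hv.2 j (by omega)⟩
      have h1 : A.card ≤ (B \ A).card := by
        refine Finset.card_le_card_of_injOn (fun v => v ^^^ 2 ^ b q) ?_ ?_
        · intro v hv
          have hv' := hv
          rw [Finset.mem_coe, hA, Finset.mem_filter, Finset.mem_range] at hv'
          obtain ⟨hlt, hχ⟩ := hv'
          have hlt2 : v ^^^ 2 ^ b q < 2 ^ a :=
            Nat.xor_lt_two_pow hlt (Nat.pow_lt_pow_right (by norm_num) (hb q (by omega)))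
          rw [Finset.mem_coe, Finset.mem_sdiff]
          refine ⟨?_, ?_⟩
          · rw [hB, Finset.mem_filter, Finset.mem_range]
            refine ⟨hlt2, fun j hj => ?_⟩
            rw [hother q (by omega) j (by omega) (by omega) v hlt]
            exact hχ j (by omega)
          · rw [hA, Finset.mem_filter]
            rintro ⟨-, h⟩
            have h3 := h q (by omega)
            rw [hflip q (by omega) v hlt, hχ q (by omega)] at h3
            exact absurd h3 (by decide)
        · intro v _ w _ hvw
          exact Nat.xor_left_inj.1 hvw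
      rw [Finset.card_sdiff_of_subset hAB] at h1
      have h2 := Finset.card_le_card hAB
      omega
    calc cnt {v | ∀ j < q + 1, χ j v = false} (2 ^ a) * 2 ^ (q + 1)
        = (2 * cnt {v | ∀ j < q + 1, χ j v = false} (2 ^ a)) * 2 ^ q := by ring
      _ ≤ cnt {v | ∀ j < q, χ j v = false} (2 ^ a) * 2 ^ q := Nat.mul_le_mul_right _ key
      _ ≤ 2 ^ a := ih'

/-- `n ↦ val a (z+n)` is a bijection of `{0,…,2^a-1}` -/
theorem count_transfer (a : ℕ) (z : ℤ_[2]) (Q : ℕ → Prop) :
    cnt {n | Q (val a (z + n))} (2 ^ a) = cnt {v | Q v} (2 ^ a) := by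
  classical
  rw [cx_cnt_eq, cx_cnt_eq]
  have hc := val_lt a z
  set c := val a z with hcdef
  set N := 2 ^ a with hN
  have hval : ∀ n : ℕ, val a (z + n) = (c + n) % N := fun n => val_add_nat a z n
  simp_rw [hval]
  have hN0 : 0 < N := by positivity
  refine Finset.card_nbij' (fun n => (c + n) % N) (fun v => (v + (N - c)) % N) ?_ ?_ ?_ ?_
  · intro n hn
    simp only [Finset.coe_filter, Finset.mem_range, Set.mem_ofPred_eq] at hn ⊢
    exact ⟨Nat.mod_lt _ hN0, hn.2⟩
  · intro v hv
    simp only [Finset.coe_filter, Finset.mem_range, Set.mem_ofPred_eq] at hv ⊢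
    refine ⟨Nat.mod_lt _ hN0, ?_⟩
    have : (c + (v + (N - c)) % N) % N = v := by
      rw [Nat.add_mod_mod]
      have e : c + (v + (N - c)) = v + N := by omega
      rw [e, Nat.add_mod_right, Nat.mod_eq_of_lt hv.1]
    rw [this]; exact hv.2
  · intro n hn
    simp only [Finset.coe_filter, Finset.mem_range, Set.mem_ofPred_eq] at hn
    change ((c + n) % N + (N - c)) % N = n
    rw [Nat.mod_add_mod]
    have e : c + n + (N - c) = n + N := by omega
    rw [e, Nat.add_mod_right, Nat.mod_eq_of_lt hn.1]
  · intro v hv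
    simp only [Finset.coe_filter, Finset.mem_range, Set.mem_ofPred_eq] at hv
    change (c + (v + (N - c)) % N) % N = v
    rw [Nat.add_mod_mod]
    have e : c + (v + (N - c)) = v + N := by omega
    rw [e, Nat.add_mod_right, Nat.mod_eq_of_lt hv.1]

theorem cx_testBit_flip (v P Q : ℕ) :
    (v ^^^ 2 ^ P).testBit Q = (v.testBit Q ^^ decide (P = Q)) := by
  rw [Nat.testBit_xor, Nat.testBit_two_pow]

theorem count_small {z : ℤ_[2]} (hz : z ∈ GG) {J J' : ℕ} (h : J' ≤ J) :
    cnt {n | del n z < 2 ^ J'} (2 ^ aPos J) * 2 ^ (J - J') ≤ 2 ^ aPos J := by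
  set χ : ℕ → ℕ → Bool := fun j v => (v.testBit (cPos (J' + j)) ^^ bit (cPos (J' + j)) z) with hχ
  have h1 : cnt {n | del n z < 2 ^ J'} (2 ^ aPos J) ≤
      cnt {n : ℕ | (fun v => ∀ j < J - J', χ j v = false) (val (aPos J) (z + n))}
        (2 ^ aPos J) := by
    apply cx_cnt_mono
    intro n hn j hj
    have hn' : del n z < 2 ^ J' := hn
    have h2 : (del n z).testBit (J' + j) = false :=
      Nat.testBit_lt_two_pow (lt_of_lt_of_le hn' (Nat.pow_le_pow_right (by norm_num) (by omega)))
    rw [del_testBit hz] at h2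
    simp only [hχ]
    rw [← bit_eq_testBit (cPos_lt_aPos (by omega))]
    exact h2
  have h1' := h1.trans (count_transfer (aPos J) z fun v => ∀ j < J - J', χ j v = false).le
  refine (Nat.mul_le_mul_right _ h1').trans ?_
  refine count_switch (aPos J) (J - J') χ (fun j => cPos (J' + j)) ?_ ?_ ?_
  · intro j hj
    exact cPos_lt_aPos (by omega)
  · intro j _ v _
    simp only [hχ]
    rw [cx_testBit_flip]
    simp
  · intro j _ i _ hij v _
    simp only [hχ]
    rw [cx_testBit_flip]
    have : cPos (J' + j) ≠ cPos (J' + i) := by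
      intro e
      have := cPos_strictMono.injective e
      omega
    simp [this]

theorem count_linear {z : ℤ_[2]} (hz : z ∈ GG) {J J' k q i₀ : ℕ} (h : J' + k * k ≤ J)
    (hq : q ≤ k) (v : ℕ → ZMod 2) (hi : i₀ < k) (hv : v i₀ ≠ 0) :
    cnt {n | ∀ j < q, ∑ i ∈ Finset.range k,
      v i * (if (del n z).testBit (J' + (k * j + i)) = true then 1 else 0) = 0} (2 ^ aPos J)
      * 2 ^ q ≤ 2 ^ aPos J := by
  have hv1 : v i₀ = 1 := by
    generalize v i₀ = x at hv ⊢
    revert x; decide
  have hidx : ∀ j i, j < q → i < k → J' + (k * j + i) < J := by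
    intro j i hj hi
    have h1 : k * (j + 1) ≤ k * k := Nat.mul_le_mul_left _ (by omega)
    rw [Nat.mul_add, Nat.mul_one] at h1
    omega
  set s : ℕ → ℕ → ZMod 2 := fun j w => ∑ i ∈ Finset.range k,
      v i * (if (w.testBit (cPos (J' + (k * j + i))) ^^ bit (cPos (J' + (k * j + i))) z) = true
        then 1 else 0) with hs
  set χ : ℕ → ℕ → Bool := fun j w => decide (s j w ≠ 0) with hχ
  have h1 : cnt {n | ∀ j < q, ∑ i ∈ Finset.range k,
      v i * (if (del n z).testBit (J' + (k * j + i)) = true then 1 else 0) = 0} (2 ^ aPos J) ≤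
      cnt {n : ℕ | (fun w => ∀ j < q, χ j w = false) (val (aPos J) (z + n))}
        (2 ^ aPos J) := by
    apply cx_cnt_mono
    intro n hn j hj
    have hn' := hn j hj
    have e : s j (val (aPos J) (z + n)) = 0 := by
      rw [← hn']
      refine Finset.sum_congr rfl fun i hi => ?_
      rw [del_testBit hz, ← bit_eq_testBit (cPos_lt_aPos (hidx j i hj (Finset.mem_range.1 hi)))]
    simp only [hχ, e]
    simp
  have h1' := h1.trans (count_transfer (aPos J) z fun w => ∀ j < q, χ j w = false).le
  refine (Nat.mul_le_mul_right _ h1').trans ?_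
  refine count_switch (aPos J) q χ (fun j => cPos (J' + (k * j + i₀))) ?_ ?_ ?_
  · intro j hj
    exact cPos_lt_aPos (hidx j i₀ hj hi)
  · intro j _ w _
    have e : s j (w ^^^ 2 ^ cPos (J' + (k * j + i₀))) = s j w + 1 := by
      simp only [hs]
      rw [← Finset.add_sum_erase _ _ (Finset.mem_range.2 hi),
        ← Finset.add_sum_erase (a := i₀) _ _ (Finset.mem_range.2 hi)]
      have e1 : ∑ i ∈ (Finset.range k).erase i₀, v i *
          (if ((w ^^^ 2 ^ cPos (J' + (k * j + i₀))).testBit (cPos (J' + (k * j + i))) ^^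
            bit (cPos (J' + (k * j + i))) z) = true then 1 else 0) =
          ∑ i ∈ (Finset.range k).erase i₀, v i *
          (if (w.testBit (cPos (J' + (k * j + i))) ^^
            bit (cPos (J' + (k * j + i))) z) = true then 1 else 0) := by
        refine Finset.sum_congr rfl fun i hi' => ?_
        have hne : cPos (J' + (k * j + i₀)) ≠ cPos (J' + (k * j + i)) := by
          intro e
          have := cPos_strictMono.injective e
          exact (Finset.mem_erase.1 hi').1 (by omega)
        rw [cx_testBit_flip]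
        simp [hne]
      rw [e1, cx_testBit_flip, hv1]
      cases w.testBit (cPos (J' + (k * j + i₀))) <;> cases bit (cPos (J' + (k * j + i₀))) z <;>
        simp <;> ring_nf
      all_goals
        have : (2 : ZMod 2) = 0 := by decide
        simp [this]
    simp only [hχ, e]
    generalize s j w = x
    revert x; decide
  · intro j hj j' hj' hne w _
    have e : s j' (w ^^^ 2 ^ cPos (J' + (k * j + i₀))) = s j' w := by
      simp only [hs]
      refine Finset.sum_congr rfl fun i hi' => ?_
      have hne2 : cPos (J' + (k * j + i₀)) ≠ cPos (J' + (k * j' + i)) := by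
        intro e
        have h2 := cPos_strictMono.injective e
        have h3 : k * j + i₀ = k * j' + i := by omega
        have hi'' := Finset.mem_range.1 hi'
        have h4 : (k * j + i₀) / k = (k * j' + i) / k := by rw [h3]
        have hk : 0 < k := by omega
        rw [Nat.mul_add_div hk, Nat.mul_add_div hk, Nat.div_eq_of_lt hi,
          Nat.div_eq_of_lt hi''] at h4
        omega
      rw [cx_testBit_flip]
      simp [hne2]
    simp only [hχ, e]

end Pool.MPe5a66a
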