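import Mathlib

/-!
# Measure-theoretic chaos: the definitions of the problem

Everything is stated for a `System`: a measure-preserving self-map of a standard probability space
whose σ-algebra `mspace` is complete.
-/

open MeasureTheory Filter

namespace Pool.MPe5a66a

/-- Upper density of a set of natural numbers:
`limsup_N #(S ∩ {0,…,N-1}) / N`. -/
noncomputable def upperDensity (S : Set ℕ) : ℝ :=
  limsup (fun N : ℕ => ((S ∩ Set.Iio N).ncard : ℝ) / (N : ℝ)) atTop

/-- A measure-preserving transformation `T` of a standard probability space with complete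
σ-algebra `mspace`: there is a standard Borel σ-algebra `m₀` whose completion is `mspace`
(every `mspace`-measurable set lies between two `m₀`-measurable sets whose difference is null,
and all subsets of null sets are `mspace`-measurable). -/
structure System where
  /-- the underlying set -/
  carrier : Type
  /-- the complete σ-algebra -/
  mspace : MeasurableSpace carrier
  /-- the measure -/
  μ : Measure carrier
  isProb : IsProbabilityMeasure μ
  isComplete : μ.IsComplete
  standard : ∃ m₀ : MeasurableSpace carrier, @StandardBorelSpace carrier m₀ ∧ m₀ ≤ mspace ∧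
    ∀ s, MeasurableSet[mspace] s → ∃ t₁ t₂, MeasurableSet[m₀] t₁ ∧ MeasurableSet[m₀] t₂ ∧
      t₁ ⊆ s ∧ s ⊆ t₂ ∧ μ (t₂ \ t₁) = 0
  /-- the transformation -/
  T : carrier → carrier
  preserving : MeasurePreserving T μ μ

/-- The two readings of the phrase: `𝔅` is the smallest complete σ-algebra containing all `P_k`.
`allNull`: `𝔅` is generated by the atoms of all `P_k` together with all `μ`-null sets of `𝔅`;
`ownNull`: `𝔅` is the completion of the σ-algebra generated by the atoms of all `P_k`
(only subsets of null sets of this smaller σ-algebra are added). The second is more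
restrictive. -/
inductive Reading
  | allNull
  | ownNull

/-- The atoms of all the partitions `P_k`. A partition is given by its labelling `P k`,
its atoms are the sets `P k ⁻¹' {i}`. -/
def atoms {X : Type} (P : ℕ → X → ℕ) : Set (Set X) := {s | ∃ k i, s = P k ⁻¹' {i}}

/-- `P` generates the complete σ-algebra of the system, in either reading. -/
def Generates (R : Reading) (X : System) (P : ℕ → X.carrier → ℕ) : Prop :=
  match R with
  | .allNull => X.mspace = MeasurableSpace.generateFrom (atoms P ∪ {s | X.μ s = 0})
  | .ownNull => ∀ s, MeasurableSet[X.mspace] s →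
      ∃ t₁ t₂, MeasurableSet[MeasurableSpace.generateFrom (atoms P)] t₁ ∧
        MeasurableSet[MeasurableSpace.generateFrom (atoms P)] t₂ ∧
        t₁ ⊆ s ∧ s ⊆ t₂ ∧ X.μ (t₂ \ t₁) = 0

/-- A refining sequence of finite measurable partitions (each given by its labelling). -/
structure Refining (R : Reading) (X : System) (P : ℕ → X.carrier → ℕ) : Prop where
  finite : ∀ k, (Set.range (P k)).Finite
  measurable : ∀ k i, MeasurableSet[X.mspace] (P k ⁻¹' {i})
  refines : ∀ k x y, P (k + 1) x = P (k + 1) y → P k x = P k y
  generates : Generates R X P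

/-- First condition of scrambledness: along an increasing sequence of times of upper density `1`
the two orbits are, for every `k`, eventually in a common atom of `P_k`. -/
def Proximal {X : Type} (T : X → X) (P : ℕ → X → ℕ) (x y : X) : Prop :=
  ∃ n : ℕ → ℕ, StrictMono n ∧ upperDensity (Set.range n) = 1 ∧
    ∀ k, ∀ᶠ i in atTop, P k (T^[n i] x) = P k (T^[n i] y)

/-- The orbits are in different atoms of `P_k` along an increasing sequence of times of upper
density at least `η`. -/
def Separated {X : Type} (T : X → X) (P : ℕ → X → ℕ) (x y : X) (k : ℕ) (η : ℝ) : Prop :=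
  ∃ m : ℕ → ℕ, StrictMono m ∧ η ≤ upperDensity (Set.range m) ∧
    ∀ i, P k (T^[m i] x) ≠ P k (T^[m i] y)

/-- The four notions of chaos. -/
inductive Notion
  | chaos
  | chaosPlus
  | uniformChaos
  | uniformChaosPlus

/-- `E` is a scrambled set for `P` in the sense of the notion `c`. In the `+` versions `η` ranges
over `(0,1)`. -/
def Scrambled (c : Notion) {X : Type} (T : X → X) (P : ℕ → X → ℕ) (E : Set X) : Prop :=
  match c with
  | .chaos => ∀ x ∈ E, ∀ y ∈ E, x ≠ y → Proximal T P x y ∧
      ∃ k : ℕ, ∃ η : ℝ, 0 < η ∧ Separated T P x y k η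
  | .chaosPlus => ∀ x ∈ E, ∀ y ∈ E, x ≠ y → Proximal T P x y ∧
      ∀ η : ℝ, 0 < η → η < 1 → ∃ k : ℕ, Separated T P x y k η
  | .uniformChaos => ∃ k : ℕ, ∃ η : ℝ, 0 < η ∧ ∀ x ∈ E, ∀ y ∈ E, x ≠ y →
      Proximal T P x y ∧ Separated T P x y k η
  | .uniformChaosPlus => ∃ κ : ℝ → ℕ, ∀ x ∈ E, ∀ y ∈ E, x ≠ y →
      Proximal T P x y ∧ ∀ η : ℝ, 0 < η → η < 1 → Separated T P x y (κ η) η

/-- The system `X` has chaos `c` (for the reading `R` of refining). -/
def HasChaos (R : Reading) (c : Notion) (X : System) : Prop :=
  ∀ P : ℕ → X.carrier → ℕ, Refining R X P →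
    ∃ E : Set X.carrier, ¬ E.Countable ∧ Scrambled c X.T P E

/-- `X` is a factor of `Y` (equivalently `Y` is an extension of `X`). -/
def IsFactor (X Y : System) : Prop :=
  ∃ π : Y.carrier → X.carrier, @MeasurePreserving _ _ Y.mspace X.mspace π Y.μ X.μ ∧
    ∀ᵐ y ∂Y.μ, π (Y.T y) = X.T (π y)

/-- `X` is ergodic: every measurable invariant set is null or has a null complement. -/
def IsErgodic (X : System) : Prop :=
  ∀ s, MeasurableSet[X.mspace] s → X.T ⁻¹' s = s → X.μ s = 0 ∨ X.μ sᶜ = 0

end Pool.MPe5a66a
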