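import Pool.Agent.Lib_MP_e5a66a_an.Base

/-! Piece 6: upper density. Independent of the other pieces. -/

open MeasureTheory Filter Topology

namespace Pool.MPe5a66a

private theorem iio_finite (S : Set ℕ) (N : ℕ) : (S ∩ Set.Iio N).Finite :=
  (Set.finite_Iio N).subset Set.inter_subset_right

private theorem ncard_iio (N : ℕ) : (Set.Iio N).ncard = N := by
  have h : (Set.Iio N) = ((Finset.range N : Finset ℕ) : Set ℕ) := by
    ext n; simp
  rw [h, Set.ncard_coe_finset, Finset.card_range]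

theorem cnt_le (S : Set ℕ) (N : ℕ) : cnt S N ≤ N := by
  have h := Set.ncard_le_ncard (Set.inter_subset_right : S ∩ Set.Iio N ⊆ Set.Iio N)
    (Set.finite_Iio N)
  rw [ncard_iio] at h
  exact h

theorem cnt_mono {S S' : Set ℕ} {N : ℕ} (h : ∀ n < N, n ∈ S → n ∈ S') : cnt S N ≤ cnt S' N := by
  refine Set.ncard_le_ncard ?_ (iio_finite S' N)
  rintro n ⟨h1, h2⟩
  exact ⟨h n h2 h1, h2⟩

theorem cnt_union_le (S S' : Set ℕ) (N : ℕ) : cnt (S ∪ S') N ≤ cnt S N + cnt S' N := by
  unfold cnt
  rw [Set.union_inter_distrib_right]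
  exact Set.ncard_union_le _ _

theorem cnt_add_compl (S : Set ℕ) (N : ℕ) : cnt S N + cnt Sᶜ N = N := by
  unfold cnt
  rw [← Set.ncard_union_eq _ (iio_finite S N) (iio_finite Sᶜ N), ← Set.union_inter_distrib_right,
    Set.union_compl_self, Set.univ_inter, ncard_iio]
  refine Set.disjoint_left.mpr ?_
  rintro n ⟨h1, _⟩ ⟨h2, _⟩
  exact h2 h1

theorem upperDensity_eq (S : Set ℕ) :
    upperDensity S = limsup (fun N : ℕ => (cnt S N : ℝ) / (N : ℝ)) atTop := rfl

private theorem ratio_nonneg (S : Set ℕ) (N : ℕ) : 0 ≤ (cnt S N : ℝ) / (N : ℝ) := by positivity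

private theorem ratio_le_one (S : Set ℕ) (N : ℕ) : (cnt S N : ℝ) / (N : ℝ) ≤ 1 := by
  apply div_le_one_of_le₀ _ (Nat.cast_nonneg _)
  exact_mod_cast cnt_le S N

private theorem bdd (S : Set ℕ) :
    IsBoundedUnder (· ≤ ·) atTop (fun N : ℕ => (cnt S N : ℝ) / (N : ℝ)) :=
  isBoundedUnder_of ⟨1, ratio_le_one S⟩

private theorem cobdd (S : Set ℕ) :
    IsCoboundedUnder (· ≤ ·) atTop (fun N : ℕ => (cnt S N : ℝ) / (N : ℝ)) := by
  have h : IsBoundedUnder (· ≥ ·) atTop (fun N : ℕ => (cnt S N : ℝ) / (N : ℝ)) :=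
    isBoundedUnder_of ⟨0, ratio_nonneg S⟩
  exact h.isCoboundedUnder_flip

theorem upperDensity_nonneg (S : Set ℕ) : 0 ≤ upperDensity S := by
  rw [upperDensity_eq]
  exact le_limsup_of_frequently_le (Frequently.of_forall (ratio_nonneg S)) (bdd S)

theorem upperDensity_le_one (S : Set ℕ) : upperDensity S ≤ 1 := by
  rw [upperDensity_eq]
  exact limsup_le_of_le (cobdd S) (Eventually.of_forall (ratio_le_one S))

theorem upperDensity_mono {S S' : Set ℕ} (h : S ⊆ S') : upperDensity S ≤ upperDensity S' := by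
  rw [upperDensity_eq, upperDensity_eq]
  refine limsup_le_limsup (Eventually.of_forall fun N => ?_) (cobdd S) (bdd S')
  have h1 : cnt S N ≤ cnt S' N := cnt_mono fun n _ hn => h hn
  have h2 : (cnt S N : ℝ) ≤ cnt S' N := by exact_mod_cast h1
  exact div_le_div_of_nonneg_right h2 (Nat.cast_nonneg _)

theorem le_upperDensity {S : Set ℕ} {c : ℝ}
    (h : ∀ ε : ℝ, 0 < ε → ∃ᶠ N : ℕ in atTop, (c - ε) * N ≤ cnt S N) : c ≤ upperDensity S := by
  refine le_of_forall_pos_le_add fun ε hε => ?_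
  have h1 : c - ε ≤ upperDensity S := by
    rw [upperDensity_eq]
    refine le_limsup_of_frequently_le ?_ (bdd S)
    refine ((h ε hε).and_eventually (eventually_gt_atTop 0)).mono ?_
    rintro N ⟨h2, h3⟩
    have h4 : (0:ℝ) < N := by exact_mod_cast h3
    rw [le_div_iff₀ h4]
    exact h2
  linarith

theorem upperDensity_le {S : Set ℕ} {c : ℝ} (h : ∀ᶠ N : ℕ in atTop, (cnt S N : ℝ) ≤ c * N) :
    upperDensity S ≤ c := by
  rw [upperDensity_eq]
  refine limsup_le_of_le (cobdd S) ?_
  filter_upwards [h, eventually_gt_atTop 0] with N h1 h2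
  have h4 : (0:ℝ) < N := by exact_mod_cast h2
  rw [div_le_iff₀ h4]
  exact h1

theorem upperDensity_empty : upperDensity ∅ = 0 := by
  refine le_antisymm ?_ (upperDensity_nonneg _)
  refine upperDensity_le (Eventually.of_forall fun N => ?_)
  simp [cnt]

/-- removing finitely many elements does not change the upper density -/
theorem upperDensity_le_of_eventually {S S' : Set ℕ} (h : ∀ᶠ n in atTop, n ∈ S → n ∈ S') :
    upperDensity S ≤ upperDensity S' := by
  obtain ⟨M, hM⟩ := eventually_atTop.mp h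
  refine le_of_forall_pos_le_add fun ε hε => ?_
  have h1 : ∀ᶠ N : ℕ in atTop, (cnt S' N : ℝ) / (N : ℝ) < upperDensity S' + ε / 2 := by
    refine eventually_lt_of_limsup_lt ?_ (bdd S')
    rw [← upperDensity_eq]
    linarith
  obtain ⟨K, hK⟩ := exists_nat_gt ((M : ℝ) / (ε / 2))
  refine upperDensity_le ?_
  filter_upwards [h1, eventually_gt_atTop 0, eventually_ge_atTop K] with N h2 h3 h4
  have h5 : (0:ℝ) < N := by exact_mod_cast h3
  have h6 : (K:ℝ) ≤ N := by exact_mod_cast h4
  rw [div_lt_iff₀ h5] at h2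
  have h7 : (M:ℝ) < (ε / 2) * N := by
    rw [div_lt_iff₀ (by positivity)] at hK
    nlinarith
  have h8 : cnt S N ≤ cnt (S' ∪ Set.Iio M) N := by
    refine cnt_mono fun n _ hn => ?_
    by_cases hnM : n < M
    · exact Or.inr hnM
    · exact Or.inl (hM n (not_lt.mp hnM) hn)
  have h9 : cnt (Set.Iio M) N ≤ M := by
    have := Set.ncard_le_ncard (Set.inter_subset_left : Set.Iio M ∩ Set.Iio N ⊆ Set.Iio M)
      (Set.finite_Iio M)
    rw [ncard_iio] at this
    exact this
  have h10 : cnt S N ≤ cnt S' N + M := (h8.trans (cnt_union_le _ _ _)).trans (by omega)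
  have h11 : (cnt S N : ℝ) ≤ cnt S' N + M := by exact_mod_cast h10
  nlinarith

theorem exists_strictMono_range {S : Set ℕ} (h : 0 < upperDensity S) :
    ∃ m : ℕ → ℕ, StrictMono m ∧ Set.range m = S := by
  have hinf : (Set.ofPred (fun n => n ∈ S)).Infinite := by
    intro hfin
    have hfin' : S.Finite := hfin
    obtain ⟨M, hM⟩ := hfin'.bddAbove
    have h1 : upperDensity S ≤ upperDensity ∅ := by
      refine upperDensity_le_of_eventually ?_
      filter_upwards [eventually_gt_atTop M] with n hn hS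
      exact absurd (hM hS) (not_le.mpr hn)
    rw [upperDensity_empty] at h1
    linarith
  exact ⟨Nat.nth (fun n => n ∈ S), Nat.nth_strictMono hinf, Nat.range_nth_of_infinite hinf⟩

theorem separated_of {X : Type} {T : X → X} {P : ℕ → X → ℕ} {x y : X} {k : ℕ} {η : ℝ}
    (hη : 0 < η) (h : η ≤ upperDensity {n | P k (T^[n] x) ≠ P k (T^[n] y)}) :
    Separated T P x y k η := by
  obtain ⟨m, hm, hr⟩ := exists_strictMono_range (hη.trans_le h)
  refine ⟨m, hm, by rw [hr]; exact h, fun i => ?_⟩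
  have : m i ∈ {n | P k (T^[n] x) ≠ P k (T^[n] y)} := by
    rw [← hr]; exact Set.mem_range_self i
  exact this

private theorem exists_large {S : Set ℕ} (h : 1 ≤ upperDensity S) {c : ℝ} (hc : c < 1) (a : ℕ) :
    ∃ N, a < N ∧ c * N ≤ cnt S N := by
  have h1 : ∃ᶠ N : ℕ in atTop, c < (cnt S N : ℝ) / (N : ℝ) := by
    refine frequently_lt_of_lt_limsup (cobdd S) ?_
    rw [← upperDensity_eq]
    linarith
  obtain ⟨N, hN, h2⟩ := frequently_atTop.mp h1 (a + 1)
  refine ⟨N, hN, ?_⟩
  have h4 : (0:ℝ) < N := by exact_mod_cast (Nat.succ_pos a).trans_le hN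
  rw [lt_div_iff₀ h4] at h2
  exact h2.le

/-- a decreasing sequence of sets of upper density `1` has a pseudo-intersection of upper
density `1` -/
theorem proximal_of {X : Type} {T : X → X} {P : ℕ → X → ℕ} {x y : X}
    (href : ∀ k x y, P (k + 1) x = P (k + 1) y → P k x = P k y)
    (h : ∀ k, 1 ≤ upperDensity {n | P k (T^[n] x) = P k (T^[n] y)}) :
    Proximal T P x y := by
  set E : ℕ → Set ℕ := fun k => {n | P k (T^[n] x) = P k (T^[n] y)} with hE
  have hdec : ∀ j k, j ≤ k → E k ⊆ E j := by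
    intro j k hjk
    induction k, hjk using Nat.le_induction with
    | base => exact le_rfl
    | succ k _ ih => exact fun n hn => ih (href k _ _ hn)
  have hex : ∀ k a : ℕ, ∃ N, a < N ∧ (1 - 1 / ((k:ℝ) + 1)) * N ≤ cnt (E k) N := by
    intro k a
    refine exists_large (h k) ?_ a
    have : (0:ℝ) < 1 / ((k:ℝ) + 1) := by positivity
    linarith
  choose g hg1 hg2 using hex
  let N : ℕ → ℕ := fun k => Nat.rec 0 (fun k a => g k a) k
  have hNs : ∀ k, N (k + 1) = g k (N k) := fun k => rfl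
  have hNmono : StrictMono N := strictMono_nat_of_lt_succ fun k => by
    rw [hNs]; exact hg1 k (N k)
  let S : Set ℕ := {n | ∀ k, N k ≤ n → n ∈ E k}
  have hcnt : ∀ k : ℕ, (1 - 1 / ((k:ℝ) + 1)) * (N (k + 1) : ℝ) ≤ (cnt S (N (k + 1)) : ℝ) := by
    intro k
    have h1 : cnt (E k) (N (k + 1)) ≤ cnt S (N (k + 1)) := by
      refine cnt_mono fun n hn hnE j hj => ?_
      have : j < k + 1 := hNmono.lt_iff_lt.mp (hj.trans_lt hn)
      exact hdec j k (by omega) hnE
    have h2 : (cnt (E k) (N (k + 1)) : ℝ) ≤ cnt S (N (k + 1)) := by exact_mod_cast h1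
    exact (hg2 k (N k)).trans h2
  have hS : 1 ≤ upperDensity S := by
    refine le_upperDensity fun ε hε => frequently_atTop.mpr fun a => ?_
    obtain ⟨K, hK⟩ := exists_nat_gt (1 / ε)
    refine ⟨N (max K a + 1), ?_, ?_⟩
    · have := hNmono.le_apply (x := max K a + 1)
      omega
    · refine le_trans ?_ (hcnt (max K a))
      refine mul_le_mul_of_nonneg_right ?_ (Nat.cast_nonneg _)
      have h1 : 1 / (((max K a : ℕ) : ℝ) + 1) ≤ ε := by
        rw [div_le_iff₀ (by positivity)]
        have h2 : (K : ℝ) ≤ ((max K a : ℕ) : ℝ) := by exact_mod_cast le_max_left K a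
        have h3 : 1 < K * ε := by
          rw [div_lt_iff₀ hε] at hK
          exact hK
        nlinarith
      linarith
  obtain ⟨m, hm, hr⟩ := exists_strictMono_range (lt_of_lt_of_le one_pos hS)
  refine ⟨m, hm, ?_, fun k => ?_⟩
  · rw [hr]
    exact le_antisymm (upperDensity_le_one S) hS
  · filter_upwards [eventually_ge_atTop (N k)] with i hi
    have h1 : m i ∈ S := by rw [← hr]; exact Set.mem_range_self i
    exact h1 k (hi.trans hm.le_apply)

theorem upperDensity_of_proximal {X : Type} {T : X → X} {P : ℕ → X → ℕ} {x y : X}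
    (h : Proximal T P x y) (k : ℕ) : upperDensity {n | P k (T^[n] x) = P k (T^[n] y)} = 1 := by
  obtain ⟨n, hn, hd, hk⟩ := h
  refine le_antisymm (upperDensity_le_one _) ?_
  rw [← hd]
  refine upperDensity_le_of_eventually ?_
  obtain ⟨i0, hi0⟩ := eventually_atTop.mp (hk k)
  filter_upwards [eventually_ge_atTop (n i0)] with a ha hr
  obtain ⟨i, rfl⟩ := hr
  exact hi0 i (hn.le_iff_le.mp ha)

end Pool.MPe5a66a
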