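import Pool.Agent.Lib_MP_e5a66a_an.Erg0a

/-! Ergodicity piece 0: characters which are trivial in the last coordinate but not in the
scenery. May use everything imported. -/

open MeasureTheory Filter Topology

namespace Pool.MPe5a66a

theorem sg_coord_measurable (F : Finset (ℕ × ℕ)) (d : ℕ) :
    Measurable (fun w : WW => sg (∑ p ∈ F, w (p.1 ^^^ d, p.2))) :=
  measurable_sg.comp (Finset.measurable_sum _ fun _ _ => measurable_pi_apply _)

theorem sg_coord_measurable' (F : Finset (ℕ × ℕ)) :
    Measurable (fun w : WW => sg (∑ p ∈ F, w p)) :=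
  measurable_sg.comp (Finset.measurable_sum _ fun _ _ => measurable_pi_apply _)

theorem g_val_measurable (k : ℕ) (g : ℕ → ℝ) : Measurable (fun y : YY => g (val k y.1.1)) :=
  (measurable_of_countable g).comp ((measurable_val k).comp (measurable_fst.comp measurable_fst))

theorem setIntegral_iterate {A : Set YY} (hinv : TY ⁻¹' A = A) (n : ℕ)
    {h : YY → ℝ} (hA : MeasurableSet A) (hh : Measurable h) :
    ∫ y in A, h y ∂muY = ∫ y in A, h (TY^[n] y) ∂muY := by
  have hmp : MeasurePreserving (TY^[n]) muY muY := measurePreserving_TY.iterate n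
  have hpre : (TY^[n]) ⁻¹' A = A := by
    clear hmp
    induction n with
    | zero => rfl
    | succ n ih =>
      rw [Function.iterate_succ, Set.preimage_comp, ih, hinv]
  have h1 : ∫ y in A, h y ∂muY = ∫ y in A, h y ∂(Measure.map (TY^[n]) muY) := by
    rw [hmp.map_eq]
  rw [h1, setIntegral_map hA hh.aestronglyMeasurable hmp.measurable.aemeasurable, hpre]

theorem integral_scenery {f : WW → ℝ} (hf : Measurable f) :
    ∫ y : YY, f y.1.2 ∂muY = ∫ w : WW, f w ∂(haarP WW) := by
  have h1 : MeasurePreserving (fun y : YY => y.1.2) muY (haarP WW) := by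
    have a : MeasurePreserving (Prod.fst : YY → XX) muY muX := measurePreserving_fst
    have b : MeasurePreserving (Prod.snd : XX → WW) muX (haarP WW) := measurePreserving_snd
    exact b.comp a
  rw [← h1.map_eq, integral_map h1.measurable.aemeasurable hf.aestronglyMeasurable]

theorem integral_char_zero {A : Set YY} (hA : MeasurableSet A) (hinv : TY ⁻¹' A = A)
    (k : ℕ) (g : ℕ → ℝ) {M : ℝ} (hg : ∀ v, |g v| ≤ M) {F : Finset (ℕ × ℕ)} (hF : F.Nonempty) :
    ∫ y in A, g (val k y.1.1) * sg (∑ p ∈ F, y.1.2 p) ∂muY = 0 := by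
  set h : YY → ℝ := fun y => g (val k y.1.1) * sg (∑ p ∈ F, y.1.2 p) with hdef
  have hM0 : 0 ≤ M := (abs_nonneg _).trans (hg 0)
  have hmeas : Measurable h :=
    (g_val_measurable k g).mul
      ((sg_coord_measurable' F).comp (measurable_snd.comp measurable_fst))
  set E : ℕ → YY → ℝ := fun J y =>
    g (val k y.1.1) * sg (∑ p ∈ F, y.1.2 (p.1 ^^^ 2 ^ J, p.2)) with Edef
  have hEmeas : ∀ J, Measurable (E J) := fun J =>
    (g_val_measurable k g).mul
      ((sg_coord_measurable F (2 ^ J)).comp (measurable_snd.comp measurable_fst))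
  have hb : ∀ y, |h y| ≤ M := by
    intro y
    rw [hdef]
    simp only
    rw [abs_mul, abs_sg, mul_one]
    exact hg _
  have hEb : ∀ J y, |E J y| ≤ M := by
    intro J y
    rw [Edef]
    simp only
    rw [abs_mul, abs_sg, mul_one]
    exact hg _
  have hint : ∀ (f : YY → ℝ), Measurable f → (∀ y, |f y| ≤ M) →
      Integrable f (muY.restrict A) := by
    intro f hf hfb
    exact Integrable.of_bound hf.aestronglyMeasurable M (Eventually.of_forall hfb)
  -- the set integrals of `E J` tend to the set integral of `h`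
  have hae : ∀ᵐ y ∂muY, y.1.1 ∈ GG := by
    have a : MeasurePreserving (Prod.fst : YY → XX) muY muX := measurePreserving_fst
    exact a.quasiMeasurePreserving.ae ae_mem_GG'
  have hlim : Tendsto (fun J => ∫ y in A, E J y ∂muY) atTop (𝓝 (∫ y in A, h y ∂muY)) := by
    have h0 : Tendsto (fun J => ∫ y in A, (E J y - h (TY^[2 ^ cPos J] y)) ∂muY) atTop
        (𝓝 (∫ y in A, (0 : ℝ) ∂muY)) := by
      apply tendsto_integral_of_dominated_convergence (fun _ => M + M)
      · intro J
        exact ((hEmeas J).sub
          (hmeas.comp (measurePreserving_TY.iterate _).measurable)).aestronglyMeasurable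
      · exact integrable_const _
      · intro J
        filter_upwards with y
        rw [Real.norm_eq_abs]
        exact (abs_sub _ _).trans (add_le_add (hEb _ _) (hb _))
      · filter_upwards [ae_restrict_of_ae hae] with y hy
        apply tendsto_const_nhds.congr'
        filter_upwards [del_pow hy, eventually_ge_atTop k] with J hJ hkJ
        have h1 : (TY^[2 ^ cPos J] y).1 =
            (y.1.1 + ((2 ^ cPos J : ℕ) : ℤ_[2]), fun p => y.1.2 (p.1 ^^^ 2 ^ J, p.2)) := by
          rw [TY_iterate_fst, TX_iterate hy, hJ]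
        have h2 : val k (y.1.1 + ((2 ^ cPos J : ℕ) : ℤ_[2])) = val k y.1.1 := by
          rw [val_add_nat]
          have : (2 ^ k) ∣ 2 ^ cPos J := pow_dvd_pow 2 (hkJ.trans (le_cPos J))
          obtain ⟨c, hc⟩ := this
          rw [hc, Nat.add_mul_mod_self_left, Nat.mod_eq_of_lt (val_lt _ _)]
        rw [hdef, Edef]
        simp only
        rw [h1]
        simp only
        rw [h2, sub_self]
    have h3 : ∀ J, ∫ y in A, E J y ∂muY =
        ∫ y in A, (E J y - h (TY^[2 ^ cPos J] y)) ∂muY + ∫ y in A, h y ∂muY := by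
      intro J
      rw [setIntegral_iterate hinv (2 ^ cPos J) hA hmeas, ← integral_add]
      · congr 1
        funext y
        ring
      · apply Integrable.sub
        · exact hint _ (hEmeas J) (hEb J)
        · exact hint _ (hmeas.comp (measurePreserving_TY.iterate _).measurable) (fun y => hb _)
      · exact hint _ (hmeas.comp (measurePreserving_TY.iterate _).measurable) (fun y => hb _)
    have h4 := h0.add_const (∫ y in A, h y ∂muY)
    rw [integral_zero, zero_add] at h4
    exact h4.congr (fun J => (h3 J).symm)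
  -- the bound for the averages
  obtain ⟨N, hN⟩ : ∃ N : ℕ, ∀ p ∈ F, p.1 < 2 ^ N := by
    refine ⟨F.sup Prod.fst, fun p hp => ?_⟩
    exact lt_of_le_of_lt (Finset.le_sup (f := Prod.fst) hp) Nat.lt_two_pow_self
  have hbound : ∀ K : ℕ, 0 < K →
      |∑ i ∈ Finset.range K, ∫ y in A, E (N + i) y ∂muY| ≤ M * Real.sqrt K := by
    intro K hK
    have e1 : ∑ i ∈ Finset.range K, ∫ y in A, E (N + i) y ∂muY =
        ∫ y in A, g (val k y.1.1) *
          ∑ J ∈ Finset.Ico N (N + K), sg (∑ p ∈ F, y.1.2 (p.1 ^^^ 2 ^ J, p.2)) ∂muY := by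
      rw [← integral_finsetSum _ (fun i _ => hint _ (hEmeas _) (hEb _))]
      congr 1
      funext y
      rw [Finset.sum_Ico_eq_sum_range, Nat.add_sub_cancel_left, Finset.mul_sum]
    set S : WW → ℝ := fun w =>
      |∑ J ∈ Finset.Ico N (N + K), sg (∑ p ∈ F, w (p.1 ^^^ 2 ^ J, p.2))| with Sdef
    have hSm : Measurable S := by
      have : Measurable (fun w : WW =>
          ∑ J ∈ Finset.Ico N (N + K), sg (∑ p ∈ F, w (p.1 ^^^ 2 ^ J, p.2))) :=
        Finset.measurable_sum _ fun J _ => sg_coord_measurable F (2 ^ J)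
      exact this.abs
    have hSb : ∀ w, |S w| ≤ K := by
      intro w
      rw [Sdef]
      simp only
      rw [abs_abs]
      refine (Finset.abs_sum_le_sum_abs _ _).trans ?_
      simp [abs_sg]
    rw [e1, ← Real.norm_eq_abs]
    refine (norm_integral_le_integral_norm _).trans ?_
    have hSi : Integrable (fun y : YY => M * S y.1.2) muY := by
      apply Integrable.const_mul
      exact Integrable.of_bound
        (hSm.comp (measurable_snd.comp measurable_fst)).aestronglyMeasurable (K : ℝ)
        (Eventually.of_forall fun y => hSb _)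
    calc ∫ y in A, ‖g (val k y.1.1) *
          ∑ J ∈ Finset.Ico N (N + K), sg (∑ p ∈ F, y.1.2 (p.1 ^^^ 2 ^ J, p.2))‖ ∂muY
        ≤ ∫ y in A, M * S y.1.2 ∂muY := by
          apply integral_mono_of_nonneg
          · exact Eventually.of_forall fun y => norm_nonneg _
          · exact hSi.integrableOn
          · filter_upwards with y
            rw [Real.norm_eq_abs, abs_mul]
            exact mul_le_mul_of_nonneg_right (hg _) (abs_nonneg _)
      _ ≤ ∫ y, M * S y.1.2 ∂muY := by
          apply setIntegral_le_integral hSi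
          filter_upwards with y
          exact mul_nonneg hM0 (abs_nonneg _)
      _ = M * ∫ w, S w ∂(haarP WW) := by
          rw [integral_const_mul, integral_scenery hSm]
      _ ≤ M * Real.sqrt K := mul_le_mul_of_nonneg_left (mean_translates hF hK hN) hM0
  -- conclusion with Cesaro means
  have hshift : Tendsto (fun i => ∫ y in A, E (N + i) y ∂muY) atTop
      (𝓝 (∫ y in A, h y ∂muY)) := by
    have := hlim.comp (tendsto_add_atTop_nat N)
    refine this.congr fun i => ?_
    simp only [Function.comp]
    rw [Nat.add_comm]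
  have hces := hshift.cesaro
  have hzero : Tendsto (fun K : ℕ => (K⁻¹ : ℝ) * ∑ i ∈ Finset.range K,
      ∫ y in A, E (N + i) y ∂muY) atTop (𝓝 0) := by
    have hub : Tendsto (fun K : ℕ => M * (Real.sqrt K)⁻¹) atTop (𝓝 0) := by
      have : Tendsto (fun K : ℕ => (Real.sqrt K)⁻¹) atTop (𝓝 0) :=
        tendsto_inv_atTop_zero.comp (Real.tendsto_sqrt_atTop.comp tendsto_natCast_atTop_atTop)
      simpa using this.const_mul M
    apply squeeze_zero_norm' _ hub
    filter_upwards [eventually_gt_atTop 0] with K hK
    have hKr : (0 : ℝ) < K := by exact_mod_cast hK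
    rw [norm_mul, Real.norm_eq_abs, Real.norm_eq_abs, abs_inv, abs_of_pos hKr]
    have hs : 0 < Real.sqrt K := Real.sqrt_pos.2 hKr
    have hss : Real.sqrt K * Real.sqrt K = K := Real.mul_self_sqrt hKr.le
    calc (K : ℝ)⁻¹ * |∑ i ∈ Finset.range K, ∫ y in A, E (N + i) y ∂muY|
        ≤ (K : ℝ)⁻¹ * (M * Real.sqrt K) :=
          mul_le_mul_of_nonneg_left (hbound K hK) (inv_nonneg.2 hKr.le)
      _ = M * (Real.sqrt K)⁻¹ := by
          nth_rewrite 1 [← hss]
          field_simp
  exact tendsto_nhds_unique hces hzero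

end Pool.MPe5a66a
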