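import Pool.Agent.Lib_MP_e5a66a_an.ErgDefs

/-! Ergodicity piece 0a: translates of a character by powers of two. -/

open MeasureTheory Filter Topology

namespace Pool.MPe5a66a

/-- adding `2^(cPos J)` shifts the scenery by `2^J` -/
theorem del_pow {z : ℤ_[2]} (hz : z ∈ GG) :
    ∀ᶠ J in atTop, del (2 ^ cPos J) z = 2 ^ J := by
  have h1 : ∀ᶠ J in atTop, ∀ n : ℕ, n < 2 ^ sPos (J + 1) → ∀ i, cPos (J + 1) ≤ i →
      bit i (z + n) = bit i z := (tendsto_add_atTop_nat 1).eventually (GG_spec hz)
  filter_upwards [h1] with J hJ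
  apply Nat.eq_of_testBit_eq
  intro i
  rw [del_testBit hz, Nat.testBit_two_pow]
  rcases lt_trichotomy i J with hi | hi | hi
  · have hc : cPos i < cPos J := cPos_strictMono hi
    have e1 : bit (cPos i) (z + ((2 ^ cPos J : ℕ) : ℤ_[2])) = bit (cPos i) z := by
      rw [bit_eq_testBit hc, bit_eq_testBit hc, val_add_nat, Nat.add_mod_right,
        Nat.mod_eq_of_lt (val_lt _ _)]
    rw [e1]
    have : ¬ J = i := by omega
    simp [this]
  · subst hi
    have e1 : bit (cPos i) (z + ((2 ^ cPos i : ℕ) : ℤ_[2])) = !bit (cPos i) z := by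
      rw [bit_eq_testBit (Nat.lt_succ_self (cPos i)), bit_eq_testBit (Nat.lt_succ_self (cPos i)),
        val_add_nat, Nat.testBit_mod_two_pow, add_comm, Nat.testBit_two_pow_add_eq]
      simp
    rw [e1]
    cases bit (cPos i) z <;> simp
  · have hc : cPos (J + 1) ≤ cPos i := cPos_strictMono.monotone hi
    have hn : 2 ^ cPos J < 2 ^ sPos (J + 1) := by
      apply Nat.pow_lt_pow_right (by norm_num)
      have h2 : cPos J < aPos (J + 1) := cPos_lt_aPos (Nat.lt_succ_self J)
      have h3 := aPos_lt_sPos (J + 1)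
      omega
    rw [hJ _ hn _ hc]
    have : ¬ J = i := by omega
    simp [this]

theorem sg_add_one (a : ZMod 2) : sg (a + 1) = -sg a := by
  rw [sg_add, sg_one]; ring

/-- orthogonality of translates of a character by different powers of two -/
theorem orthogonal_translates {F : Finset (ℕ × ℕ)} (hF : F.Nonempty) {J J' : ℕ} (hJ : J ≠ J')
    (h1 : ∀ p ∈ F, p.1 < 2 ^ J) (h2 : ∀ p ∈ F, p.1 < 2 ^ J') :
    ∫ w : WW, sg (∑ p ∈ F, w (p.1 ^^^ 2 ^ J, p.2)) * sg (∑ p ∈ F, w (p.1 ^^^ 2 ^ J', p.2))
      ∂(haarP WW) = 0 := by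
  classical
  obtain ⟨p₀, hp₀⟩ := hF
  set e : WW := Pi.single (p₀.1 ^^^ 2 ^ J, p₀.2) 1 with he
  set f : WW → ℝ := fun w => sg (∑ p ∈ F, w (p.1 ^^^ 2 ^ J, p.2)) *
    sg (∑ p ∈ F, w (p.1 ^^^ 2 ^ J', p.2)) with hf
  have e1 : ∑ p ∈ F, e (p.1 ^^^ 2 ^ J, p.2) = 1 := by
    rw [Finset.sum_eq_single p₀]
    · rw [he, Pi.single_eq_same]
    · intro p _ hp
      rw [he, Pi.single_eq_of_ne]
      intro h
      apply hp
      rw [Prod.mk.injEq] at h
      have h3 : p.1 = p₀.1 := by
        have h4 := congrArg (fun a => a ^^^ 2 ^ J) h.1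
        simp only [Nat.xor_assoc, Nat.xor_self, Nat.xor_zero] at h4
        exact h4
      exact Prod.ext h3 h.2
    · intro h; exact absurd hp₀ h
  have e2 : ∑ p ∈ F, e (p.1 ^^^ 2 ^ J', p.2) = 0 := by
    refine Finset.sum_eq_zero fun p hp => ?_
    rw [he, Pi.single_eq_of_ne]
    intro h
    rw [Prod.mk.injEq] at h
    have h3 := congrArg (fun a => a.testBit J) h.1
    simp only [Nat.testBit_xor, Nat.testBit_lt_two_pow (h1 p hp),
      Nat.testBit_lt_two_pow (h1 p₀ hp₀), Nat.testBit_two_pow] at h3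
    have h4 : ¬ J' = J := fun h => hJ h.symm
    simp [h4] at h3
  have hneg : ∀ w, f (e + w) = -f w := by
    intro w
    simp only [hf, Pi.add_apply, Finset.sum_add_distrib, e1, e2]
    rw [zero_add, add_comm 1, sg_add_one]
    ring
  have h3 : ∫ w, f (e + w) ∂(haarP WW) = ∫ w, f w ∂(haarP WW) :=
    integral_add_left_eq_self f e
  simp only [hneg, integral_neg] at h3
  have h4 : ∫ w, f w ∂(haarP WW) = 0 := by linarith
  exact h4

/-- the mean of `K` translates is small in the mean -/
theorem mean_translates {F : Finset (ℕ × ℕ)} (hF : F.Nonempty) {M K : ℕ} (hK : 0 < K)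
    (h1 : ∀ p ∈ F, p.1 < 2 ^ M) :
    ∫ w : WW, |∑ J ∈ Finset.Ico M (M + K), sg (∑ p ∈ F, w (p.1 ^^^ 2 ^ J, p.2))|
      ∂(haarP WW) ≤ Real.sqrt K := by
  set s : ℕ → WW → ℝ := fun J w => sg (∑ p ∈ F, w (p.1 ^^^ 2 ^ J, p.2)) with hs
  have hsm : ∀ J, Measurable (s J) := by
    intro J
    refine measurable_sg.comp ?_
    exact Finset.measurable_sum _ fun p _ => measurable_pi_apply _
  have hsb : ∀ J w, |s J w| = 1 := fun J w => abs_sg _
  have hint2 : ∀ J J', Integrable (fun w => s J w * s J' w) (haarP WW) := by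
    intro J J'
    refine Integrable.of_bound ((hsm J).mul (hsm J')).aestronglyMeasurable 1
      (Filter.Eventually.of_forall fun w => ?_)
    rw [Real.norm_eq_abs, abs_mul, hsb, hsb, one_mul]
  have hint1 : ∀ J, Integrable (s J) (haarP WW) := by
    intro J
    refine Integrable.of_bound (hsm J).aestronglyMeasurable 1
      (Filter.Eventually.of_forall fun w => ?_)
    rw [Real.norm_eq_abs, hsb]
  set f : WW → ℝ := fun w => ∑ J ∈ Finset.Ico M (M + K), s J w with hf
  have hf1 : Integrable f (haarP WW) := integrable_finsetSum _ fun J _ => hint1 J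
  have hff : ∀ w, f w ^ 2 = ∑ J ∈ Finset.Ico M (M + K), ∑ J' ∈ Finset.Ico M (M + K),
      s J w * s J' w := by
    intro w
    rw [sq, hf, Finset.sum_mul_sum]
  have hf2 : Integrable (fun w => f w ^ 2) (haarP WW) := by
    simp only [hff]
    exact integrable_finsetSum _ fun J _ => integrable_finsetSum _ fun J' _ => hint2 J J'
  have hsq : ∫ w, f w ^ 2 ∂(haarP WW) = K := by
    simp only [hff]
    rw [integral_finsetSum _ fun J _ => integrable_finsetSum _ fun J' _ => hint2 J J']
    have h2 : ∀ J ∈ Finset.Ico M (M + K), ∫ w, ∑ J' ∈ Finset.Ico M (M + K), s J w * s J' w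
        ∂(haarP WW) = 1 := by
      intro J hJ
      rw [integral_finsetSum _ fun J' _ => hint2 J J', Finset.sum_eq_single J]
      · have : ∀ w, s J w * s J w = 1 := fun w => sg_mul_self _
        simp [this]
      · intro J' hJ' hne
        rw [Finset.mem_Ico] at hJ hJ'
        refine orthogonal_translates hF (Ne.symm hne) ?_ ?_
        · intro p hp
          exact (h1 p hp).trans_le (Nat.pow_le_pow_right (by norm_num) hJ.1)
        · intro p hp
          exact (h1 p hp).trans_le (Nat.pow_le_pow_right (by norm_num) hJ'.1)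
      · intro h; exact absurd hJ h
    rw [Finset.sum_congr rfl h2]
    simp
  have hKpos : (0 : ℝ) < Real.sqrt K := Real.sqrt_pos.mpr (by exact_mod_cast hK)
  have hpt : ∀ w, |f w| ≤ (f w ^ 2 / Real.sqrt K + Real.sqrt K) / 2 := by
    intro w
    rw [← sq_abs (f w), div_add' _ _ _ hKpos.ne', div_div, le_div_iff₀ (by positivity)]
    nlinarith [sq_nonneg (|f w| - Real.sqrt K)]
  calc ∫ w, |f w| ∂(haarP WW)
      ≤ ∫ w, (f w ^ 2 / Real.sqrt K + Real.sqrt K) / 2 ∂(haarP WW) := by
        refine integral_mono hf1.abs ?_ hpt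
        exact ((hf2.div_const _).add (integrable_const _)).div_const _
    _ = Real.sqrt K := by
        rw [integral_div, integral_add (hf2.div_const _) (integrable_const _), integral_div, hsq]
        simp only [integral_const, probReal_univ, smul_eq_mul, one_mul]
        rw [Real.div_sqrt]
        ring

end Pool.MPe5a66a
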