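import Pool.Agent.Lib_MP_e5a66a_an.Cocycle

/-! Piece 5: the key computation: flipping one digit changes the difference of the cocycles.
May use `Bits.lean`, `Haar.lean`, `Sys.lean`, `Cocycle.lean`. -/

open MeasureTheory Filter Topology

namespace Pool.MPe5a66a

theorem flip_pos {r η j : ℕ} (hη : η < 2 ^ (r + 1)) (hj : j ≤ r) :
    aPos r + (η + 2 ^ (r + 1) * j) + 3 < sPos r := by
  have h1 : 2 ^ (r + 1) * j + 2 ^ (r + 1) ≤ 2 ^ (r + 1) * (r + 1) := by
    rw [← Nat.mul_succ]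
    exact Nat.mul_le_mul_left _ (by omega)
  unfold sPos
  omega

/-- the steering digits do not see a change of a digit in a block -/
theorem gam_flip {P n : ℕ} {z : ℤ_[2]} (hP : ∀ J, cPos J ≠ P)
    (hb : ∀ i, i ≠ P → bit i (z + (n + 2 ^ P : ℕ)) = bit i (z + n)) (R : ℕ) :
    gam R (z + (n + 2 ^ P : ℕ)) = gam R (z + n) := by
  refine Nat.eq_of_testBit_eq fun J => ?_
  rw [gam_testBit, gam_testBit, hb _ (hP J)]

theorem del_flip {P n : ℕ} {z : ℤ_[2]} (hz : z ∈ GG) (hP : ∀ J, cPos J ≠ P)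
    (hb : ∀ i, i ≠ P → bit i (z + (n + 2 ^ P : ℕ)) = bit i (z + n)) :
    del (n + 2 ^ P) z = del n z := by
  refine Nat.eq_of_testBit_eq fun J => ?_
  rw [del_testBit hz, del_testBit hz, hb _ (hP J)]

theorem gam_xor_del {n K : ℕ} {z : ℤ_[2]} (hz : z ∈ GG) (hd : del n z < 2 ^ K) :
    gam K z ^^^ (gam K (z + n) ^^^ del n z) = 0 := by
  refine Nat.eq_of_testBit_eq fun J => ?_
  rw [Nat.testBit_xor, Nat.testBit_xor, gam_testBit, gam_testBit, del_testBit hz]
  by_cases hJ : J < K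
  · simp only [hJ, decide_true, Bool.true_and, Nat.zero_testBit]
    cases bit (cPos J) z <;> cases bit (cPos J) (z + n) <;> rfl
  · have h1 := Nat.testBit_eq_false_of_lt (lt_of_lt_of_le hd
      (Nat.pow_le_pow_right (by norm_num) (not_lt.mp hJ)))
    rw [del_testBit hz] at h1
    rw [h1]
    simp [hJ]

theorem flip_Psi {z : ℤ_[2]} (hz : z ∈ GG) (η₁ j₀ : ℕ) :
    ∀ᶠ J in atTop, ∃ P, aPos J ≤ P ∧ P + 3 < sPos J ∧
      ∀ n : ℕ, n + 2 ^ P < 2 ^ sPos (J + 1) → bit P (z + n) = false → ∀ R, J < R → ∀ v : WW,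
        Psi R (TX^[n + 2 ^ P] (z, v)) = Psi R (TX^[n] (z, v)) + v (η₁, j₀) := by
  have h1 := (tendsto_add_atTop_nat 1).eventually (del_lt hz)
  filter_upwards [h1, eventually_ge_atTop η₁, eventually_ge_atTop j₀] with J hJ hη hj
  have hη1 : η₁ < 2 ^ (J + 1) := lt_of_le_of_lt hη (lt_trans (Nat.lt_succ_self J) Nat.lt_two_pow_self)
  have hη0 : η₁ ^^^ gam (J + 1) z < 2 ^ (J + 1) := Nat.xor_lt_two_pow hη1 (gam_lt _ _)
  set η₀ := η₁ ^^^ gam (J + 1) z with hdef
  have hpos := flip_pos hη0 hj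
  refine ⟨aPos J + (η₀ + 2 ^ (J + 1) * j₀), Nat.le_add_right _ _, hpos, ?_⟩
  set P := aPos J + (η₀ + 2 ^ (J + 1) * j₀) with hP
  intro n hn hb R hR v
  have hcast : z + ((n + 2 ^ P : ℕ) : ℤ_[2]) = (z + n) + ((2 ^ P : ℕ) : ℤ_[2]) := by
    push_cast
    ring
  obtain ⟨hb1, hb2⟩ := bit_flip hb
  rw [← hcast] at hb1
  have hb3 : ∀ i, i ≠ P → bit i (z + (n + 2 ^ P : ℕ)) = bit i (z + n) := fun i hi => by
    rw [hcast]; exact hb2 i hi
  have haP : aPos J ≤ P := Nat.le_add_right _ _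
  have hsP : P < sPos J := by omega
  have hPc : ∀ K, cPos K ≠ P := fun K => (ne_cPos haP hsP K).symm
  have hgam := gam_flip hPc hb3
  have hdel := del_flip hz hPc hb3
  have hdlt : del n z < 2 ^ (J + 1) := hJ n (by
    have : 0 < 2 ^ P := by positivity
    omega)
  have hkey : (η₀ ^^^ gam (J + 1) (z + n)) ^^^ del n z = η₁ := by
    rw [hdef, Nat.xor_assoc, Nat.xor_assoc, ← Nat.xor_assoc (gam (J + 1) z),
      Nat.xor_assoc (gam (J + 1) z), gam_xor_del hz hdlt, Nat.xor_zero]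
  have hphi : ∀ r, phi r (TX^[n + 2 ^ P] (z, v)) =
      phi r (TX^[n] (z, v)) + if r = J then v (η₁, j₀) else 0 := by
    intro r
    rw [phi_iterate (x := (z, v)) hz, phi_iterate (x := (z, v)) hz]
    simp only [hgam, hdel]
    by_cases hr : r = J
    · subst hr
      rw [if_pos rfl]
      have hmem : η₀ ∈ Finset.range (2 ^ (r + 1)) := Finset.mem_range.mpr hη0
      have hmem2 : j₀ ∈ Finset.range (r + 1) := Finset.mem_range.mpr (by omega)
      rw [← Finset.add_sum_erase _ _ hmem, ← Finset.add_sum_erase _ _ hmem,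
        ← Finset.add_sum_erase _ _ hmem2, ← Finset.add_sum_erase _ _ hmem2]
      have e1 : bit (aPos r + (η₀ + 2 ^ (r + 1) * j₀)) (z + n) = false := hb
      have e2 : bit (aPos r + (η₀ + 2 ^ (r + 1) * j₀)) (z + (n + 2 ^ P : ℕ)) = true := hb1
      have e3 : ∀ j ∈ (Finset.range (r + 1)).erase j₀,
          bit (aPos r + (η₀ + 2 ^ (r + 1) * j)) (z + (n + 2 ^ P : ℕ)) =
            bit (aPos r + (η₀ + 2 ^ (r + 1) * j)) (z + n) := by
        intro j hj
        refine hb3 _ fun h => ?_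
        have h2 : 2 ^ (r + 1) * j = 2 ^ (r + 1) * j₀ := by omega
        exact (Finset.mem_erase.mp hj).1 (Nat.eq_of_mul_eq_mul_left (by positivity) h2)
      have e4 : ∀ η ∈ (Finset.range (2 ^ (r + 1))).erase η₀, ∀ j,
          bit (aPos r + (η + 2 ^ (r + 1) * j)) (z + (n + 2 ^ P : ℕ)) =
            bit (aPos r + (η + 2 ^ (r + 1) * j)) (z + n) := by
        intro η hη j
        refine hb3 _ fun h => ?_
        have h2 : η + 2 ^ (r + 1) * j = η₀ + 2 ^ (r + 1) * j₀ := by omega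
        have h3 : (η + 2 ^ (r + 1) * j) % 2 ^ (r + 1) = (η₀ + 2 ^ (r + 1) * j₀) % 2 ^ (r + 1) := by
          rw [h2]
        rw [Nat.add_mul_mod_self_left, Nat.add_mul_mod_self_left, Nat.mod_eq_of_lt hη0,
          Nat.mod_eq_of_lt (Finset.mem_range.mp (Finset.mem_erase.mp hη).2)] at h3
        exact (Finset.mem_erase.mp hη).1 h3
      rw [e1, e2]
      have e5 : ∑ x ∈ (Finset.range (r + 1)).erase j₀,
          v ((η₀ ^^^ gam (r + 1) (z + n)) ^^^ del n z, x) *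
            (if bit (aPos r + (η₀ + 2 ^ (r + 1) * x)) (z + (n + 2 ^ P : ℕ)) = true then (1 : ZMod 2)
              else 0) =
          ∑ x ∈ (Finset.range (r + 1)).erase j₀,
          v ((η₀ ^^^ gam (r + 1) (z + n)) ^^^ del n z, x) *
            (if bit (aPos r + (η₀ + 2 ^ (r + 1) * x)) (z + n) = true then (1 : ZMod 2)
              else 0) := Finset.sum_congr rfl fun j hj => by rw [e3 j hj]
      have e6 : ∑ η ∈ (Finset.range (2 ^ (r + 1))).erase η₀, ∑ j ∈ Finset.range (r + 1),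
          v ((η ^^^ gam (r + 1) (z + n)) ^^^ del n z, j) *
            (if bit (aPos r + (η + 2 ^ (r + 1) * j)) (z + (n + 2 ^ P : ℕ)) = true then (1 : ZMod 2)
              else 0) =
          ∑ η ∈ (Finset.range (2 ^ (r + 1))).erase η₀, ∑ j ∈ Finset.range (r + 1),
          v ((η ^^^ gam (r + 1) (z + n)) ^^^ del n z, j) *
            (if bit (aPos r + (η + 2 ^ (r + 1) * j)) (z + n) = true then (1 : ZMod 2)
              else 0) :=
        Finset.sum_congr rfl fun η hη => Finset.sum_congr rfl fun j _ => by rw [e4 η hη j]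
      rw [e5, e6, hkey]
      simp only [if_true, Bool.false_eq_true, if_false, mul_one, mul_zero]
      ring
    · rw [if_neg hr, add_zero]
      refine Finset.sum_congr rfl fun η hη => Finset.sum_congr rfl fun j hj => ?_
      rw [hb3]
      have h2 := flip_pos (Finset.mem_range.mp hη) (Nat.lt_succ_iff.mp (Finset.mem_range.mp hj))
      exact ne_of_blocks hr (Nat.le_add_right _ _) (by omega) haP hsP
  unfold Psi
  rw [Finset.sum_congr rfl fun r _ => hphi r, Finset.sum_add_distrib, Finset.sum_ite_eq',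
    if_pos (Finset.mem_range.mpr hR)]

theorem zmod2_sub {a b : ZMod 2} (h : a ≠ b) : a - b = 1 := by
  revert a b; decide

theorem flip_step {z : ℤ_[2]} (hz : z ∈ GG) {w w' : WW} (hne : w ≠ w') :
    ∀ᶠ J in atTop, ∃ P, aPos J ≤ P ∧ P + 3 < sPos J ∧
      ∀ n : ℕ, n + 2 ^ P < 2 ^ sPos (J + 1) → bit P (z + n) = false → ∀ R, J < R →
        Psi R (TX^[n + 2 ^ P] (z, w)) - Psi R (TX^[n + 2 ^ P] (z, w')) =
          Psi R (TX^[n] (z, w)) - Psi R (TX^[n] (z, w')) + 1 := by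
  obtain ⟨⟨η₁, j₀⟩, hp⟩ := Function.ne_iff.mp hne
  filter_upwards [flip_Psi hz η₁ j₀] with J hJ
  obtain ⟨P, h1, h2, h3⟩ := hJ
  refine ⟨P, h1, h2, fun n hn hb R hR => ?_⟩
  rw [h3 n hn hb R hR w, h3 n hn hb R hR w']
  linear_combination zmod2_sub hp

/-- the difference of the last coordinates changes when the digit `P` is flipped from `0` to `1` -/
theorem flip_TY {z : ℤ_[2]} (hz : z ∈ GG) {w w' : WW} (hne : w ≠ w') (u u' : ZMod 2) :
    ∀ᶠ J in atTop, ∃ P, P + 3 < sPos J ∧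
      ∀ n : ℕ, n + 2 ^ P < 2 ^ sPos (J + 1) → bit P (z + n) = false →
        (TY^[n + 2 ^ P] ((z, w), u)).2 - (TY^[n + 2 ^ P] ((z, w'), u')).2 =
          (TY^[n] ((z, w), u)).2 - (TY^[n] ((z, w'), u')).2 + 1 := by
  filter_upwards [flip_step hz hne] with J hJ
  obtain ⟨P, h1, h2, h3⟩ := hJ
  refine ⟨P, h2, fun n hn hb => ?_⟩
  obtain ⟨R, ⟨⟨⟨hR1, hR2⟩, hR3⟩, hR4⟩, hR5⟩ :=
    ((((TY_iterate_snd (y := ((z, w), u)) hz n).and
      (TY_iterate_snd (y := ((z, w'), u')) hz n)).and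
      (TY_iterate_snd (y := ((z, w), u)) hz (n + 2 ^ P))).and
      (TY_iterate_snd (y := ((z, w'), u')) hz (n + 2 ^ P))).and
      (eventually_gt_atTop J) |>.exists
  rw [hR1, hR2, hR3, hR4]
  linear_combination h3 n hn hb R hR5

theorem bit_alt {P : ℕ} {z : ℤ_[2]} (h : bit P z = true) :
    bit P (z + (2 ^ P : ℕ)) = false := by
  have h1 := val_lt (P + 1) z
  have hp : 2 ^ (P + 1) = 2 * 2 ^ P := by rw [pow_succ]; ring
  have h2 : 2 ^ P ≤ val (P + 1) z := Nat.ge_two_pow_of_testBit h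
  have h3 : val (P + 1) (z + (2 ^ P : ℕ)) = val (P + 1) z - 2 ^ P := by
    rw [val_add_nat]
    have h4 : val (P + 1) z + 2 ^ P = (val (P + 1) z - 2 ^ P) + 2 ^ (P + 1) := by omega
    rw [h4, Nat.add_mod_right, Nat.mod_eq_of_lt (by omega)]
  unfold bit
  rw [h3]
  exact Nat.testBit_eq_false_of_lt (by omega)

theorem cnt_three {S : Set ℕ} {N Q : ℕ}
    (h : ∀ n, n + 2 * Q < N → n ∈ S ∨ n + Q ∈ S ∨ n + 2 * Q ∈ S) : N ≤ 3 * cnt S N + 2 * Q := by
  have hfin : (S ∩ Set.Iio N).Finite := (Set.finite_Iio N).subset Set.inter_subset_right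
  have hsub : Set.Iio (N - 2 * Q) ⊆ (S ∩ Set.Iio N) ∪ (((fun m => m - Q) '' (S ∩ Set.Iio N)) ∪
      ((fun m => m - 2 * Q) '' (S ∩ Set.Iio N))) := by
    intro n hn
    have hn' : n < N - 2 * Q := hn
    rcases h n (by omega) with h1 | h1 | h1
    · exact Or.inl ⟨h1, show n < N by omega⟩
    · exact Or.inr (Or.inl ⟨n + Q, ⟨h1, show n + Q < N by omega⟩, by simp⟩)
    · exact Or.inr (Or.inr ⟨n + 2 * Q, ⟨h1, show n + 2 * Q < N by omega⟩, by simp⟩)
  have h1 := Set.ncard_le_ncard hsub (hfin.union ((hfin.image _).union (hfin.image _)))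
  have h2 := Set.ncard_union_le (S ∩ Set.Iio N) (((fun m => m - Q) '' (S ∩ Set.Iio N)) ∪
      ((fun m => m - 2 * Q) '' (S ∩ Set.Iio N)))
  have h3 := Set.ncard_union_le ((fun m => m - Q) '' (S ∩ Set.Iio N))
      ((fun m => m - 2 * Q) '' (S ∩ Set.Iio N))
  have h4 := Set.ncard_image_le (f := fun m => m - Q) hfin
  have h5 := Set.ncard_image_le (f := fun m => m - 2 * Q) hfin
  have h6 : (Set.Iio (N - 2 * Q)).ncard = N - 2 * Q := by
    rw [Set.ncard_eq_toFinset_card' (Set.Iio (N - 2 * Q))]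
    simp
  unfold cnt
  omega

theorem count_ne {z : ℤ_[2]} (hz : z ∈ GG) {w w' : WW} (hne : w ≠ w') (u u' : ZMod 2) :
    ∀ᶠ N : ℕ in atTop, (N : ℝ) / 4 ≤
      cnt {n | (TY^[n] ((z, w), u)).2 ≠ (TY^[n] ((z, w'), u')).2} N := by
  obtain ⟨J₀, hJ₀⟩ := eventually_atTop.mp (flip_TY hz hne u u')
  set S : Set ℕ := {n | (TY^[n] ((z, w), u)).2 ≠ (TY^[n] ((z, w'), u')).2} with hS
  filter_upwards [eventually_ge_atTop (2 ^ sPos J₀)] with N hN
  have hex : ∃ K, N < 2 ^ sPos K := ⟨N, lt_of_lt_of_le Nat.lt_two_pow_self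
    (Nat.pow_le_pow_right (by norm_num) (sPos_mono.le_apply))⟩
  classical
  obtain ⟨J, hJ1, hJ2, hJ3⟩ : ∃ J, J₀ ≤ J ∧ 2 ^ sPos J ≤ N ∧ N < 2 ^ sPos (J + 1) := by
    have hK := Nat.find_spec hex
    have hKgt : J₀ < Nat.find hex := by
      by_contra hcon
      have h1 : 2 ^ sPos (Nat.find hex) ≤ 2 ^ sPos J₀ :=
        Nat.pow_le_pow_right (by norm_num) (sPos_mono.monotone (not_lt.mp hcon))
      omega
    refine ⟨Nat.find hex - 1, by omega, ?_, ?_⟩
    · have := Nat.find_min hex (m := Nat.find hex - 1) (by omega)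
      omega
    · rw [Nat.sub_add_cancel (by omega)]
      exact hK
  obtain ⟨P, hP1, hP2⟩ := hJ₀ J hJ1
  have hthree : ∀ n, n + 2 * 2 ^ P < N → n ∈ S ∨ n + 2 ^ P ∈ S ∨ n + 2 * 2 ^ P ∈ S := by
    have hstep : ∀ n : ℕ, n + 2 ^ P < N → bit P (z + n) = false → n ∈ S ∨ n + 2 ^ P ∈ S := by
      intro n hn hb
      by_contra hcon
      rw [not_or] at hcon
      have h1 : (TY^[n] ((z, w), u)).2 = (TY^[n] ((z, w'), u')).2 := not_not.mp hcon.1
      have h2 : (TY^[n + 2 ^ P] ((z, w), u)).2 = (TY^[n + 2 ^ P] ((z, w'), u')).2 :=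
        not_not.mp hcon.2
      have h3 := hP2 n (by omega) hb
      rw [h1, h2] at h3
      simp at h3
    intro n hn
    by_cases hb : bit P (z + n) = false
    · rcases hstep n (by omega) hb with h | h
      · exact Or.inl h
      · exact Or.inr (Or.inl h)
    · have hb' : bit P (z + n) = true := by simpa using hb
      have h1 := bit_alt hb'
      have hcast : (z + n) + ((2 ^ P : ℕ) : ℤ_[2]) = z + ((n + 2 ^ P : ℕ) : ℤ_[2]) := by
        push_cast
        ring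
      rw [hcast] at h1
      rcases hstep (n + 2 ^ P) (by omega) h1 with h | h
      · exact Or.inr (Or.inl h)
      · refine Or.inr (Or.inr ?_)
        have h2 : n + 2 ^ P + 2 ^ P = n + 2 * 2 ^ P := by ring
        rwa [h2] at h
  have h1 := cnt_three hthree
  have h2 : 2 ^ (P + 3) ≤ N := le_trans (Nat.pow_le_pow_right (by norm_num) hP1.le) hJ2
  have h3 : 2 ^ (P + 3) = 8 * 2 ^ P := by rw [pow_add]; ring
  have h4 : N ≤ 4 * cnt S N := by omega
  have h5 : (N : ℝ) ≤ 4 * (cnt S N : ℝ) := by exact_mod_cast h4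
  linarith

end Pool.MPe5a66a
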