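import Pool.Agent.Lib_MP_e5a66a_an.ErgDefs
import Pool.Agent.Lib_MP_e5a66a_an.Flip

/-! Ergodicity piece 1: characters which are nontrivial in the last coordinate. May use everything
imported (Flip.lean: flip_step). -/

open MeasureTheory Filter Topology

namespace Pool.MPe5a66a

/-- for a nonzero scenery, flipping a digit of the block `J` from `0` to `1` changes the last
coordinate -/
theorem flip_full {z : ℤ_[2]} (hz : z ∈ GG) {w : WW} (hw : w ≠ 0) (u : ZMod 2) :
    ∀ᶠ J in atTop, ∃ P, aPos J ≤ P ∧ P + 3 < sPos J ∧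
      ∀ n : ℕ, n + 2 ^ P < 2 ^ sPos (J + 1) → bit P (z + n) = false →
        (TY^[n + 2 ^ P] ((z, w), u)).2 = (TY^[n] ((z, w), u)).2 + 1 ∧
        del (n + 2 ^ P) z = del n z := by
  obtain ⟨⟨η₁, j₀⟩, hp⟩ := Function.ne_iff.mp hw
  have hw1 : w (η₁, j₀) = 1 := by
    rcases zmod2_cases (w (η₁, j₀)) with h | h
    · exact absurd h hp
    · exact h
  filter_upwards [flip_Psi hz η₁ j₀] with J hJ
  obtain ⟨P, h1, h2, h3⟩ := hJ
  refine ⟨P, h1, h2, fun n hn hb => ⟨?_, ?_⟩⟩
  · obtain ⟨R, ⟨hR1, hR3⟩, hR5⟩ :=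
      ((TY_iterate_snd (y := ((z, w), u)) hz n).and
        (TY_iterate_snd (y := ((z, w), u)) hz (n + 2 ^ P))).and
        (eventually_gt_atTop J) |>.exists
    rw [hR1, hR3]
    have h4 := h3 n hn hb R hR5 w
    rw [h4, hw1]
    ring
  · have hcast : z + ((n + 2 ^ P : ℕ) : ℤ_[2]) = (z + n) + ((2 ^ P : ℕ) : ℤ_[2]) := by
      push_cast
      ring
    refine del_flip hz (fun K => (ne_cPos h1 (by omega) K).symm) ?_
    intro i hi
    rw [hcast]
    exact (bit_flip hb).2 i hi

/-- cancellation in pairs -/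
theorem sum_cancel {H : ℕ → ℝ} {b : ℕ → Bool} {D N : ℕ} {M : ℝ} (hDN : D ≤ N)
    (hb : ∀ n, b (n + D) = !(b n)) (hH : ∀ n, n + D < N → b n = false → H (n + D) = -(H n))
    (hM : ∀ n, |H n| ≤ M) : |∑ n ∈ Finset.range N, H n| ≤ 2 * D * M := by
  have hM0 : 0 ≤ M := (abs_nonneg _).trans (hM 0)
  set H0 : ℕ → ℝ := fun n => if b n = true then 0 else H n with hH0
  set H1 : ℕ → ℝ := fun n => if b n = true then H n else 0 with hH1
  obtain ⟨E, rfl⟩ := Nat.exists_eq_add_of_le hDN
  have hsum : ∑ n ∈ Finset.range (D + E), H n =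
      ∑ n ∈ Finset.range (D + E), H1 n + ∑ n ∈ Finset.range (D + E), H0 n := by
    rw [← Finset.sum_add_distrib]
    refine Finset.sum_congr rfl fun n _ => ?_
    simp only [hH0, hH1]
    split_ifs <;> simp
  have h1 : ∑ n ∈ Finset.range (D + E), H1 n =
      ∑ n ∈ Finset.range D, H1 n - ∑ n ∈ Finset.range E, H0 n := by
    rw [Finset.sum_range_add, sub_eq_add_neg, ← Finset.sum_neg_distrib]
    congr 1
    refine Finset.sum_congr rfl fun n hn => ?_
    have hn' := Finset.mem_range.1 hn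
    simp only [hH0, hH1]
    rw [add_comm D n, hb n]
    rcases hbn : b n with _ | _
    · simp only [Bool.not_false, if_true, Bool.false_eq_true, if_false]
      exact hH n (by omega) hbn
    · simp
  have h2 : ∑ n ∈ Finset.range (D + E), H0 n =
      ∑ n ∈ Finset.range E, H0 n + ∑ n ∈ Finset.range D, H0 (E + n) := by
    rw [add_comm D E, Finset.sum_range_add]
  have h3 : ∑ n ∈ Finset.range (D + E), H n =
      ∑ n ∈ Finset.range D, H1 n + ∑ n ∈ Finset.range D, H0 (E + n) := by
    rw [hsum, h1, h2]; ring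
  have hb1 : ∀ n, |H1 n| ≤ M := by
    intro n
    simp only [hH1]
    split_ifs
    · exact hM n
    · simpa using hM0
  have hb0 : ∀ n, |H0 n| ≤ M := by
    intro n
    simp only [hH0]
    split_ifs
    · simpa using hM0
    · exact hM n
  rw [h3]
  refine (abs_add_le _ _).trans ?_
  have h4 : |∑ n ∈ Finset.range D, H1 n| ≤ D * M := by
    refine (Finset.abs_sum_le_sum_abs _ _).trans ?_
    refine (Finset.sum_le_card_nsmul _ _ M fun n _ => hb1 n).trans ?_
    simp
  have h5 : |∑ n ∈ Finset.range D, H0 (E + n)| ≤ D * M := by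
    refine (Finset.abs_sum_le_sum_abs _ _).trans ?_
    refine (Finset.sum_le_card_nsmul _ _ M fun n _ => hb0 _).trans ?_
    simp
  linarith

theorem val_add_pow {k P : ℕ} (h : k ≤ P) (z : ℤ_[2]) : val k (z + (2 ^ P : ℕ)) = val k z := by
  rw [val_add_nat]
  obtain ⟨c, rfl⟩ := Nat.exists_eq_add_of_le h
  rw [pow_add, Nat.add_mul_mod_self_left, Nat.mod_eq_of_lt (val_lt _ _)]

theorem average_tendsto_zero {z : ℤ_[2]} (hz : z ∈ GG) {w : WW} (hw : w ≠ 0) (u : ZMod 2)
    (k : ℕ) (g : ℕ → ℝ) {M : ℝ} (hg : ∀ v, |g v| ≤ M) (F : Finset (ℕ × ℕ)) :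
    Tendsto (fun J : ℕ => (∑ n ∈ Finset.range (2 ^ aPos (J + 1)),
      g (val k (TY^[n] ((z, w), u)).1.1) * sg (∑ p ∈ F, (TY^[n] ((z, w), u)).1.2 p +
        (TY^[n] ((z, w), u)).2)) / 2 ^ aPos (J + 1)) atTop (𝓝 0) := by
  have hM0 : 0 ≤ M := (abs_nonneg _).trans (hg 0)
  set H : ℕ → ℝ := fun n => g (val k (TY^[n] ((z, w), u)).1.1) *
    sg (∑ p ∈ F, (TY^[n] ((z, w), u)).1.2 p + (TY^[n] ((z, w), u)).2) with hH
  have hHM : ∀ n, |H n| ≤ M := by
    intro n
    simp only [hH]
    rw [abs_mul, abs_sg, mul_one]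
    exact hg _
  have hbound : ∀ᶠ J : ℕ in atTop,
      |(∑ n ∈ Finset.range (2 ^ aPos (J + 1)), H n) / 2 ^ aPos (J + 1)| ≤ M * (1 / 2) ^ J := by
    filter_upwards [flip_full hz hw u, eventually_ge_atTop k] with J hJ hk
    obtain ⟨P, h1, h2, h3⟩ := hJ
    have hkP : k ≤ P := hk.trans ((le_aPos J).trans h1)
    have hPa : P + 1 + J ≤ aPos (J + 1) := by
      have e1 : aPos (J + 1) = sPos J + (J + 1) + 1 := rfl
      omega
    have hsc : |∑ n ∈ Finset.range (2 ^ aPos (J + 1)), H n| ≤ 2 * (2 ^ P : ℕ) * M := by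
      refine sum_cancel (b := fun n => bit P (z + n)) (Nat.pow_le_pow_right (by norm_num) (by omega))
        ?_ ?_ hHM
      · intro n
        have hcast : z + ((n + 2 ^ P : ℕ) : ℤ_[2]) = (z + n) + ((2 ^ P : ℕ) : ℤ_[2]) := by
          push_cast
          ring
        rw [hcast]
        rcases hbn : bit P (z + n) with _ | _
        · rw [(bit_flip hbn).1]; rfl
        · rw [bit_alt hbn]; rfl
      · intro n hn hbn
        have hlt : n + 2 ^ P < 2 ^ sPos (J + 1) := by
          refine hn.trans_le (Nat.pow_le_pow_right (by norm_num) ?_)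
          have := aPos_lt_sPos (J + 1)
          omega
        obtain ⟨h4, h5⟩ := h3 n hlt hbn
        have hcast : z + ((n + 2 ^ P : ℕ) : ℤ_[2]) = (z + n) + ((2 ^ P : ℕ) : ℤ_[2]) := by
          push_cast
          ring
        have e1 : (TY^[n + 2 ^ P] ((z, w), u)).1 = (z + (n + 2 ^ P : ℕ),
            fun p => w (p.1 ^^^ del (n + 2 ^ P) z, p.2)) := by
          rw [TY_iterate_fst]
          exact TX_iterate (x := (z, w)) hz _
        have e2 : (TY^[n] ((z, w), u)).1 = (z + (n : ℕ),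
            fun p => w (p.1 ^^^ del n z, p.2)) := by
          rw [TY_iterate_fst]
          exact TX_iterate (x := (z, w)) hz _
        simp only [hH]
        rw [h4, e1, e2]
        simp only
        rw [h5, hcast, val_add_pow hkP, ← add_assoc, sg_add _ 1, sg_one]
        ring
    rw [abs_div, abs_of_pos (show (0 : ℝ) < 2 ^ aPos (J + 1) by positivity),
      div_le_iff₀ (by positivity)]
    refine hsc.trans ?_
    push_cast
    have h6 : (2 : ℝ) ^ (P + 1 + J) ≤ 2 ^ aPos (J + 1) := pow_le_pow_right₀ (by norm_num) hPa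
    have h7 : (1 / 2 : ℝ) ^ J * 2 ^ (P + 1 + J) = 2 * 2 ^ P := by
      rw [pow_add, pow_add, one_div, inv_pow]
      field_simp
    calc 2 * 2 ^ P * M = M * ((1 / 2 : ℝ) ^ J * 2 ^ (P + 1 + J)) := by rw [h7]; ring
      _ ≤ M * ((1 / 2 : ℝ) ^ J * 2 ^ aPos (J + 1)) := by gcongr
      _ = M * (1 / 2) ^ J * 2 ^ aPos (J + 1) := by ring
  have hlim : Tendsto (fun J : ℕ => M * (1 / 2 : ℝ) ^ J) atTop (𝓝 0) := by
    have := (tendsto_pow_atTop_nhds_zero_of_lt_one (r := (1 / 2 : ℝ)) (by norm_num)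
      (by norm_num)).const_mul M
    simpa using this
  exact squeeze_zero_norm' (by simpa only [Real.norm_eq_abs] using hbound) hlim

theorem neBot_WW : (𝓝[≠] (0 : WW)).NeBot := by
  rw [← mem_closure_iff_nhdsWithin_neBot, mem_closure_iff_nhds]
  intro t ht
  have h1 : Tendsto (fun n : ℕ => (Pi.single (n, 0) 1 : WW)) atTop (𝓝 0) := by
    rw [tendsto_pi_nhds]
    intro i
    apply tendsto_const_nhds.congr'
    filter_upwards [eventually_gt_atTop i.1] with n hn
    have : i ≠ (n, 0) := by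
      rintro rfl
      exact lt_irrefl _ hn
    simp [Pi.single_eq_of_ne this]
  obtain ⟨n, hn⟩ := (h1.eventually ht).exists
  refine ⟨_, hn, ?_⟩
  intro h
  have h2 := congrFun h (n, 0)
  simp at h2

theorem ae_ne_zero : ∀ᵐ y ∂muY, y.1.2 ≠ (0 : WW) := by
  have hne := neBot_WW
  have hna : NullSingletonClass (haarP WW) := inferInstance
  have h1 : ∀ᵐ w ∂(haarP WW), w ≠ (0 : WW) := by
    rw [ae_iff]
    simp
  have h2 : ∀ᵐ x ∂muX, x.2 ≠ (0 : WW) := Measure.quasiMeasurePreserving_snd.ae h1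
  exact Measure.quasiMeasurePreserving_fst.ae h2

theorem ae_mem_GG'' : ∀ᵐ y ∂muY, y.1.1 ∈ GG :=
  Measure.quasiMeasurePreserving_fst.ae ae_mem_GG'

theorem integral_char_one {A : Set YY} (hA : MeasurableSet A) (hinv : TY ⁻¹' A = A)
    (k : ℕ) (g : ℕ → ℝ) {M : ℝ} (hg : ∀ v, |g v| ≤ M) (F : Finset (ℕ × ℕ)) :
    ∫ y in A, g (val k y.1.1) * sg (∑ p ∈ F, y.1.2 p + y.2) ∂muY = 0 := by
  have hM0 : 0 ≤ M := (abs_nonneg _).trans (hg 0)
  set h : YY → ℝ := fun y => g (val k y.1.1) * sg (∑ p ∈ F, y.1.2 p + y.2) with hh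
  have hmeas : Measurable h := by
    have m1 : Measurable (fun y : YY => g (val k y.1.1)) :=
      (measurable_from_nat (f := g)).comp ((measurable_val k).comp (measurable_fst.comp measurable_fst))
    have m2 : Measurable (fun y : YY => ∑ p ∈ F, y.1.2 p + y.2) := by
      refine Measurable.add ?_ measurable_snd
      refine Finset.measurable_sum _ fun p _ => ?_
      exact (measurable_pi_apply p).comp (measurable_snd.comp measurable_fst)
    exact m1.mul (measurable_sg.comp m2)
  have hbd : ∀ y, ‖h y‖ ≤ M := by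
    intro y
    simp only [hh, Real.norm_eq_abs]
    rw [abs_mul, abs_sg, mul_one]
    exact hg _
  have hmp : ∀ n : ℕ, MeasurePreserving (TY^[n]) muY muY := fun n => measurePreserving_TY.iterate n
  have hinvn : ∀ n : ℕ, TY^[n] ⁻¹' A = A := by
    intro n
    induction n with
    | zero => rfl
    | succ n ih =>
      rw [Function.iterate_succ, Set.preimage_comp, ih, hinv]
  have hint : ∀ n : ℕ, Integrable (fun y => h (TY^[n] y)) (muY.restrict A) := by
    intro n
    refine Integrable.of_bound (C := M) ?_ ?_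
    · exact (hmeas.comp (hmp n).measurable).aestronglyMeasurable
    · exact Filter.Eventually.of_forall fun y => hbd _
  have hn : ∀ n : ℕ, ∫ y in A, h (TY^[n] y) ∂muY = ∫ y in A, h y ∂muY := by
    intro n
    have e := setIntegral_map (μ := muY) (g := TY^[n]) (f := h) hA
      (by rw [(hmp n).map_eq]; exact hmeas.aestronglyMeasurable) (hmp n).measurable.aemeasurable
    rw [(hmp n).map_eq, hinvn n] at e
    exact e.symm
  have havg : ∀ J : ℕ, ∫ y in A, (∑ n ∈ Finset.range (2 ^ aPos (J + 1)), h (TY^[n] y)) /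
      2 ^ aPos (J + 1) ∂muY = ∫ y in A, h y ∂muY := by
    intro J
    rw [integral_div, integral_finsetSum _ fun n _ => hint n, Finset.sum_congr rfl fun n _ => hn n]
    simp only [Finset.sum_const, Finset.card_range, nsmul_eq_mul]
    push_cast
    field_simp
  have hlim : Tendsto (fun J : ℕ => ∫ y in A, (∑ n ∈ Finset.range (2 ^ aPos (J + 1)),
      h (TY^[n] y)) / 2 ^ aPos (J + 1) ∂muY) atTop (𝓝 (∫ y in A, (0 : ℝ) ∂muY)) := by
    refine tendsto_integral_of_dominated_convergence (fun _ => M) ?_ ?_ ?_ ?_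
    · intro J
      refine Measurable.aestronglyMeasurable ?_
      refine Measurable.div_const ?_ _
      exact Finset.measurable_sum _ fun n _ => hmeas.comp (hmp n).measurable
    · exact integrable_const _
    · intro J
      refine Filter.Eventually.of_forall fun y => ?_
      rw [norm_div, Real.norm_of_nonneg (show (0 : ℝ) ≤ 2 ^ aPos (J + 1) by positivity),
        div_le_iff₀ (by positivity)]
      refine (norm_sum_le _ _).trans ?_
      refine (Finset.sum_le_card_nsmul _ _ M fun n _ => hbd _).trans ?_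
      simp only [Finset.card_range, nsmul_eq_mul]
      push_cast
      rw [mul_comm]
    · refine ae_restrict_of_ae ?_
      filter_upwards [ae_mem_GG'', ae_ne_zero] with y hy1 hy2
      obtain ⟨⟨z, w⟩, u⟩ := y
      exact average_tendsto_zero hy1 hy2 u k g hg F
  simp only [havg, integral_zero] at hlim
  exact tendsto_nhds_unique tendsto_const_nhds hlim

end Pool.MPe5a66a
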