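import Pool.Agent.Lib_MP_e5a66a_an.ErgDefs
import Pool.Agent.Lib_MP_e5a66a_an.Approx
import Pool.Agent.Lib_MP_e5a66a_an.Codes

/-! Ergodicity: labellings, residue classes, expansion of cylinders. -/

open MeasureTheory Filter Topology

namespace Pool.MPe5a66a

theorem exists_R0 : ∃ R : ℕ → YY → ℕ, (∀ k, Measurable (R k)) ∧
    ∀ k x y, R k x = R k y ↔ (val k x.1.1 = val k y.1.1 ∧
        (∀ p : ℕ × ℕ, p.1 < k → p.2 < k → x.1.2 p = y.1.2 p) ∧ x.2 = y.2) := by
  obtain ⟨R, _, h2, h3⟩ := mk_labels (fun k (y : YY) => (codeX k y.1, y.2))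
    (fun k => ((measurable_codeX k).comp measurable_fst).prodMk measurable_snd)
  refine ⟨R, h2, fun k x y => (h3 k x y).trans ?_⟩
  rw [Prod.mk.injEq, codeX_eq, and_assoc]

theorem measure_inter_val {A : Set YY} (hA : MeasurableSet A) (hinv : TY ⁻¹' A = A) (k v : ℕ)
    (hv : v < 2 ^ k) : muY.real (A ∩ {y | val k y.1.1 = v}) = muY.real A / 2 ^ k := by
  have hm : ∀ v, MeasurableSet (A ∩ {y : YY | val k y.1.1 = v}) := fun v =>
    hA.inter (((measurable_val k).comp (measurable_fst.comp measurable_fst))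
      (measurableSet_singleton v))
  have hstep : ∀ v, v + 1 < 2 ^ k → muY.real (A ∩ {y | val k y.1.1 = v + 1}) =
      muY.real (A ∩ {y | val k y.1.1 = v}) := by
    intro v hv
    have h1 : TY ⁻¹' (A ∩ {y | val k y.1.1 = v + 1}) = A ∩ {y | val k y.1.1 = v} := by
      rw [Set.preimage_inter, hinv]
      congr 1
      ext y
      simp only [Set.mem_preimage, Set.mem_ofPred_eq]
      have h2 : (TY y).1.1 = y.1.1 + (1 : ℕ) := by
        simp [TY, TX]
      rw [h2, val_add_nat]
      have h3 := val_lt k y.1.1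
      constructor
      · intro h4
        by_cases h5 : val k y.1.1 + 1 < 2 ^ k
        · rw [Nat.mod_eq_of_lt h5] at h4
          omega
        · have h6 : val k y.1.1 + 1 = 2 ^ k := by omega
          rw [h6, Nat.mod_self] at h4
          omega
      · intro h4
        rw [h4, Nat.mod_eq_of_lt hv]
    rw [← h1, measureReal_def, measureReal_def,
      measurePreserving_TY.measure_preimage (hm _).nullMeasurableSet]
  have hall : ∀ v, v < 2 ^ k → muY.real (A ∩ {y | val k y.1.1 = v}) =
      muY.real (A ∩ {y | val k y.1.1 = 0}) := by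
    intro v
    induction v with
    | zero => intro _; rfl
    | succ v ih =>
      intro h
      rw [hstep v h, ih (by omega)]
  have hU : A = ⋃ v ∈ Finset.range (2 ^ k), (A ∩ {y : YY | val k y.1.1 = v}) := by
    ext y
    simp only [Set.mem_iUnion, Finset.mem_range, Set.mem_inter_iff, Set.mem_ofPred_eq]
    constructor
    · intro h
      exact ⟨_, val_lt k _, h, rfl⟩
    · rintro ⟨_, _, h, _⟩
      exact h
  have hsum : muY.real A = ∑ v ∈ Finset.range (2 ^ k), muY.real (A ∩ {y | val k y.1.1 = v}) := by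
    conv_lhs => rw [hU]
    refine measureReal_biUnion_finset ?_ ?_ (fun v _ => measure_ne_top _ _)
    · intro a _ b _ hab
      rw [Function.onFun, Set.disjoint_left]
      rintro y ⟨_, h1⟩ ⟨_, h2⟩
      exact hab (h1.symm.trans h2)
    · intro v _
      exact hm v
  rw [Finset.sum_congr rfl (fun v hv => hall v (Finset.mem_range.1 hv)), Finset.sum_const,
    Finset.card_range, nsmul_eq_mul] at hsum
  rw [hall v hv, hsum]
  push_cast
  field_simp

open scoped Classical in
/-- the indicator of a cylinder as a combination of characters -/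
theorem cylinder_expand (k : ℕ) (y y₀ : YY) :
    (if val k y.1.1 = val k y₀.1.1 ∧ (∀ p : ℕ × ℕ, p.1 < k → p.2 < k → y.1.2 p = y₀.1.2 p) ∧
      y.2 = y₀.2 then (1 : ℝ) else 0) =
    ∑ F ∈ (Finset.range k ×ˢ Finset.range k).powerset,
      ((if val k y.1.1 = val k y₀.1.1 then 1 else 0) * sg (∑ p ∈ F, y.1.2 p) *
          (sg (∑ p ∈ F, y₀.1.2 p) / 2 ^ (k * k + 1)) +
        (if val k y.1.1 = val k y₀.1.1 then 1 else 0) * sg (∑ p ∈ F, y.1.2 p + y.2) *
          (sg (∑ p ∈ F, y₀.1.2 p + y₀.2) / 2 ^ (k * k + 1))) := by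
  set S : Finset (ℕ × ℕ) := Finset.range k ×ˢ Finset.range k with hS
  have hcard : S.card = k * k := by
    rw [hS, Finset.card_product, Finset.card_range]
  have h1 : (if val k y.1.1 = val k y₀.1.1 ∧
      (∀ p : ℕ × ℕ, p.1 < k → p.2 < k → y.1.2 p = y₀.1.2 p) ∧ y.2 = y₀.2 then (1 : ℝ) else 0) =
      (if val k y.1.1 = val k y₀.1.1 then 1 else 0) *
        (∏ p ∈ S, (if y.1.2 p = y₀.1.2 p then (1 : ℝ) else 0)) *
        (if y.2 = y₀.2 then 1 else 0) := by
    rw [Finset.prod_ite_zero]
    by_cases ha : val k y.1.1 = val k y₀.1.1 <;>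
    by_cases hb : (∀ p : ℕ × ℕ, p.1 < k → p.2 < k → y.1.2 p = y₀.1.2 p) <;>
    by_cases hc : y.2 = y₀.2
    all_goals
      have hb' : (∀ p ∈ S, y.1.2 p = y₀.1.2 p) ↔
          (∀ p : ℕ × ℕ, p.1 < k → p.2 < k → y.1.2 p = y₀.1.2 p) := by
        constructor
        · intro h p hp1 hp2
          exact h p (by rw [hS, Finset.mem_product]; exact ⟨Finset.mem_range.2 hp1, Finset.mem_range.2 hp2⟩)
        · intro h p hp
          rw [hS, Finset.mem_product] at hp
          exact h p (Finset.mem_range.1 hp.1) (Finset.mem_range.1 hp.2)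
      simp only [hb', ha, hc, true_and, and_true, if_true, one_mul, mul_one,
        Finset.prod_const_one, false_and, and_false, if_false, zero_mul, mul_zero]
  rw [h1]
  have h2 : (∏ p ∈ S, (if y.1.2 p = y₀.1.2 p then (1 : ℝ) else 0)) =
      (∑ F ∈ S.powerset, sg (∑ p ∈ F, y.1.2 p) * sg (∑ p ∈ F, y₀.1.2 p)) / 2 ^ (k * k) := by
    have h3 : ∀ p ∈ S, (if y.1.2 p = y₀.1.2 p then (1 : ℝ) else 0) =
        (1 + sg (y.1.2 p + y₀.1.2 p)) / 2 := fun p _ => (half_sg _ _).symm
    rw [Finset.prod_congr rfl h3, Finset.prod_div_distrib, Finset.prod_one_add,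
      Finset.prod_const, hcard]
    congr 1
    apply Finset.sum_congr rfl
    intro F _
    rw [← sg_sum, Finset.sum_add_distrib, sg_add]
  rw [h2, ← half_sg y.2 y₀.2, Finset.sum_div, Finset.mul_sum, Finset.sum_mul]
  apply Finset.sum_congr rfl
  intro F _
  rw [sg_add, sg_add, sg_add, pow_succ]
  field_simp

end Pool.MPe5a66a
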