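import Pool.Agent.Lib_MP_e5a66a_an.Cocycle

/-! Signs of elements of `ZMod 2` (for the ergodicity of `TY`). -/

open MeasureTheory Filter Topology

namespace Pool.MPe5a66a

/-- the sign character of `ZMod 2` -/
noncomputable def sg (a : ZMod 2) : ℝ := if a = 0 then 1 else -1

theorem sg_zero : sg 0 = 1 := by simp [sg]

theorem sg_one : sg 1 = -1 := by simp [sg]

theorem zmod2_cases (a : ZMod 2) : a = 0 ∨ a = 1 := by
  fin_cases a
  · exact Or.inl rfl
  · exact Or.inr rfl

theorem sg_add (a b : ZMod 2) : sg (a + b) = sg a * sg b := by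
  rcases zmod2_cases a with rfl | rfl <;> rcases zmod2_cases b with rfl | rfl
  · simp [sg]
  · simp [sg]
  · simp [sg]
  · have h : (1 : ZMod 2) + 1 = 0 := by decide
    rw [h, sg_zero, sg_one]
    norm_num

theorem sg_mul_self (a : ZMod 2) : sg a * sg a = 1 := by
  rcases zmod2_cases a with rfl | rfl <;> simp [sg]

theorem abs_sg (a : ZMod 2) : |sg a| = 1 := by
  rcases zmod2_cases a with rfl | rfl <;> simp [sg]

theorem measurable_sg : Measurable sg := measurable_of_countable _

theorem sg_sum {ι : Type} (F : Finset ι) (f : ι → ZMod 2) :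
    sg (∑ p ∈ F, f p) = ∏ p ∈ F, sg (f p) := by
  classical
  induction F using Finset.induction_on with
  | empty => simp [sg]
  | insert a s ha ih => rw [Finset.sum_insert ha, Finset.prod_insert ha, sg_add, ih]

/-- indicator of equality in `ZMod 2` through signs -/
theorem half_sg (a b : ZMod 2) : (1 + sg (a + b)) / 2 = if a = b then 1 else 0 := by
  rcases zmod2_cases a with rfl | rfl <;> rcases zmod2_cases b with rfl | rfl
  · simp [sg]
  · simp [sg]
  · simp [sg]
  · have h : (1 : ZMod 2) + 1 = 0 := by decide
    rw [h, sg_zero]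
    norm_num

end Pool.MPe5a66a
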