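import Pool.Agent.Lib_MP_e5a66a_an.Erg0
import Pool.Agent.Lib_MP_e5a66a_an.Erg1
import Pool.Agent.Lib_MP_e5a66a_an.Approx
import Pool.Agent.Lib_MP_e5a66a_an.ErgA

/-! Ergodicity piece 2: assembly. -/

open MeasureTheory Filter Topology

namespace Pool.MPe5a66a

theorem measurable_vY (k : ℕ) : Measurable (fun y : YY => val k y.1.1) :=
  (measurable_val k).comp (measurable_fst.comp measurable_fst)

theorem measurable_wY (p : ℕ × ℕ) : Measurable (fun y : YY => y.1.2 p) :=
  (measurable_pi_apply p).comp (measurable_snd.comp measurable_fst)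

theorem measurable_sumY (F : Finset (ℕ × ℕ)) : Measurable (fun y : YY => ∑ p ∈ F, y.1.2 p) :=
  Finset.measurable_sum F fun p _ => measurable_wY p

theorem measurableSet_valY (k v : ℕ) : MeasurableSet {y : YY | val k y.1.1 = v} :=
  measurable_vY k (measurableSet_singleton v)

theorem measurableSet_cyl (k : ℕ) (y₀ : YY) :
    MeasurableSet {y : YY | val k y.1.1 = val k y₀.1.1 ∧
      (∀ p : ℕ × ℕ, p.1 < k → p.2 < k → y.1.2 p = y₀.1.2 p) ∧ y.2 = y₀.2} := by
  refine (measurableSet_valY k _).inter (MeasurableSet.inter ?_ ?_)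
  · have h : {y : YY | ∀ p : ℕ × ℕ, p.1 < k → p.2 < k → y.1.2 p = y₀.1.2 p} =
        ⋂ p : ℕ × ℕ, ⋂ (_ : p.1 < k), ⋂ (_ : p.2 < k), {y : YY | y.1.2 p = y₀.1.2 p} := by
      ext y; simp
    change MeasurableSet {y : YY | ∀ p : ℕ × ℕ, p.1 < k → p.2 < k → y.1.2 p = y₀.1.2 p}
    rw [h]
    refine MeasurableSet.iInter fun p => MeasurableSet.iInter fun _ => MeasurableSet.iInter fun _ =>
      ?_
    exact measurable_wY p (measurableSet_singleton _)
  · exact measurable_snd (measurableSet_singleton _)

theorem measure_inter_cylinder {A : Set YY} (hA : MeasurableSet A) (hinv : TY ⁻¹' A = A)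
    (k : ℕ) (y₀ : YY) :
    muY.real (A ∩ {y | val k y.1.1 = val k y₀.1.1 ∧
      (∀ p : ℕ × ℕ, p.1 < k → p.2 < k → y.1.2 p = y₀.1.2 p) ∧ y.2 = y₀.2}) =
    muY.real A / 2 ^ (k * k + 1 + k) := by
  classical
  set S : Set YY := {y | val k y.1.1 = val k y₀.1.1 ∧
      (∀ p : ℕ × ℕ, p.1 < k → p.2 < k → y.1.2 p = y₀.1.2 p) ∧ y.2 = y₀.2} with hSdef
  have hS : MeasurableSet S := measurableSet_cyl k y₀
  let g : ℕ → ℝ := fun v => if v = val k y₀.1.1 then 1 else 0
  have hg : ∀ v, |g v| ≤ 1 := by
    intro v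
    by_cases h : v = val k y₀.1.1 <;> simp [g, h]
  have h1 : muY.real (A ∩ S) = ∫ y in A, S.indicator (fun _ => (1 : ℝ)) y ∂muY := by
    rw [setIntegral_indicator hS]
    simp
  have hf0 : ∀ F : Finset (ℕ × ℕ), Measurable (fun y : YY => g (val k y.1.1) * sg (∑ p ∈ F, y.1.2 p)) :=
    fun F => ((measurable_of_countable g).comp (measurable_vY k)).mul
      (measurable_sg.comp (measurable_sumY F))
  have hf1 : ∀ F : Finset (ℕ × ℕ),
      Measurable (fun y : YY => g (val k y.1.1) * sg (∑ p ∈ F, y.1.2 p + y.2)) :=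
    fun F => ((measurable_of_countable g).comp (measurable_vY k)).mul
      (measurable_sg.comp ((measurable_sumY F).add measurable_snd))
  have hi0 : ∀ F : Finset (ℕ × ℕ), Integrable
      (fun y : YY => g (val k y.1.1) * sg (∑ p ∈ F, y.1.2 p)) (muY.restrict A) := by
    intro F
    refine Integrable.of_bound (hf0 F).aestronglyMeasurable 1 (ae_of_all _ fun y => ?_)
    rw [Real.norm_eq_abs, abs_mul, abs_sg, mul_one]
    exact hg _
  have hi1 : ∀ F : Finset (ℕ × ℕ), Integrable
      (fun y : YY => g (val k y.1.1) * sg (∑ p ∈ F, y.1.2 p + y.2)) (muY.restrict A) := by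
    intro F
    refine Integrable.of_bound (hf1 F).aestronglyMeasurable 1 (ae_of_all _ fun y => ?_)
    rw [Real.norm_eq_abs, abs_mul, abs_sg, mul_one]
    exact hg _
  have h2 : ∫ y in A, S.indicator (fun _ => (1 : ℝ)) y ∂muY =
      ∫ y in A, ∑ F ∈ (Finset.range k ×ˢ Finset.range k).powerset,
        (g (val k y.1.1) * sg (∑ p ∈ F, y.1.2 p) *
          (sg (∑ p ∈ F, y₀.1.2 p) / 2 ^ (k * k + 1)) +
        g (val k y.1.1) * sg (∑ p ∈ F, y.1.2 p + y.2) *
          (sg (∑ p ∈ F, y₀.1.2 p + y₀.2) / 2 ^ (k * k + 1))) ∂muY := by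
    refine integral_congr_ae (ae_of_all _ fun y => ?_)
    have h := cylinder_expand k y y₀
    simp only [g]
    rw [← h, Set.indicator_apply]
    rfl
  rw [h1, h2, integral_finsetSum]
  swap
  · intro F _
    exact ((hi0 F).mul_const _).add ((hi1 F).mul_const _)
  have h3 : ∀ F ∈ (Finset.range k ×ˢ Finset.range k).powerset,
      ∫ y in A, (g (val k y.1.1) * sg (∑ p ∈ F, y.1.2 p) *
          (sg (∑ p ∈ F, y₀.1.2 p) / 2 ^ (k * k + 1)) +
        g (val k y.1.1) * sg (∑ p ∈ F, y.1.2 p + y.2) *
          (sg (∑ p ∈ F, y₀.1.2 p + y₀.2) / 2 ^ (k * k + 1))) ∂muY =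
      if F = ∅ then muY.real A / 2 ^ (k * k + 1 + k) else 0 := by
    intro F _
    rw [integral_add ((hi0 F).mul_const _) ((hi1 F).mul_const _), integral_mul_const,
      integral_mul_const, integral_char_one hA hinv k g hg F]
    by_cases hF : F = ∅
    · subst hF
      simp only [Finset.sum_empty, if_true, sg_zero, mul_one, zero_mul, add_zero]
      have h4 : ∫ y in A, g (val k y.1.1) ∂muY = muY.real A / 2 ^ k := by
        rw [← measure_inter_val hA hinv k _ (val_lt k y₀.1.1)]
        have h5 : ∀ y : YY, g (val k y.1.1) =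
            ({y : YY | val k y.1.1 = val k y₀.1.1}).indicator (fun _ => (1 : ℝ)) y := by
          intro y
          rw [Set.indicator_apply]
          rfl
        rw [integral_congr_ae (ae_of_all _ h5), setIntegral_indicator (measurableSet_valY k _)]
        simp
      rw [h4, pow_add 2 (k * k + 1) k]
      field_simp
    · rw [if_neg hF, integral_char_zero hA hinv k g hg (Finset.nonempty_iff_ne_empty.2 hF)]
      simp
  rw [Finset.sum_congr rfl h3, Finset.sum_ite_eq' ]
  simp

theorem measure_zero_or_one {A : Set YY} (hA : MeasurableSet A) (hinv : TY ⁻¹' A = A) :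
    muY A = 0 ∨ muY Aᶜ = 0 := by
  classical
  obtain ⟨R, hRm, hR⟩ := exists_R0
  have href : ∀ {k k' : ℕ}, k ≤ k' → ∀ x y, R k' x = R k' y → R k x = R k y := by
    intro k k' hk x y h
    rw [hR] at h ⊢
    refine ⟨?_, fun p h1 h2 => h.2.1 p (h1.trans_le hk) (h2.trans_le hk), h.2.2⟩
    rw [← val_mod hk x.1.1, ← val_mod hk y.1.1, h.1]
  have hinj : ∀ x y : YY, (∀ k, R k x = R k y) → x = y := by
    intro x y h
    have h' := fun k => (hR k x y).1 (h k)
    refine Prod.ext (Prod.ext ?_ ?_) ?_
    · exact eq_of_val fun k => (h' k).1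
    · funext p
      exact (h' (max p.1 p.2 + 1)).2.1 p (by omega) (by omega)
    · exact (h' 0).2.2
  have hcyl : ∀ (k : ℕ) (y₀ : YY) (B : Set YY), MeasurableSet B → TY ⁻¹' B = B →
      muY.real (B ∩ R k ⁻¹' {R k y₀}) = muY.real B / 2 ^ (k * k + 1 + k) := by
    intro k y₀ B hB hBinv
    rw [← measure_inter_cylinder hB hBinv k y₀]
    congr 2
    ext y
    rw [Set.mem_preimage, Set.mem_singleton_iff, hR, Set.mem_ofPred_eq]
  -- product formula on the atoms
  have hatom : ∀ C ∈ atoms R, muY.real (A ∩ C) = muY.real A * muY.real C := by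
    rintro C ⟨k, i, rfl⟩
    by_cases hne : (R k ⁻¹' {i}).Nonempty
    · obtain ⟨y₀, hy₀⟩ := hne
      have hi : R k y₀ = i := hy₀
      subst hi
      have h1 := hcyl k y₀ A hA hinv
      have h2 := hcyl k y₀ Set.univ MeasurableSet.univ (Set.preimage_univ)
      rw [Set.univ_inter] at h2
      rw [h1, h2]
      have h3 : muY.real Set.univ = 1 := by simp
      rw [h3]
      ring
    · rw [Set.not_nonempty_iff_eq_empty.1 hne]
      simp
  have hgen : ∀ s : Set YY, MeasurableSet s → MeasurableSet[MeasurableSpace.generateFrom (atoms R)] s :=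
    fun s hs => generates_of_injOn hRm MeasurableSet.univ (@MeasurableSet.univ _ (_))
      (fun x _ y _ h => hinj x y h) hs (Set.subset_univ s)
  have hatm : ∀ C ∈ atoms R, MeasurableSet C := by
    rintro C ⟨k, i, rfl⟩
    exact hRm k (measurableSet_singleton i)
  have heq : (inferInstance : MeasurableSpace YY) = MeasurableSpace.generateFrom (atoms R ∪ {∅}) := by
    apply le_antisymm
    · intro s hs
      exact MeasurableSpace.generateFrom_mono Set.subset_union_left s (hgen s hs)
    · apply MeasurableSpace.generateFrom_le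
      rintro C (hC | hC)
      · exact hatm C hC
      · rw [Set.mem_singleton_iff] at hC
        subst hC
        exact MeasurableSet.empty
  have hpi : IsPiSystem (atoms R ∪ {∅}) := by
    rintro C₁ (⟨k₁, i₁, rfl⟩ | h₁) C₂ (⟨k₂, i₂, rfl⟩ | h₂) hne
    · obtain ⟨y, hy1, hy2⟩ := hne
      have e1 : R k₁ y = i₁ := hy1
      have e2 : R k₂ y = i₂ := hy2
      subst e1 e2
      left
      rcases le_total k₁ k₂ with hk | hk
      · refine ⟨k₂, R k₂ y, ?_⟩
        ext x
        simp only [Set.mem_inter_iff, Set.mem_preimage, Set.mem_singleton_iff]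
        exact ⟨fun h => h.2, fun h => ⟨href hk x y h, h⟩⟩
      · refine ⟨k₁, R k₁ y, ?_⟩
        ext x
        simp only [Set.mem_inter_iff, Set.mem_preimage, Set.mem_singleton_iff]
        exact ⟨fun h => h.1, fun h => ⟨h, href hk x y h⟩⟩
    · rw [Set.mem_singleton_iff] at h₂
      subst h₂
      simp at hne
    · rw [Set.mem_singleton_iff] at h₁
      subst h₁
      simp at hne
    · rw [Set.mem_singleton_iff] at h₁
      subst h₁
      simp at hne
  have hall : ∀ s : Set YY, MeasurableSet s → muY.real (A ∩ s) = muY.real A * muY.real s := by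
    have hμ : muY.restrict A = (muY A) • muY := by
      apply ext_of_generate_finite (atoms R ∪ {∅}) heq hpi
      · rintro C (hC | hC)
        · rw [Measure.restrict_apply (hatm C hC), Measure.smul_apply, smul_eq_mul, Set.inter_comm]
          have h := hatom C hC
          rw [← ENNReal.toReal_eq_toReal_iff' (measure_ne_top _ _)
            (ENNReal.mul_ne_top (measure_ne_top _ _) (measure_ne_top _ _)), ENNReal.toReal_mul]
          exact h
        · rw [Set.mem_singleton_iff] at hC
          subst hC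
          simp
      · simp
    intro s hs
    have h := congrArg (fun μ : Measure YY => μ s) hμ
    simp only [Measure.restrict_apply hs, Measure.smul_apply, smul_eq_mul] at h
    rw [Set.inter_comm] at h
    simp only [Measure.real]
    rw [h, ENNReal.toReal_mul]
  have h1 := hall A hA
  rw [Set.inter_self] at h1
  have h2 : muY.real A = 0 ∨ muY.real A = 1 := by
    have h3 : muY.real A * (muY.real A - 1) = 0 := by linarith
    rcases mul_eq_zero.1 h3 with h | h
    · exact Or.inl h
    · exact Or.inr (by linarith)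
  rcases h2 with h | h
  · left
    rwa [measureReal_eq_zero_iff] at h
  · right
    have h4 : muY.real Aᶜ = 0 := by
      rw [measureReal_compl hA]
      simp [h]
    rwa [measureReal_eq_zero_iff] at h4

theorem ergodic_TY : Ergodic TY muY := by
  refine ⟨measurePreserving_TY, ⟨?_⟩⟩
  intro A hA hinv
  rw [eventuallyConst_set']
  rcases measure_zero_or_one hA hinv with h | h
  · left
    exact ae_eq_empty.2 h
  · right
    exact ae_eq_univ.2 h

theorem ergodic_TX : Ergodic TX muX := by
  refine ⟨measurePreserving_TX, ⟨?_⟩⟩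
  intro B hB hinv
  have hm : MeasurableSet (Prod.fst ⁻¹' B : Set YY) := measurable_fst hB
  have hinv' : TY ⁻¹' (Prod.fst ⁻¹' B : Set YY) = Prod.fst ⁻¹' B := by
    ext y
    have := congrArg (fun s => y.1 ∈ s) hinv
    simpa [TY] using this
  have hμ : ∀ s : Set XX, MeasurableSet s → muY (Prod.fst ⁻¹' s : Set YY) = muX s := by
    intro s hs
    have h := (measurePreserving_fst (μ := muX) (ν := haarP (ZMod 2))).measure_preimage hs.nullMeasurableSet
    exact h
  rw [eventuallyConst_set']
  rcases measure_zero_or_one hm hinv' with h | h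
  · left
    rw [hμ B hB] at h
    exact ae_eq_empty.2 h
  · right
    rw [← Set.preimage_compl, hμ Bᶜ hB.compl] at h
    exact ae_eq_univ.2 h

end Pool.MPe5a66a
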