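import Pool.Agent.Lib_MP_e5a66a_an.Sys

/-! Piece 10: uncountably many translates in a set of positive measure. May use
`Haar.lean` and `measurePreserving_translate` of `Sys.lean`. -/

open MeasureTheory Filter Topology

namespace Pool.MPe5a66a

theorem neBot_coin : (𝓝[≠] (0 : ℕ → ZMod 2)).NeBot := by
  rw [← mem_closure_iff_nhdsWithin_neBot, mem_closure_iff_nhds]
  intro t ht
  have h1 : Tendsto (fun n : ℕ => (Pi.single n 1 : ℕ → ZMod 2)) atTop (𝓝 0) := by
    rw [tendsto_pi_nhds]
    intro i
    apply tendsto_const_nhds.congr'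
    filter_upwards [eventually_gt_atTop i] with n hn
    simp [Pi.single_eq_of_ne (ne_of_lt hn)]
  obtain ⟨n, hn⟩ := (h1.eventually ht).exists
  refine ⟨_, hn, ?_⟩
  intro h
  have h2 := congrFun h n
  simp at h2

theorem exists_uncountable {Ξ : (ℕ → ZMod 2) → WW} (hΞ : Measurable Ξ) {Good : Set XX}
    (hG : MeasurableSet Good) (hpos : 0 < muX Good) :
    ∃ x : XX, ¬ {α | (x.1, x.2 + Ξ α) ∈ Good}.Countable := by
  by_contra hcon
  push Not at hcon
  have := neBot_coin
  set A : Measure (ℕ → ZMod 2) := haarP (ℕ → ZMod 2) with hA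
  have hna : NullSingletonClass A := inferInstance
  set S : Set (XX × (ℕ → ZMod 2)) := {p | (p.1.1, p.1.2 + Ξ p.2) ∈ Good} with hS
  have hmeas : Measurable fun p : XX × (ℕ → ZMod 2) => ((p.1.1, p.1.2 + Ξ p.2) : XX) := by
    apply Measurable.prodMk
    · exact measurable_fst.comp measurable_fst
    · exact (measurable_snd.comp measurable_fst).add (hΞ.comp measurable_snd)
  have hSm : MeasurableSet S := hmeas hG
  have h1 : (muX.prod A) S = 0 := by
    rw [Measure.measure_prod_null hSm]
    exact Eventually.of_forall fun x => (hcon x).measure_zero A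
  have h2 : (A.prod muX) (Prod.swap ⁻¹' S) = 0 := by
    rw [← Measure.prod_swap, Measure.map_apply measurable_swap hSm] at h1
    exact h1
  rw [Measure.measure_prod_null (measurable_swap hSm)] at h2
  obtain ⟨α, hα⟩ := h2.exists
  have h3 := (measurePreserving_translate (Ξ α)).measure_preimage hG.nullMeasurableSet
  have h4 : muX ((fun x : XX => (x.1, x.2 + Ξ α)) ⁻¹' Good) = 0 := hα
  rw [h3] at h4
  exact hpos.ne' h4

end Pool.MPe5a66a
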