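import Pool.Agent.Lib_MP_e5a66a_an.Bits

/-! Piece 2: measurability and Haar measure on `ℤ_2`. May use all statements of `Bits.lean`. -/

open MeasureTheory Filter Topology

namespace Pool.MPe5a66a

section
variable {G : Type} [AddGroup G] [TopologicalSpace G] [IsTopologicalAddGroup G]
    [CompactSpace G] [MeasurableSpace G] [BorelSpace G]

instance instHaarP : (haarP G).IsAddHaarMeasure := by
  unfold haarP; infer_instance

instance instProbHaarP : IsProbabilityMeasure (haarP G) := ⟨by
  have h := Measure.addHaarMeasure_self (G := G) (K₀ := ⊤)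
  rw [TopologicalSpace.PositiveCompacts.coe_top] at h
  exact h⟩

end

theorem isOpen_val_fibre (k v : ℕ) : IsOpen (val k ⁻¹' {v}) := by
  rw [Metric.isOpen_iff]
  intro z hz
  refine ⟨(2 : ℝ) ^ (-k : ℤ), by positivity, ?_⟩
  intro z' hz'
  have h1 : ‖z' - z‖ ≤ ((2 : ℕ) : ℝ) ^ (-k : ℤ) := by
    rw [Metric.mem_ball, dist_eq_norm] at hz'
    exact_mod_cast hz'.le
  rw [PadicInt.norm_le_pow_iff_mem_span_pow, ← PadicInt.ker_toZModPow, RingHom.mem_ker,
    map_sub, sub_eq_zero] at h1
  have h2 : val k z' = val k z := by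
    rw [val, val, h1]
  rw [Set.mem_preimage, h2]
  exact hz

theorem measurable_val (k : ℕ) : Measurable (val k) :=
  measurable_to_countable' fun v => (isOpen_val_fibre k v).measurableSet

theorem measurable_bit (i : ℕ) : Measurable (bit i) := by
  have h : Measurable (fun n : ℕ => n.testBit i) := measurable_from_nat
  exact h.comp (measurable_val (i + 1))

theorem measurable_gam (R : ℕ) : Measurable (gam R) := by
  have h : Measurable (fun f : Fin R → Bool => Nat.ofBits f) := Measurable.of_discrete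
  exact h.comp (measurable_pi_lambda _ fun J => measurable_bit (cPos J))

theorem measurableSet_ev {β : Type} [MeasurableSpace β] {p : ℕ → β → Prop}
    (h : ∀ R, MeasurableSet {x | p R x}) : MeasurableSet {x | ∀ᶠ R in atTop, p R x} := by
  have e : {x | ∀ᶠ R in atTop, p R x} = ⋃ N : ℕ, ⋂ R : ℕ, ⋂ (_ : N ≤ R), {x | p R x} := by
    ext x
    simp only [Set.mem_ofPred_eq, Filter.eventually_atTop, Set.mem_iUnion, Set.mem_iInter]
  rw [e]
  exact MeasurableSet.iUnion fun N => MeasurableSet.iInter fun R => MeasurableSet.iInter fun _ => h R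

theorem measurable_evl {α β : Type} [MeasurableSpace β] [Countable α] [MeasurableSpace α]
    [MeasurableSingletonClass α] [Zero α] {s : ℕ → β → α} (h : ∀ R, Measurable (s R)) :
    Measurable (fun x => evl (fun R => s R x)) := by
  have hm : ∀ d : α, MeasurableSet {x | ∀ᶠ R in atTop, s R x = d} := fun d =>
    measurableSet_ev fun R => (h R) (measurableSet_singleton d)
  have hn : MeasurableSet {x | ¬ ∃ d : α, ∀ᶠ R in atTop, s R x = d} := by
    have e : {x | ¬ ∃ d : α, ∀ᶠ R in atTop, s R x = d} =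
        (⋃ d : α, {x | ∀ᶠ R in atTop, s R x = d})ᶜ := by
      ext x
      simp only [Set.mem_ofPred_eq, Set.mem_compl_iff, Set.mem_iUnion]
    rw [e]
    exact (MeasurableSet.iUnion hm).compl
  refine measurable_to_countable' fun d => ?_
  by_cases hd : d = 0
  · have e : (fun x => evl (fun R => s R x)) ⁻¹' {d} =
        {x | ∀ᶠ R in atTop, s R x = d} ∪ {x | ¬ ∃ d : α, ∀ᶠ R in atTop, s R x = d} := by
      ext x
      simp only [Set.mem_preimage, Set.mem_singleton_iff, Set.mem_union, Set.mem_ofPred_eq]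
      constructor
      · intro hx
        by_cases hex : ∃ d : α, ∀ᶠ R in atTop, s R x = d
        · obtain ⟨d', hd'⟩ := hex
          rw [evl_eq hd'] at hx
          left
          rw [← hx]
          exact hd'
        · exact Or.inr hex
      · rintro (hx | hx)
        · exact evl_eq hx
        · rw [evl, dif_neg hx, hd]
    rw [e]
    exact (hm d).union hn
  · have e : (fun x => evl (fun R => s R x)) ⁻¹' {d} = {x | ∀ᶠ R in atTop, s R x = d} := by
      ext x
      simp only [Set.mem_preimage, Set.mem_singleton_iff, Set.mem_ofPred_eq]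
      constructor
      · intro hx
        by_cases hex : ∃ d : α, ∀ᶠ R in atTop, s R x = d
        · obtain ⟨d', hd'⟩ := hex
          rw [evl_eq hd'] at hx
          rw [← hx]
          exact hd'
        · rw [evl, dif_neg hex] at hx
          exact absurd hx.symm hd
      · intro hx
        exact evl_eq hx
    rw [e]
    exact hm d

theorem haar_val_eq_zero (k v : ℕ) (hv : v < 2 ^ k) :
    haarP ℤ_[2] {z | val k z = v} = haarP ℤ_[2] {z | val k z = 0} := by
  have e : {z : ℤ_[2] | val k z = 0} = (fun z => z + (v : ℤ_[2])) ⁻¹' {z | val k z = v} := by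
    ext z
    simp only [Set.mem_ofPred_eq, Set.mem_preimage, val_add_nat]
    have hz := val_lt k z
    constructor
    · intro h
      rw [h, zero_add, Nat.mod_eq_of_lt hv]
    · intro h
      by_cases h' : val k z + v < 2 ^ k
      · rw [Nat.mod_eq_of_lt h'] at h
        omega
      · rw [Nat.mod_eq_sub_mod (by omega), Nat.mod_eq_of_lt (by omega)] at h
        omega
  rw [e, measure_preimage_add_right]

/-- every residue class has measure `2^{-k}` -/
theorem haar_val (k v : ℕ) (hv : v < 2 ^ k) :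
    haarP ℤ_[2] {z | val k z = v} = ((2 : ENNReal) ^ k)⁻¹ := by
  rw [haar_val_eq_zero k v hv]
  have h1 : (1 : ENNReal) = ∑ v ∈ Finset.range (2 ^ k), haarP ℤ_[2] {z | val k z = v} := by
    rw [← measure_biUnion_finset]
    · have e : (⋃ v ∈ Finset.range (2 ^ k), {z : ℤ_[2] | val k z = v}) = Set.univ := by
        rw [Set.eq_univ_iff_forall]
        intro z
        simp only [Set.mem_iUnion, Set.mem_ofPred_eq, Finset.mem_range]
        exact ⟨val k z, val_lt k z, rfl⟩
      rw [e, measure_univ]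
    · intro a _ b _ hab
      rw [Function.onFun, Set.disjoint_left]
      intro z hz hz'
      exact hab (hz.symm.trans hz')
    · intro b _
      exact (isOpen_val_fibre k b).measurableSet
  have h2 : ∀ v ∈ Finset.range (2 ^ k), haarP ℤ_[2] {z | val k z = v} =
      haarP ℤ_[2] {z | val k z = 0} := fun v hv => haar_val_eq_zero k v (Finset.mem_range.mp hv)
  rw [Finset.sum_congr rfl h2, Finset.sum_const, Finset.card_range, nsmul_eq_mul] at h1
  push_cast at h1
  rw [mul_comm] at h1
  exact ENNReal.eq_inv_of_mul_eq_one_left h1.symm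

theorem haar_val_gt (k t : ℕ) (ht : t ≤ 2 ^ k) :
    haarP ℤ_[2] {z | ¬ (val k z + t ≤ 2 ^ k)} ≤ t * ((2 : ENNReal) ^ k)⁻¹ := by
  have hsub : {z : ℤ_[2] | ¬ (val k z + t ≤ 2 ^ k)} ⊆
      ⋃ v ∈ Finset.Ioo (2 ^ k - t) (2 ^ k), {z : ℤ_[2] | val k z = v} := by
    intro z hz
    simp only [Set.mem_ofPred_eq, not_le] at hz
    simp only [Set.mem_iUnion, Set.mem_ofPred_eq, Finset.mem_Ioo]
    exact ⟨val k z, ⟨by omega, val_lt k z⟩, rfl⟩
  refine (measure_mono hsub).trans ((measure_biUnion_finset_le _ _).trans ?_)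
  have h2 : ∀ v ∈ Finset.Ioo (2 ^ k - t) (2 ^ k), haarP ℤ_[2] {z | val k z = v} =
      ((2 : ENNReal) ^ k)⁻¹ := fun v hv => haar_val k v (Finset.mem_Ioo.mp hv).2
  rw [Finset.sum_congr rfl h2, Finset.sum_const, nsmul_eq_mul, Nat.card_Ioo]
  gcongr
  omega

theorem measurableSet_G0 : MeasurableSet G0 := by
  refine measurableSet_ev fun J => ?_
  have h : Measurable (fun z => val (cPos J) z + 2 ^ sPos J) := (measurable_val _).add_const _
  exact measurableSet_le h measurable_const

theorem measurableSet_GG : MeasurableSet GG := by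
  have e : GG = ⋂ n : ℤ, (fun z : ℤ_[2] => z + (n : ℤ_[2])) ⁻¹' G0 := by
    ext z
    simp only [GG, Set.mem_ofPred_eq, Set.mem_iInter, Set.mem_preimage]
  rw [e]
  exact MeasurableSet.iInter fun n =>
    (continuous_id.add continuous_const).measurable measurableSet_G0

theorem ae_mem_G0 : ∀ᵐ z ∂(haarP ℤ_[2]), z ∈ G0 := by
  have h0 := measure_setOfPred_frequently_eq_zero (μ := haarP ℤ_[2])
    (p := fun (J : ℕ) (z : ℤ_[2]) => ¬ (val (cPos J) z + 2 ^ sPos J ≤ 2 ^ cPos J)) ?_
  · rw [ae_iff]
    refine measure_mono_null ?_ h0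
    intro z hz
    simp only [G0, Set.mem_ofPred_eq, not_eventually] at hz
    exact hz
  · have hb : ∀ J, haarP ℤ_[2] {z | ¬ (val (cPos J) z + 2 ^ sPos J ≤ 2 ^ cPos J)} ≤
        (2⁻¹ : ENNReal) ^ (J + 1) := by
      intro J
      have hle : 2 ^ sPos J ≤ 2 ^ cPos J := Nat.pow_le_pow_right (by norm_num) (by
        rw [cPos]; omega)
      refine (haar_val_gt _ _ hle).trans (le_of_eq ?_)
      rw [cPos, pow_add, ENNReal.mul_inv (Or.inr (by finiteness)) (Or.inl (by finiteness)),
        ← mul_assoc]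
      push_cast
      rw [ENNReal.mul_inv_cancel (by positivity) (by finiteness), one_mul, ENNReal.inv_pow]
    refine ne_top_of_le_ne_top ?_ (ENNReal.tsum_le_tsum hb)
    have h1 : (∑' J : ℕ, (2⁻¹ : ENNReal) ^ (J + 1)) = 1 := by
      simp_rw [pow_succ]
      rw [ENNReal.tsum_mul_right, ENNReal.tsum_geometric, ENNReal.one_sub_inv_two, inv_inv]
      exact ENNReal.mul_inv_cancel (by norm_num) (by norm_num)
    rw [h1]
    exact ENNReal.one_ne_top

theorem ae_mem_GG : ∀ᵐ z ∂(haarP ℤ_[2]), z ∈ GG := by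
  have h : ∀ n : ℤ, ∀ᵐ z ∂(haarP ℤ_[2]), z + (n : ℤ_[2]) ∈ G0 := fun n =>
    (measurePreserving_add_right (haarP ℤ_[2]) (n : ℤ_[2])).quasiMeasurePreserving.ae ae_mem_G0
  exact ae_all_iff.mpr h

theorem ae_mem_GG' : ∀ᵐ x ∂muX, x.1 ∈ GG :=
  Measure.quasiMeasurePreserving_fst.ae ae_mem_GG

end Pool.MPe5a66a
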