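import Pool.Agent.Lib_MP_e5a66a_an.Base

/-! Piece 7: maximal ergodic inequality and the good set. Independent of the other pieces. -/

open MeasureTheory Filter Topology

namespace Pool.MPe5a66a

namespace Maxi

theorem cnt_eq_sum (S : Set ℕ) (N : ℕ) :
    (cnt S N : ℝ) = ∑ n ∈ Finset.range N, S.indicator (fun _ => (1 : ℝ)) n := by
  classical
  have h : S ∩ Set.Iio N = ((Finset.range N).filter (· ∈ S) : Finset ℕ) := by
    ext n
    simp [and_comm]
  unfold cnt
  rw [h, Set.ncard_coe_finset, Finset.card_filter, Nat.cast_sum]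
  apply Finset.sum_congr rfl
  intro n _
  by_cases hn : n ∈ S <;> simp [hn]

variable {X : Type}

/-- the indicator of `B` minus `τ` -/
noncomputable def ff (B : Set X) (τ : ℝ) (x : X) : ℝ := B.indicator (fun _ => (1 : ℝ)) x - τ

/-- maximal function -/
noncomputable def MM (T : X → X) (B : Set X) (τ : ℝ) : ℕ → X → ℝ
  | 0 => fun _ => 0
  | N + 1 => fun x => max 0 (ff B τ x + MM T B τ N (T x))

theorem MM_nonneg (T : X → X) (B : Set X) (τ : ℝ) (N : ℕ) (x : X) : 0 ≤ MM T B τ N x := by
  cases N with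
  | zero => exact le_rfl
  | succ N => exact le_max_left _ _

theorem MM_mono_succ (T : X → X) (B : Set X) (τ : ℝ) (N : ℕ) (x : X) :
    MM T B τ N x ≤ MM T B τ (N + 1) x := by
  induction N generalizing x with
  | zero => exact MM_nonneg T B τ 1 x
  | succ N ih =>
    show max 0 (ff B τ x + MM T B τ N (T x)) ≤ max 0 (ff B τ x + MM T B τ (N + 1) (T x))
    exact max_le_max le_rfl (by linarith [ih (T x)])

theorem MM_mono (T : X → X) (B : Set X) (τ : ℝ) (x : X) : Monotone fun N => MM T B τ N x :=
  monotone_nat_of_le_succ fun N => MM_mono_succ T B τ N x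

theorem cnt_shift (T : X → X) (B : Set X) (N : ℕ) (x : X) :
    (cnt {n | T^[n] x ∈ B} (N + 1) : ℝ) =
      B.indicator (fun _ => (1 : ℝ)) x + cnt {n | T^[n] (T x) ∈ B} N := by
  classical
  rw [cnt_eq_sum, cnt_eq_sum, Finset.sum_range_succ', add_comm]
  congr 1

theorem sum_le_MM (T : X → X) (B : Set X) (τ : ℝ) (N : ℕ) (x : X) :
    (cnt {n | T^[n] x ∈ B} N : ℝ) - τ * N ≤ MM T B τ N x := by
  induction N generalizing x with
  | zero =>
    rw [cnt_eq_sum]
    simp [MM]
  | succ N ih =>
    rw [cnt_shift]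
    show _ ≤ max 0 (ff B τ x + MM T B τ N (T x))
    refine le_trans ?_ (le_max_right _ _)
    have := ih (T x)
    unfold ff
    push_cast
    linarith

variable [MeasurableSpace X] {μ : Measure X}

theorem measurable_ff {B : Set X} (hB : MeasurableSet B) (τ : ℝ) : Measurable (ff B τ) :=
  (measurable_const.indicator hB).sub_const τ

theorem measurable_MM {T : X → X} (hT : Measurable T) {B : Set X} (hB : MeasurableSet B) (τ : ℝ)
    (N : ℕ) : Measurable (MM T B τ N) := by
  induction N with
  | zero => exact measurable_const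
  | succ N ih => exact measurable_const.max ((measurable_ff hB τ).add (ih.comp hT))

theorem integrable_ff [IsProbabilityMeasure μ] {B : Set X} (hB : MeasurableSet B) (τ : ℝ) :
    Integrable (ff B τ) μ :=
  ((integrable_const (1 : ℝ)).indicator hB).sub (integrable_const τ)

theorem integrable_MM [IsProbabilityMeasure μ] {T : X → X} (hT : MeasurePreserving T μ μ)
    {B : Set X} (hB : MeasurableSet B) (τ : ℝ) (N : ℕ) : Integrable (MM T B τ N) μ := by
  induction N with
  | zero => exact integrable_const 0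
  | succ N ih =>
    have h1 : Integrable (fun x => MM T B τ N (T x)) μ := hT.integrable_comp_of_integrable ih
    have h2 := ((integrable_ff hB τ).add h1).pos_part
    refine h2.congr ?_
    filter_upwards with x
    show max (ff B τ x + MM T B τ N (T x)) 0 = max 0 (ff B τ x + MM T B τ N (T x))
    exact max_comm _ _

theorem ineq_N [IsProbabilityMeasure μ] {T : X → X} (hT : MeasurePreserving T μ μ)
    {B : Set X} (hB : MeasurableSet B) (τ : ℝ) (N : ℕ) :
    τ * μ.real {x | 0 < MM T B τ (N + 1) x} ≤ μ.real B := by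
  set E : Set X := {x | 0 < MM T B τ (N + 1) x} with hE
  have hEm : MeasurableSet E := measurableSet_lt measurable_const (measurable_MM hT.measurable hB τ _)
  have hMi := integrable_MM hT hB τ (N + 1)
  have hMTi : Integrable (fun x => MM T B τ (N + 1) (T x)) μ := hT.integrable_comp_of_integrable hMi
  have h1 : ∫ x in E, (MM T B τ (N + 1) x - MM T B τ (N + 1) (T x)) ∂μ ≤ ∫ x in E, ff B τ x ∂μ := by
    apply setIntegral_mono_on (hMi.sub hMTi).integrableOn (integrable_ff hB τ).integrableOn hEm
    intro x hx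
    have hx' : 0 < max 0 (ff B τ x + MM T B τ N (T x)) := hx
    have h2 : MM T B τ (N + 1) x = ff B τ x + MM T B τ N (T x) := by
      show max 0 (ff B τ x + MM T B τ N (T x)) = _
      rcases le_total 0 (ff B τ x + MM T B τ N (T x)) with h | h
      · exact max_eq_right h
      · rw [max_eq_left h] at hx'
        exact absurd hx' (lt_irrefl 0)
    have h3 := MM_mono_succ T B τ N (T x)
    show MM T B τ (N + 1) x - MM T B τ (N + 1) (T x) ≤ ff B τ x
    linarith
  have h2 : 0 ≤ ∫ x in E, (MM T B τ (N + 1) x - MM T B τ (N + 1) (T x)) ∂μ := by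
    have e1 : ∫ x, (MM T B τ (N + 1) x - MM T B τ (N + 1) (T x)) ∂μ = 0 := by
      rw [integral_sub hMi hMTi]
      have h5 : ∫ y, MM T B τ (N + 1) y ∂(Measure.map T μ) = ∫ x, MM T B τ (N + 1) (T x) ∂μ :=
        integral_map hT.measurable.aemeasurable
          (measurable_MM hT.measurable hB τ (N + 1)).aestronglyMeasurable
      rw [hT.map_eq] at h5
      rw [sub_eq_zero]
      exact h5
    have e2 := integral_add_compl hEm (hMi.sub hMTi)
    have e3 : ∫ x in Eᶜ, (MM T B τ (N + 1) x - MM T B τ (N + 1) (T x)) ∂μ ≤ 0 := by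
      apply setIntegral_nonpos hEm.compl
      intro x hx
      have hx' : ¬ 0 < MM T B τ (N + 1) x := hx
      have h4 := MM_nonneg T B τ (N + 1) (T x)
      linarith
    have e4 : ∫ x in E, (MM T B τ (N + 1) x - MM T B τ (N + 1) (T x)) ∂μ +
        ∫ x in Eᶜ, (MM T B τ (N + 1) x - MM T B τ (N + 1) (T x)) ∂μ = 0 := by
      rw [← e1]; exact e2
    linarith
  have h3 : ∫ x in E, ff B τ x ∂μ = μ.real (B ∩ E) - τ * μ.real E := by
    unfold ff
    rw [integral_sub ((integrable_const (1 : ℝ)).indicator hB).integrableOn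
      (integrable_const τ).integrableOn]
    rw [integral_indicator hB, setIntegral_const, smul_eq_mul]
    rw [measureReal_restrict_apply hB, setIntegral_const, smul_eq_mul]
    ring
  have h4 : μ.real (B ∩ E) ≤ μ.real B := measureReal_mono Set.inter_subset_left
  linarith

end Maxi

open Maxi in
theorem maximal_ineq {X : Type} [MeasurableSpace X] {μ : Measure X} [IsProbabilityMeasure μ]
    {T : X → X} (hT : MeasurePreserving T μ μ) {B : Set X} (hB : MeasurableSet B) {τ : ℝ}
    (hτ : 0 < τ) :
    τ * μ.real {x | ∃ N : ℕ, τ * N < cnt {n | T^[n] x ∈ B} N} ≤ μ.real B := by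
  set E : ℕ → Set X := fun N => {x | 0 < MM T B τ (N + 1) x} with hE
  have hmono : Monotone E := by
    intro N N' hN x hx
    exact lt_of_lt_of_le hx (MM_mono T B τ x (by omega))
  have hsub : {x | ∃ N : ℕ, τ * N < cnt {n | T^[n] x ∈ B} N} ⊆ ⋃ N, E N := by
    rintro x ⟨N, hN⟩
    rw [Set.mem_iUnion]
    refine ⟨N, ?_⟩
    show 0 < MM T B τ (N + 1) x
    have h1 := sum_le_MM T B τ N x
    have h2 := MM_mono_succ T B τ N x
    linarith
  have hlim : Tendsto (fun N => μ.real (E N)) atTop (𝓝 (μ.real (⋃ N, E N))) := by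
    have := tendsto_measure_iUnion_atTop (μ := μ) hmono
    exact (ENNReal.tendsto_toReal (measure_ne_top μ _)).comp this
  have hle : τ * μ.real (⋃ N, E N) ≤ μ.real B :=
    le_of_tendsto (hlim.const_mul τ) (Eventually.of_forall fun N => ineq_N hT hB τ N)
  have h1 : μ.real {x | ∃ N : ℕ, τ * N < cnt {n | T^[n] x ∈ B} N} ≤ μ.real (⋃ N, E N) :=
    measureReal_mono hsub
  calc _ ≤ τ * μ.real (⋃ N, E N) := mul_le_mul_of_nonneg_left h1 hτ.le
    _ ≤ _ := hle

open Maxi in
theorem exists_good_set {X : Type} [MeasurableSpace X] {μ : Measure X} [IsProbabilityMeasure μ]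
    {T : X → X} (hT : MeasurePreserving T μ μ) {B : ℕ → Set X} (hB : ∀ i, MeasurableSet (B i))
    {τ : ℕ → ℝ} (hτ : ∀ i, 0 < τ i) (hsum : ∀ i, μ.real (B i) ≤ τ i * (1 / 4) ^ (i + 1)) :
    ∃ Good : Set X, MeasurableSet Good ∧ 0 < μ Good ∧
      ∀ x ∈ Good, ∀ i N, (cnt {n | T^[n] x ∈ B i} N : ℝ) ≤ τ i * N := by
  set Bad : ℕ → Set X := fun i => {x | ∃ N : ℕ, τ i * N < cnt {n | T^[n] x ∈ B i} N} with hBad
  have hmeas : ∀ i, MeasurableSet (Bad i) := by
    intro i
    have : Bad i = ⋃ N : ℕ, {x | τ i * N < cnt {n | T^[n] x ∈ B i} N} := by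
      ext x; simp [hBad]
    rw [this]
    apply MeasurableSet.iUnion
    intro N
    apply measurableSet_lt measurable_const
    have e : (fun x => (cnt {n | T^[n] x ∈ B i} N : ℝ)) =
        fun x => ∑ n ∈ Finset.range N, (B i).indicator (fun _ => (1 : ℝ)) (T^[n] x) := by
      funext x
      rw [cnt_eq_sum]
      rfl
    rw [e]
    apply Finset.measurable_fun_sum
    intro n _
    exact (measurable_const.indicator (hB i)).comp (hT.measurable.iterate n)
  have hbound : ∀ i, μ (Bad i) ≤ ENNReal.ofReal ((1 / 4) ^ (i + 1)) := by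
    intro i
    have h1 := maximal_ineq hT (hB i) (hτ i)
    have h2 : μ.real (Bad i) ≤ (1 / 4) ^ (i + 1) :=
      le_of_mul_le_mul_left (h1.trans (hsum i)) (hτ i)
    rw [← ENNReal.ofReal_toReal (measure_ne_top μ (Bad i))]
    exact ENNReal.ofReal_le_ofReal h2
  have htot : μ (⋃ i, Bad i) < 1 := by
    calc μ (⋃ i, Bad i) ≤ ∑' i, μ (Bad i) := measure_iUnion_le _
      _ ≤ ∑' i : ℕ, ENNReal.ofReal ((1 / 4) ^ (i + 1)) := ENNReal.tsum_le_tsum hbound
      _ = ENNReal.ofReal (∑' i : ℕ, (1 / 4 : ℝ) ^ (i + 1)) := by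
          rw [ENNReal.ofReal_tsum_of_nonneg]
          · intro i; positivity
          · exact (summable_nat_add_iff 1).mpr
              (summable_geometric_of_lt_one (by norm_num) (by norm_num))
      _ = ENNReal.ofReal (1 / 3) := by
          have : ∑' i : ℕ, (1 / 4 : ℝ) ^ (i + 1) = 1 / 3 := by
            simp_rw [pow_succ]
            rw [tsum_mul_right, tsum_geometric_of_lt_one (by norm_num) (by norm_num)]
            norm_num
          rw [this]
      _ < 1 := by
          rw [← ENNReal.ofReal_one]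
          exact (ENNReal.ofReal_lt_ofReal_iff (by norm_num)).mpr (by norm_num)
  refine ⟨(⋃ i, Bad i)ᶜ, (MeasurableSet.iUnion hmeas).compl, ?_, ?_⟩
  · rw [prob_compl_eq_one_sub (MeasurableSet.iUnion hmeas)]
    exact tsub_pos_of_lt htot
  · intro x hx i N
    by_contra hcon
    push Not at hcon
    apply hx
    rw [Set.mem_iUnion]
    exact ⟨i, N, hcon⟩

end Pool.MPe5a66a
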