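import Pool.Agent.Lib_MP_e5a66a_an.Haar

/-! Piece 3: the base system `TX`. May use all statements of `Bits.lean`, `Haar.lean`. -/

open MeasureTheory Filter Topology

namespace Pool.MPe5a66a

instance instProbMuX : IsProbabilityMeasure muX := by
  unfold muX; infer_instance

theorem del_eventually {z : ℤ_[2]} (hz : z ∈ GG) (n : ℕ) :
    ∀ᶠ R in atTop, gam R (z + n) ^^^ gam R z = del n z := by
  have h1 := GG_spec hz
  have h2 : ∀ᶠ J in atTop, n < 2 ^ sPos J := by
    filter_upwards [eventually_ge_atTop n] with J hJ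
    calc n < 2 ^ n := Nat.lt_two_pow_self
      _ ≤ 2 ^ sPos J := by
        apply Nat.pow_le_pow_right (by norm_num)
        have := le_aPos J
        have := aPos_lt_sPos J
        omega
  obtain ⟨J, hJ1, hJ2⟩ := (h1.and h2).exists
  have h3 : ∀ᶠ R in atTop, gam R (z + n) ^^^ gam R z = gam J (z + n) ^^^ gam J z := by
    filter_upwards [eventually_ge_atTop J] with R hR
    apply Nat.eq_of_testBit_eq
    intro i
    rw [Nat.testBit_xor, Nat.testBit_xor, gam_testBit, gam_testBit, gam_testBit, gam_testBit]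
    by_cases hi : i < J
    · have : i < R := by omega
      simp [hi, this]
    · have hc : cPos J ≤ cPos i := cPos_strictMono.monotone (by omega)
      have := hJ1 n hJ2 (cPos i) hc
      rw [this]
      simp [hi]
  have h4 : del n z = gam J (z + n) ^^^ gam J z := evl_eq h3
  rw [h4]
  exact h3

theorem del_testBit {z : ℤ_[2]} (hz : z ∈ GG) (n J : ℕ) :
    (del n z).testBit J = (bit (cPos J) (z + n) ^^ bit (cPos J) z) := by
  obtain ⟨R, h1, h2⟩ := ((del_eventually hz n).and (eventually_gt_atTop J)).exists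
  rw [← h1, Nat.testBit_xor, gam_testBit, gam_testBit]
  simp [h2]

theorem del_zero {z : ℤ_[2]} (hz : z ∈ GG) : del 0 z = 0 := by
  apply Nat.eq_of_testBit_eq
  intro i
  rw [del_testBit hz]
  simp

theorem del_succ {z : ℤ_[2]} (hz : z ∈ GG) (n : ℕ) :
    del (n + 1) z = del 1 (z + n) ^^^ del n z := by
  apply Nat.eq_of_testBit_eq
  intro i
  have hz' : z + n ∈ GG := (add_nat_mem_GG z n).2 hz
  rw [Nat.testBit_xor, del_testBit hz, del_testBit hz', del_testBit hz]
  have : z + ((n + 1 : ℕ) : ℤ_[2]) = z + (n : ℤ_[2]) + ((1 : ℕ) : ℤ_[2]) := by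
    push_cast; ring
  rw [this]
  cases bit (cPos i) (z + ↑n + ((1 : ℕ) : ℤ_[2])) <;> cases bit (cPos i) (z + ↑n) <;>
    cases bit (cPos i) z <;> rfl

theorem del_lt {z : ℤ_[2]} (hz : z ∈ GG) :
    ∀ᶠ J in atTop, ∀ n : ℕ, n < 2 ^ sPos J → del n z < 2 ^ J := by
  filter_upwards [GG_spec hz] with J hJ n hn
  apply Nat.lt_pow_two_of_testBit
  intro i hi
  rw [del_testBit hz, hJ n hn (cPos i) (cPos_strictMono.monotone hi)]
  simp

theorem measurable_del (n : ℕ) : Measurable (del n) := by
  unfold del
  apply measurable_evl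
  intro R
  have h1 : Measurable (fun z : ℤ_[2] => gam R (z + n)) :=
    (measurable_gam R).comp (measurable_add_const (n : ℤ_[2]))
  have h2 : Measurable (fun z : ℤ_[2] => gam R z) := measurable_gam R
  have h3 : Measurable (fun p : ℕ × ℕ => p.1 ^^^ p.2) := measurable_of_countable _
  exact h3.comp (h1.prodMk h2)

theorem xor_xor_cancel' (a d : ℕ) : (a ^^^ d) ^^^ d = a := by
  rw [Nat.xor_assoc, Nat.xor_self, Nat.xor_zero]

/-- reindexing as an additive hom -/
def reindexHom (d : ℕ) : WW →+ WW where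
  toFun w := fun p : ℕ × ℕ => w (p.1 ^^^ d, p.2)
  map_zero' := by funext p; rfl
  map_add' := by intro a b; funext p; rfl

theorem measurePreserving_reindex (d : ℕ) :
    MeasurePreserving (fun w : WW => fun p : ℕ × ℕ => w (p.1 ^^^ d, p.2)) (haarP WW) (haarP WW) := by
  have hc : Continuous (reindexHom d) := by
    apply continuous_pi
    intro p
    exact continuous_apply (p.1 ^^^ d, p.2)
  have hs : Function.Surjective (reindexHom d) := by
    intro w
    refine ⟨reindexHom d w, ?_⟩
    funext p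
    show w ((p.1 ^^^ d) ^^^ d, p.2) = w p
    rw [xor_xor_cancel']
  have h := AddMonoidHom.measurePreserving (μ := haarP WW) (ν := haarP WW) hc hs (by
    rw [measure_univ])
  exact h

theorem measurable_joint (δ : ℤ_[2] → ℕ) (hδ : Measurable δ) :
    Measurable (fun x : ℤ_[2] × WW => fun p : ℕ × ℕ => x.2 (p.1 ^^^ δ x.1, p.2)) := by
  apply measurable_pi_lambda
  intro p
  have h1 : Measurable (fun y : ℕ × WW => y.2 (p.1 ^^^ y.1, p.2)) := by
    apply measurable_from_prod_countable_right
    intro n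
    exact measurable_pi_apply (p.1 ^^^ n, p.2)
  exact h1.comp ((hδ.comp measurable_fst).prodMk measurable_snd)

theorem measurePreserving_TX : MeasurePreserving TX muX muX := by
  have h1 : MeasurePreserving (fun z : ℤ_[2] => z + 1) (haarP ℤ_[2]) (haarP ℤ_[2]) :=
    measurePreserving_add_right _ 1
  exact h1.skew_product (μc := haarP WW) (μd := haarP WW)
    (g := fun (z : ℤ_[2]) (w : WW) => fun p : ℕ × ℕ => w (p.1 ^^^ del 1 z, p.2))
    (measurable_joint (del 1) (measurable_del 1))
    (Eventually.of_forall fun z => (measurePreserving_reindex (del 1 z)).map_eq)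

theorem TX_iterate_fst (n : ℕ) (x : XX) : (TX^[n] x).1 = x.1 + n := by
  induction n with
  | zero => simp
  | succ n ih =>
    rw [Function.iterate_succ_apply']
    show (TX^[n] x).1 + 1 = _
    rw [ih]
    push_cast
    ring

theorem TX_iterate {x : XX} (hx : x.1 ∈ GG) (n : ℕ) :
    TX^[n] x = (x.1 + n, fun p => x.2 (p.1 ^^^ del n x.1, p.2)) := by
  induction n with
  | zero =>
    rw [del_zero hx]
    simp
  | succ n ih =>
    rw [Function.iterate_succ_apply', ih]
    unfold TX
    apply Prod.ext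
    · show x.1 + (n : ℤ_[2]) + 1 = x.1 + ((n + 1 : ℕ) : ℤ_[2])
      push_cast
      ring
    · funext p
      show x.2 ((p.1 ^^^ del 1 (x.1 + (n : ℤ_[2]))) ^^^ del n x.1, p.2)
        = x.2 (p.1 ^^^ del (n + 1) x.1, p.2)
      rw [del_succ hx, Nat.xor_assoc]

theorem measurePreserving_translate (ξ : WW) :
    MeasurePreserving (fun x : XX => (x.1, x.2 + ξ)) muX muX := by
  have h1 : MeasurePreserving (id : ℤ_[2] → ℤ_[2]) (haarP ℤ_[2]) (haarP ℤ_[2]) :=
    MeasurePreserving.id _
  have h2 : MeasurePreserving (fun w : WW => w + ξ) (haarP WW) (haarP WW) :=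
    measurePreserving_add_right _ ξ
  exact h1.prod h2

end Pool.MPe5a66a
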