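import Pool.Agent.Lib_MP_e5a66a_an.YMain

/-! Piece 13: completing Borel systems. Independent of the construction. -/

open MeasureTheory Filter Topology

namespace Pool.MPe5a66a

theorem measurePreserving_completion {X Y : Type} [MeasurableSpace X] [MeasurableSpace Y]
    {μ : Measure X} {ν : Measure Y} {π : Y → X} (hπ : MeasurePreserving π ν μ) :
    @MeasurePreserving (NullMeasurableSpace Y ν) (NullMeasurableSpace X μ) _ _ π
      ν.completion μ.completion := by
  have hm : @Measurable (NullMeasurableSpace Y ν) (NullMeasurableSpace X μ) _ _ π := by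
    intro s hs
    exact NullMeasurableSet.preimage hs hπ.quasiMeasurePreserving
  refine ⟨hm, ?_⟩
  refine Measure.ext ?_
  intro s hs
  rw [Measure.map_apply hm hs]
  exact hπ.measure_preimage hs

theorem exists_between {X : Type} [MeasurableSpace X] {μ : Measure X} {s : Set X}
    (hs : NullMeasurableSet s μ) : ∃ t₁ t₂, MeasurableSet t₁ ∧ MeasurableSet t₂ ∧
      t₁ ⊆ s ∧ s ⊆ t₂ ∧ μ (t₂ \ t₁) = 0 := by
  obtain ⟨t₁, h1, hm1, he1⟩ := hs.exists_measurable_subset_ae_eq
  obtain ⟨t₂, h2, hm2, he2⟩ := hs.exists_measurable_superset_ae_eq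
  exact ⟨t₁, t₂, hm1, hm2, h1, h2, ae_le_set.1 (he2.trans he1.symm).le⟩

/-- the system given by a Borel map of a standard Borel probability space (with the completed
σ-algebra) -/
noncomputable def ofBorel (X : Type) [MeasurableSpace X] [StandardBorelSpace X] (μ : Measure X)
    [IsProbabilityMeasure μ] (T : X → X) (hT : MeasurePreserving T μ μ) : System where
  carrier := X
  mspace := (inferInstance : MeasurableSpace (NullMeasurableSpace X μ))
  μ := μ.completion
  isProb := by
    refine ⟨?_⟩
    exact (measure_univ : μ Set.univ = 1)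
  isComplete := by
    exact (inferInstance : μ.completion.IsComplete)
  standard := by
    refine ⟨(inferInstance : MeasurableSpace X), inferInstance, ?_, ?_⟩
    · intro s hs
      exact MeasurableSet.nullMeasurableSet hs
    · intro s hs
      exact exists_between hs
  T := T
  preserving := measurePreserving_completion hT

/-- what has to be proved about a Borel system to get all four notions of chaos -/
def BorelChaos {X : Type} [MeasurableSpace X] (μ : Measure X) (T : X → X) : Prop :=
  ∀ P : ℕ → X → ℕ, (∀ k, (Set.range (P k)).Finite) →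
    (∀ k i, NullMeasurableSet (P k ⁻¹' {i}) μ) →
    (∀ k x y, P (k + 1) x = P (k + 1) y → P k x = P k y) →
    (∀ s : Set X, MeasurableSet s →
      MeasurableSet[MeasurableSpace.generateFrom (atoms P ∪ {s | μ s = 0})] s) →
    ∃ E : Set X, ¬ E.Countable ∧ ∃ κ : ℝ → ℕ, ∀ x ∈ E, ∀ y ∈ E, x ≠ y →
      Proximal T P x y ∧ ∀ η : ℝ, 0 < η → η < 1 → Separated T P x y (κ η) η

theorem hasChaos_ofBorel {X : Type} [MeasurableSpace X] [StandardBorelSpace X] {μ : Measure X}
    [IsProbabilityMeasure μ] {T : X → X} (hT : MeasurePreserving T μ μ) (h : BorelChaos μ T)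
    (R : Reading) (c : Notion) : HasChaos R c (ofBorel X μ T hT) := by
  intro P hP
  obtain ⟨E, hE, κ, hκ⟩ := h P hP.finite hP.measurable hP.refines (by
    intro s hs
    have hs' : MeasurableSet[(ofBorel X μ T hT).mspace] s := MeasurableSet.nullMeasurableSet hs
    have hgen := hP.generates
    cases R with
    | allNull =>
      have hgen' : (ofBorel X μ T hT).mspace =
          MeasurableSpace.generateFrom (atoms P ∪ {s | (ofBorel X μ T hT).μ s = 0}) := hgen
      rw [hgen'] at hs'
      exact hs'
    | ownNull =>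
      obtain ⟨t₁, t₂, h1, h2, hs1, hs2, h0⟩ := hgen s hs'
      have hle : MeasurableSpace.generateFrom (atoms P) ≤
          MeasurableSpace.generateFrom (atoms P ∪ {s | μ s = 0}) :=
        MeasurableSpace.generateFrom_mono Set.subset_union_left
      have hn : μ (s \ t₁) = 0 :=
        measure_mono_null (Set.sdiff_subset_sdiff_left hs2) h0
      have hmn : MeasurableSet[MeasurableSpace.generateFrom (atoms P ∪ {s | μ s = 0})] (s \ t₁) :=
        MeasurableSpace.measurableSet_generateFrom (Or.inr hn)
      have := (hle t₁ h1).union hmn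
      rwa [Set.union_sdiff_cancel hs1] at this)
  refine ⟨E, hE, ?_⟩
  cases c with
  | chaos =>
    intro x hx y hy hxy
    obtain ⟨h1, h2⟩ := hκ x hx y hy hxy
    exact ⟨h1, κ (1 / 2), 1 / 2, by norm_num, h2 (1 / 2) (by norm_num) (by norm_num)⟩
  | chaosPlus =>
    intro x hx y hy hxy
    obtain ⟨h1, h2⟩ := hκ x hx y hy hxy
    exact ⟨h1, fun η h3 h4 => ⟨κ η, h2 η h3 h4⟩⟩
  | uniformChaos =>
    refine ⟨κ (1 / 2), 1 / 2, by norm_num, ?_⟩
    intro x hx y hy hxy
    obtain ⟨h1, h2⟩ := hκ x hx y hy hxy
    exact ⟨h1, h2 (1 / 2) (by norm_num) (by norm_num)⟩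
  | uniformChaosPlus => exact ⟨κ, hκ⟩

theorem refining_ofBorel {Y : Type} [MeasurableSpace Y] [StandardBorelSpace Y] {ν : Measure Y}
    [IsProbabilityMeasure ν] {S : Y → Y} (hS : MeasurePreserving S ν ν) {Q : ℕ → Y → ℕ}
    (h : BadSeq ν S Q) (R : Reading) : Refining R (ofBorel Y ν S hS) Q where
  finite := h.finite
  measurable := by
    intro k i
    have : MeasurableSet (Q k ⁻¹' {i}) := h.measurable k (measurableSet_singleton i)
    exact this.nullMeasurableSet
  refines := h.refines
  generates := by
    obtain ⟨D, hD, hD0, hDs⟩ := h.generates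
    have hle0 : MeasurableSpace.generateFrom (atoms Q) ≤ (inferInstance : MeasurableSpace Y) := by
      refine MeasurableSpace.generateFrom_le ?_
      rintro s ⟨k, i, rfl⟩
      exact h.measurable k (measurableSet_singleton i)
    have hDm : MeasurableSet D := hle0 D hD
    have key : ∀ s : Set Y, NullMeasurableSet s ν →
        ∃ t₁ t₂, MeasurableSet[MeasurableSpace.generateFrom (atoms Q)] t₁ ∧
        MeasurableSet[MeasurableSpace.generateFrom (atoms Q)] t₂ ∧
        t₁ ⊆ s ∧ s ⊆ t₂ ∧ ν (t₂ \ t₁) = 0 := by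
      intro s hs
      obtain ⟨a, b, ha, hb, has, hsb, hab⟩ := exists_between hs
      refine ⟨a ∩ D, (b ∩ D) ∪ Dᶜ, hDs _ Set.inter_subset_right (ha.inter hDm),
        (hDs _ Set.inter_subset_right (hb.inter hDm)).union hD.compl,
        Set.inter_subset_left.trans has, ?_, ?_⟩
      · intro x hx
        by_cases hxD : x ∈ D
        · exact Or.inl ⟨hsb hx, hxD⟩
        · exact Or.inr hxD
      · refine measure_mono_null ?_ (measure_union_null hab hD0)
        rintro x ⟨hx1, hx2⟩
        rcases hx1 with ⟨hxb, hxD⟩ | hxD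
        · exact Or.inl ⟨hxb, fun hxa => hx2 ⟨hxa, hxD⟩⟩
        · exact Or.inr hxD
    cases R with
    | allNull =>
      show (ofBorel Y ν S hS).mspace =
        MeasurableSpace.generateFrom (atoms Q ∪ {s | (ofBorel Y ν S hS).μ s = 0})
      have hle : MeasurableSpace.generateFrom (atoms Q) ≤
          MeasurableSpace.generateFrom (atoms Q ∪ {s | ν s = 0}) :=
        MeasurableSpace.generateFrom_mono Set.subset_union_left
      apply le_antisymm
      · intro s hs
        obtain ⟨t₁, t₂, h1, h2, hs1, hs2, h0⟩ := key s hs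
        have hn : ν (s \ t₁) = 0 :=
          measure_mono_null (Set.sdiff_subset_sdiff_left hs2) h0
        have hmn : MeasurableSet[MeasurableSpace.generateFrom (atoms Q ∪ {s | ν s = 0})]
            (s \ t₁) := MeasurableSpace.measurableSet_generateFrom (Or.inr hn)
        have := (hle t₁ h1).union hmn
        rw [Set.union_sdiff_cancel hs1] at this
        exact this
      · refine MeasurableSpace.generateFrom_le ?_
        rintro s (⟨k, i, rfl⟩ | hs)
        · have : MeasurableSet (Q k ⁻¹' {i}) := h.measurable k (measurableSet_singleton i)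
          exact this.nullMeasurableSet
        · have hs' : ν s = 0 := hs
          exact NullMeasurableSet.of_null hs'
    | ownNull => exact key

theorem not_hasChaos_ofBorel {Y : Type} [MeasurableSpace Y] [StandardBorelSpace Y] {ν : Measure Y}
    [IsProbabilityMeasure ν] {S : Y → Y} (hS : MeasurePreserving S ν ν) {Q : ℕ → Y → ℕ}
    (h : BadSeq ν S Q) (R : Reading) (c : Notion) : ¬ HasChaos R c (ofBorel Y ν S hS) := by
  intro hc
  obtain ⟨E, hE, hs⟩ := hc Q (refining_ofBorel hS h R)
  have h2 : ∃ x ∈ E, ∃ y ∈ E, x ≠ y := by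
    by_contra hcon
    push Not at hcon
    apply hE
    apply Set.Subsingleton.countable
    intro x hx y hy
    exact hcon x hx y hy
  obtain ⟨x, hx, y, hy, hxy⟩ := h2
  cases c with
  | chaos =>
    obtain ⟨h1, k, η, hη, h2⟩ := hs x hx y hy hxy
    exact h.notScrambled x y h1 k η hη h2
  | chaosPlus =>
    obtain ⟨h1, h2⟩ := hs x hx y hy hxy
    obtain ⟨k, h3⟩ := h2 (1 / 2) (by norm_num) (by norm_num)
    exact h.notScrambled x y h1 k (1 / 2) (by norm_num) h3
  | uniformChaos =>
    obtain ⟨k, η, hη, hh⟩ := hs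
    obtain ⟨h1, h2⟩ := hh x hx y hy hxy
    exact h.notScrambled x y h1 k η hη h2
  | uniformChaosPlus =>
    obtain ⟨κ, hh⟩ := hs
    obtain ⟨h1, h2⟩ := hh x hx y hy hxy
    exact h.notScrambled x y h1 _ (1 / 2) (by norm_num) (h2 (1 / 2) (by norm_num) (by norm_num))

theorem isFactor_ofBorel {X Y : Type} [MeasurableSpace X] [StandardBorelSpace X]
    [MeasurableSpace Y] [StandardBorelSpace Y] {μ : Measure X} [IsProbabilityMeasure μ]
    {ν : Measure Y} [IsProbabilityMeasure ν] {T : X → X} (hT : MeasurePreserving T μ μ)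
    {S : Y → Y} (hS : MeasurePreserving S ν ν) {π : Y → X} (hπ : MeasurePreserving π ν μ)
    (h : ∀ y, π (S y) = T (π y)) : IsFactor (ofBorel X μ T hT) (ofBorel Y ν S hS) := by
  have h1 := measurePreserving_completion hπ
  exact ⟨π, h1, Filter.Eventually.of_forall h⟩

end Pool.MPe5a66a
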