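import Pool.Agent.Lib_MP_e5a66a_an.Wrap

/-! Ergodicity of completed Borel systems. -/

open MeasureTheory Filter Topology

namespace Pool.MPe5a66a

theorem null_or_conull {X : Type} [MeasurableSpace X] {μ : Measure X}
    {T : X → X} (h : Ergodic T μ) {s : Set X} (hs : NullMeasurableSet s μ)
    (hinv : T ⁻¹' s = s) : μ s = 0 ∨ μ sᶜ = 0 := by
  rcases h.quasiErgodic.ae_empty_or_univ₀ hs (by rw [hinv]) with h1 | h1
  · left
    exact (measure_congr h1).trans measure_empty
  · right
    rw [ae_eq_univ] at h1
    exact h1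

theorem isErgodic_ofBorel {X : Type} [MeasurableSpace X] [StandardBorelSpace X] {μ : Measure X}
    [IsProbabilityMeasure μ] {T : X → X} (hT : MeasurePreserving T μ μ) (h : Ergodic T μ) :
    IsErgodic (ofBorel X μ T hT) := by
  intro s hs hinv
  exact null_or_conull h hs hinv

end Pool.MPe5a66a
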