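import Pool.Agent.Lib_MP_e5a66a_an.Codes
import Pool.Agent.Lib_MP_e5a66a_an.CountX
import Pool.Agent.Lib_MP_e5a66a_an.Fubini
import Pool.Agent.Lib_MP_e5a66a_an.Density
import Pool.Agent.Lib_MP_e5a66a_an.Maximal
import Pool.Agent.Lib_MP_e5a66a_an.Approx
import Pool.Agent.Lib_MP_e5a66a_an.Wrap

/-! Piece 14 (helper37): `TX` is uniformly chaotic in the plus sense. -/

open MeasureTheory Filter Topology

namespace Pool.MPe5a66a

/-- least `k` with `γ < 2^(J k)` -/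
noncomputable def stage (J : ℕ → ℕ) (γ : ℕ) : ℕ := sInf {k | γ < 2 ^ J k}

/-- the perturbation of the scenery -/
noncomputable def Xi (J : ℕ → ℕ) (α : ℕ → ZMod 2) : WW := fun p =>
  open scoped Classical in
  if Odd (stage J p.1) ∧ p.2 < stage J p.1 then
    ∑ i ∈ Finset.range (stage J p.1), α i *
      (if p.1.testBit (J (stage J p.1 - 1) + (stage J p.1 * p.2 + i)) = true then 1 else 0)
  else 0

theorem stage_eq {J : ℕ → ℕ} (hJ : StrictMono J) {k γ : ℕ} (h1 : 2 ^ J k ≤ γ)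
    (h2 : γ < 2 ^ J (k + 1)) : stage J γ = k + 1 := by
  apply le_antisymm
  · exact Nat.sInf_le h2
  · apply le_csInf ⟨k + 1, h2⟩
    intro m hm
    have h3 : 2 ^ J k < 2 ^ J m := lt_of_le_of_lt h1 hm
    have h4 : J k < J m := (Nat.pow_lt_pow_iff_right (by norm_num)).1 h3
    exact hJ.lt_iff_lt.1 h4

theorem measurable_Xi (J : ℕ → ℕ) : Measurable (Xi J) := by
  apply measurable_pi_lambda
  intro p
  unfold Xi
  by_cases h : Odd (stage J p.1) ∧ p.2 < stage J p.1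
  · simp only [if_pos h]
    have : Continuous fun α : ℕ → ZMod 2 => ∑ i ∈ Finset.range (stage J p.1), α i *
      (if p.1.testBit (J (stage J p.1 - 1) + (stage J p.1 * p.2 + i)) = true then
        (1 : ZMod 2) else 0) :=
      continuous_finsetSum _ fun i _ => (continuous_apply i).mul continuous_const
    exact this.measurable
  · simp only [if_neg h]
    exact measurable_const

theorem Xi_even {J : ℕ → ℕ} (hJ : StrictMono J) {k γ : ℕ} (hk : Even (k + 1))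
    (h1 : 2 ^ J k ≤ γ) (h2 : γ < 2 ^ J (k + 1)) (α : ℕ → ZMod 2) (j : ℕ) :
    Xi J α (γ, j) = 0 := by
  have h3 := stage_eq hJ h1 h2
  unfold Xi
  rw [if_neg]
  simp only [h3]
  intro h4
  exact (Nat.not_odd_iff_even.2 hk) h4.1

theorem Xi_odd {J : ℕ → ℕ} (hJ : StrictMono J) {k γ : ℕ} (hk : Odd (k + 1))
    (h1 : 2 ^ J k ≤ γ) (h2 : γ < 2 ^ J (k + 1)) (α : ℕ → ZMod 2) {j : ℕ} (hj : j < k + 1) :
    Xi J α (γ, j) = ∑ i ∈ Finset.range (k + 1), α i *
      (if γ.testBit (J k + ((k + 1) * j + i)) = true then 1 else 0) := by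
  have h3 := stage_eq hJ h1 h2
  unfold Xi
  simp only [h3, Nat.add_sub_cancel]
  rw [if_pos ⟨hk, hj⟩]

theorem xor_stage {a k d m p : ℕ} (hm : p < 2 ^ m) (hma : m ≤ a) (hak : a ≤ k) (h1 : 2 ^ a ≤ d)
    (h2 : d < 2 ^ k) : 2 ^ a ≤ p ^^^ d ∧ p ^^^ d < 2 ^ k := by
  have hpa : p < 2 ^ a := lt_of_lt_of_le hm (Nat.pow_le_pow_right (by norm_num) hma)
  have hpk : p < 2 ^ k := lt_of_lt_of_le hpa (Nat.pow_le_pow_right (by norm_num) hak)
  constructor
  · by_contra hcon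
    push Not at hcon
    have h3 : p ^^^ (p ^^^ d) < 2 ^ a := Nat.xor_lt_two_pow hpa hcon
    rw [← Nat.xor_assoc, Nat.xor_self, Nat.zero_xor] at h3
    omega
  · exact Nat.xor_lt_two_pow hpk h2

theorem even_same {R : ℕ → XX → ℕ} (hR : ∀ k x y, R k x = R k y ↔ (val k x.1 = val k y.1 ∧
      ∀ p : ℕ × ℕ, p.1 < k → p.2 < k → x.2 p = y.2 p)) {J : ℕ → ℕ} (hJ : StrictMono J)
    {k m n : ℕ} (hk : Even (k + 1)) (hm : m ≤ J k) {z : ℤ_[2]} (hz : z ∈ GG) (w : WW)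
    (α β : ℕ → ZMod 2) (h1 : 2 ^ J k ≤ del n z) (h2 : del n z < 2 ^ J (k + 1)) :
    R m (TX^[n] (z, w + Xi J α)) = R m (TX^[n] (z, w + Xi J β)) := by
  rw [hR]
  rw [TX_iterate (x := (z, w + Xi J α)) hz, TX_iterate (x := (z, w + Xi J β)) hz]
  refine ⟨rfl, ?_⟩
  intro p hp1 hp2
  have hpm : p.1 < 2 ^ m := lt_of_lt_of_le hp1 (Nat.lt_two_pow_self).le
  obtain ⟨h3, h4⟩ := xor_stage hpm hm (hJ.monotone (Nat.le_succ k)) h1 h2
  simp only [Pi.add_apply]
  rw [Xi_even hJ hk h3 h4 α, Xi_even hJ hk h3 h4 β]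

theorem cnt_small_real {z : ℤ_[2]} (hz : z ∈ GG) {J : ℕ → ℕ} {k : ℕ}
    (hJ : J k + (k + 1) * (k + 1) ≤ J (k + 1)) :
    (cnt {n | del n z < 2 ^ J k} (2 ^ aPos (J (k + 1))) : ℝ) ≤
      (1 / 2) ^ (k + 1) * ((2 ^ aPos (J (k + 1)) : ℕ) : ℝ) := by
  have h1 := count_small hz (J := J (k + 1)) (J' := J k) (by nlinarith)
  have h2 : 2 ^ (k + 1) ≤ 2 ^ (J (k + 1) - J k) := by
    apply Nat.pow_le_pow_right (by norm_num)
    have : k + 1 ≤ (k + 1) * (k + 1) := Nat.le_mul_self _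
    omega
  have h3 : cnt {n | del n z < 2 ^ J k} (2 ^ aPos (J (k + 1))) * 2 ^ (k + 1) ≤
      2 ^ aPos (J (k + 1)) := le_trans (Nat.mul_le_mul_left _ h2) h1
  have h4 : (cnt {n | del n z < 2 ^ J k} (2 ^ aPos (J (k + 1))) : ℝ) * 2 ^ (k + 1) ≤
      ((2 ^ aPos (J (k + 1)) : ℕ) : ℝ) := by exact_mod_cast h3
  rw [one_div, inv_pow, inv_mul_eq_div, le_div_iff₀ (by positivity)]
  exact h4

/-- the counting estimate at an even stage -/
theorem even_estimate {P : ℕ → XX → ℕ}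
    (href : ∀ k x y, P (k + 1) x = P (k + 1) y → P k x = P k y)
    {R : ℕ → XX → ℕ} (hR : ∀ k x y, R k x = R k y ↔ (val k x.1 = val k y.1 ∧
      ∀ p : ℕ × ℕ, p.1 < k → p.2 < k → x.2 p = y.2 p)) {J : ℕ → ℕ} (hJ : StrictMono J)
    {k m k₀ : ℕ} (hk : Even (k + 1)) (hm : m ≤ J k) (hk₀ : k₀ ≤ k + 1)
    (hJ2 : J k + (k + 1) * (k + 1) ≤ J (k + 1))
    {z : ℤ_[2]} (hz : z ∈ GG) (w : WW)
    (α β : ℕ → ZMod 2) {B : Set XX}
    (hB : ∀ x, x ∉ B → ∀ y, y ∉ B → R m x = R m y → P (k + 1) x = P (k + 1) y)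
    {N : ℕ} (hN : N = 2 ^ aPos (J (k + 1)))
    (hdel : ∀ n : ℕ, n < N → del n z < 2 ^ J (k + 1))
    (hα : (cnt {n | TX^[n] (z, w + Xi J α) ∈ B} N : ℝ) ≤ (1 / 2) ^ (k + 1) * N)
    (hβ : (cnt {n | TX^[n] (z, w + Xi J β) ∈ B} N : ℝ) ≤ (1 / 2) ^ (k + 1) * N) :
    (1 - 3 * (1 / 2) ^ (k + 1)) * (N : ℝ) ≤
      cnt {n | P k₀ (TX^[n] (z, w + Xi J α)) = P k₀ (TX^[n] (z, w + Xi J β))} N := by
  have hmono : ∀ a b, a ≤ b → ∀ x y, P b x = P b y → P a x = P a y := by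
    intro a b hab
    induction b, hab using Nat.le_induction with
    | base => intro x y h; exact h
    | succ b _ ih => intro x y h; exact ih x y (href b x y h)
  set S : Set ℕ := {n | P k₀ (TX^[n] (z, w + Xi J α)) = P k₀ (TX^[n] (z, w + Xi J β))} with hS
  have h1 : cnt Sᶜ N ≤ cnt ({n | TX^[n] (z, w + Xi J α) ∈ B} ∪
      ({n | TX^[n] (z, w + Xi J β) ∈ B} ∪ {n | del n z < 2 ^ J k})) N := by
    apply cnt_mono
    intro n hn hnS
    by_contra hcon
    simp only [Set.mem_union, Set.mem_ofPred_eq, not_or, not_lt] at hcon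
    obtain ⟨c1, c2, c3⟩ := hcon
    apply hnS
    rw [hS, Set.mem_ofPred_eq]
    apply hmono _ _ hk₀
    apply hB _ c1 _ c2
    exact even_same hR hJ hk hm hz w α β c3 (hdel n hn)
  have h2 := cnt_union_le {n | TX^[n] (z, w + Xi J α) ∈ B}
      ({n | TX^[n] (z, w + Xi J β) ∈ B} ∪ {n | del n z < 2 ^ J k}) N
  have h3 := cnt_union_le {n | TX^[n] (z, w + Xi J β) ∈ B} {n | del n z < 2 ^ J k} N
  have h4 := cnt_add_compl S N
  have h5 := cnt_small_real hz hJ2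
  rw [← hN] at h5
  have h1' : (cnt Sᶜ N : ℝ) ≤ cnt {n | TX^[n] (z, w + Xi J α) ∈ B} N +
      (cnt {n | TX^[n] (z, w + Xi J β) ∈ B} N + cnt {n | del n z < 2 ^ J k} N) := by
    exact_mod_cast le_trans h1 (le_trans h2 (Nat.add_le_add_left h3 _))
  have h4' : (cnt S N : ℝ) + cnt Sᶜ N = N := by exact_mod_cast h4
  nlinarith

/-- the counting estimate at an odd stage -/
theorem odd_estimate {P F : XX → ℕ} {q : ℕ}
    (hF : ∀ x y, F x = F y → ∀ j < q, x.2 (0, j) = y.2 (0, j))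
    {J : ℕ → ℕ} (hJ : StrictMono J)
    {k i₀ : ℕ} (hk : Odd (k + 1)) (hq : q ≤ k + 1)
    (hJ2 : J k + (k + 1) * (k + 1) ≤ J (k + 1))
    {z : ℤ_[2]} (hz : z ∈ GG) (w : WW)
    {α β : ℕ → ZMod 2} (hi : i₀ < k + 1) (hne : α i₀ ≠ β i₀) {B : Set XX}
    (hB : ∀ x, x ∉ B → ∀ y, y ∉ B → P x = P y → F x = F y)
    {N : ℕ} (hN : N = 2 ^ aPos (J (k + 1)))
    (hdel : ∀ n : ℕ, n < N → del n z < 2 ^ J (k + 1))
    (hα : (cnt {n | TX^[n] (z, w + Xi J α) ∈ B} N : ℝ) ≤ (1 / 2) ^ q * N)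
    (hβ : (cnt {n | TX^[n] (z, w + Xi J β) ∈ B} N : ℝ) ≤ (1 / 2) ^ q * N) :
    (1 - 4 * (1 / 2) ^ q) * (N : ℝ) ≤
      cnt {n | P (TX^[n] (z, w + Xi J α)) ≠ P (TX^[n] (z, w + Xi J β))} N := by
  set S : Set ℕ := {n | P (TX^[n] (z, w + Xi J α)) ≠ P (TX^[n] (z, w + Xi J β))} with hS
  set L : Set ℕ := {n | ∀ j < q, ∑ i ∈ Finset.range (k + 1),
      (α i - β i) * (if (del n z).testBit (J k + ((k + 1) * j + i)) = true then 1 else 0) = 0}
    with hL
  have h1 : cnt Sᶜ N ≤ cnt ({n | TX^[n] (z, w + Xi J α) ∈ B} ∪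
      ({n | TX^[n] (z, w + Xi J β) ∈ B} ∪ ({n | del n z < 2 ^ J k} ∪ L))) N := by
    apply cnt_mono
    intro n hn hnS
    by_contra hcon
    simp only [Set.mem_union, Set.mem_ofPred_eq, not_or, not_lt] at hcon
    obtain ⟨c1, c2, c3, c4⟩ := hcon
    rw [hS, Set.mem_compl_iff, Set.mem_ofPred_eq, not_not] at hnS
    apply c4
    rw [hL, Set.mem_ofPred_eq]
    have h5 := hF _ _ (hB _ c1 _ c2 hnS)
    intro j hj
    have h6 := h5 j hj
    rw [TX_iterate (x := (z, w + Xi J α)) hz, TX_iterate (x := (z, w + Xi J β)) hz] at h6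
    simp only [Pi.add_apply, Nat.zero_xor] at h6
    rw [Xi_odd hJ hk c3 (hdel n hn) α (lt_of_lt_of_le hj hq),
      Xi_odd hJ hk c3 (hdel n hn) β (lt_of_lt_of_le hj hq)] at h6
    have h7 := add_left_cancel h6
    simp only [sub_mul, Finset.sum_sub_distrib]
    rw [h7, sub_self]
  have h2 := cnt_union_le {n | TX^[n] (z, w + Xi J α) ∈ B}
      ({n | TX^[n] (z, w + Xi J β) ∈ B} ∪ ({n | del n z < 2 ^ J k} ∪ L)) N
  have h3 := cnt_union_le {n | TX^[n] (z, w + Xi J β) ∈ B} ({n | del n z < 2 ^ J k} ∪ L) N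
  have h3' := cnt_union_le {n | del n z < 2 ^ J k} L N
  have h4 := cnt_add_compl S N
  have h5 := cnt_small_real hz hJ2
  rw [← hN] at h5
  have h6 : (cnt L N : ℝ) ≤ (1 / 2) ^ q * N := by
    have h7 := count_linear hz hJ2 hq (fun i => α i - β i) hi (sub_ne_zero.2 hne)
    rw [← hN] at h7
    have h7' : cnt L N * 2 ^ q ≤ N := h7
    have h8 : (cnt L N : ℝ) * 2 ^ q ≤ N := by exact_mod_cast h7'
    rw [one_div, inv_pow, inv_mul_eq_div, le_div_iff₀ (by positivity)]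
    exact h8
  have h7 : ((1 : ℝ) / 2) ^ (k + 1) ≤ (1 / 2) ^ q :=
    pow_le_pow_of_le_one (by norm_num) (by norm_num) hq
  have hN0 : (0 : ℝ) ≤ N := Nat.cast_nonneg _
  have h8 : ((1 : ℝ) / 2) ^ (k + 1) * N ≤ (1 / 2) ^ q * N := mul_le_mul_of_nonneg_right h7 hN0
  have h1' : (cnt Sᶜ N : ℝ) ≤ cnt {n | TX^[n] (z, w + Xi J α) ∈ B} N +
      (cnt {n | TX^[n] (z, w + Xi J β) ∈ B} N + (cnt {n | del n z < 2 ^ J k} N + cnt L N)) := by
    exact_mod_cast le_trans h1 (le_trans h2 (Nat.add_le_add_left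
      (le_trans h3 (Nat.add_le_add_left h3' _)) _))
  have h4' : (cnt S N : ℝ) + cnt Sᶜ N = N := by exact_mod_cast h4
  nlinarith

/-- the schedule -/
def sched (m : ℕ → ℕ) : ℕ → ℕ
  | 0 => m 1
  | k + 1 => sched m k + (k + 1) * (k + 1) + m (k + 2)

theorem sched_strictMono (m : ℕ → ℕ) : StrictMono (sched m) := by
  apply strictMono_nat_of_lt_succ
  intro k
  have : sched m (k + 1) = sched m k + (k + 1) * (k + 1) + m (k + 2) := rfl
  have h2 : k + 1 ≤ (k + 1) * (k + 1) := Nat.le_mul_self _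
  omega

theorem sched_growth (m : ℕ → ℕ) (k : ℕ) :
    sched m k + (k + 1) * (k + 1) ≤ sched m (k + 1) := by
  have : sched m (k + 1) = sched m k + (k + 1) * (k + 1) + m (k + 2) := rfl
  omega

theorem le_sched (m : ℕ → ℕ) (k : ℕ) : m (k + 1) ≤ sched m k := by
  cases k with
  | zero => exact le_rfl
  | succ k =>
    have : sched m (k + 1) = sched m k + (k + 1) * (k + 1) + m (k + 2) := rfl
    have h : m (k + 1 + 1) = m (k + 2) := rfl
    omega

theorem RX_generates {R : ℕ → XX → ℕ} (hRm : ∀ k, Measurable (R k))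
    (hR : ∀ k x y, R k x = R k y ↔ (val k x.1 = val k y.1 ∧
      ∀ p : ℕ × ℕ, p.1 < k → p.2 < k → x.2 p = y.2 p)) (s : Set XX) (hs : MeasurableSet s) :
    MeasurableSet[MeasurableSpace.generateFrom (atoms R ∪ {s | muX s = 0})] s := by
  have h1 : MeasurableSet[MeasurableSpace.generateFrom (atoms R)] s := by
    apply generates_of_injOn hRm MeasurableSet.univ MeasurableSet.univ _ hs (Set.subset_univ _)
    intro x _ y _ h
    apply Prod.ext
    · exact eq_of_val fun k => ((hR k x y).1 (h k)).1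
    · funext p
      exact ((hR (p.1 + p.2 + 1) x y).1 (h _)).2 p (by omega) (by omega)
  exact MeasurableSpace.generateFrom_mono Set.subset_union_left _ h1

theorem RX_refines {R : ℕ → XX → ℕ}
    (hR : ∀ k x y, R k x = R k y ↔ (val k x.1 = val k y.1 ∧
      ∀ p : ℕ × ℕ, p.1 < k → p.2 < k → x.2 p = y.2 p)) (k : ℕ) (x y : XX)
    (h : R (k + 1) x = R (k + 1) y) : R k x = R k y := by
  rw [hR] at h ⊢
  refine ⟨?_, fun p h1 h2 => h.2 p (by omega) (by omega)⟩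
  rw [← val_mod (Nat.le_succ k) x.1, ← val_mod (Nat.le_succ k) y.1]
  have h1 : val (k + 1) x.1 = val (k + 1) y.1 := h.1
  rw [Nat.succ_eq_add_one, h1]

theorem exists_FX (q : ℕ) : ∃ F : XX → ℕ, (Set.range F).Finite ∧ Measurable F ∧
    ∀ x y, F x = F y → ∀ j < q, x.2 (0, j) = y.2 (0, j) := by
  obtain ⟨e, he⟩ := exists_injective_nat (Fin q → ZMod 2)
  refine ⟨fun x => e fun j => x.2 (0, j), ?_, ?_, ?_⟩
  · apply (Set.finite_range e).subset
    rintro _ ⟨x, rfl⟩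
    exact ⟨_, rfl⟩
  · have h1 : Measurable fun x : XX => (fun j : Fin q => x.2 (0, (j : ℕ))) := by
      apply measurable_pi_lambda
      intro j
      exact (measurable_pi_apply (0, (j : ℕ))).comp measurable_snd
    exact (measurable_of_countable e).comp h1
  · intro x y h j hj
    exact congrFun (he h) ⟨j, hj⟩

theorem borelChaos_TX : BorelChaos muX TX := by
  intro P hfin hmeas href hgen
  obtain ⟨R, hRfin, hRm, hR⟩ := exists_RX
  have hRgen := RX_generates hRm hR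
  have hRref := RX_refines hR
  choose F hFfin hFm hF using exists_FX
  have heps : ∀ i : ℕ, (0 : ℝ) < (1 / 2) ^ i * (1 / 4) ^ (i + 1) / 2 := fun i => by positivity
  have h1 := fun i => approx (μ := muX) (fun k j => ((hRm k) (measurableSet_singleton j)).nullMeasurableSet)
    hRref hRgen (hfin i) (hmeas i) (heps i)
  have h2 := fun q => approx (μ := muX) hmeas href hgen (hFfin q)
    (fun i => ((hFm q) (measurableSet_singleton i)).nullMeasurableSet) (heps q)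
  choose m BP hBPm hBPs hBP using h1
  choose κ BQ hBQm hBQs hBQ using h2
  obtain ⟨Good, hGm, hGpos, hGood⟩ := exists_good_set (μ := muX) measurePreserving_TX
    (B := fun i => BP i ∪ BQ i) (fun i => (hBPm i).union (hBQm i))
    (τ := fun i => (1 / 2) ^ i) (fun i => by positivity) (by
      intro i
      have h3 := measureReal_union_le (μ := muX) (BP i) (BQ i)
      have h4 := hBPs i
      have h5 := hBQs i
      linarith)
  set J := sched m with hJdef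
  have hJ := sched_strictMono m
  rw [← hJdef] at hJ
  have hGGm : MeasurableSet {x : XX | x.1 ∈ GG} := measurable_fst measurableSet_GG
  have hpos' : 0 < muX (Good ∩ {x : XX | x.1 ∈ GG}) := by
    have h3 : muX (Good ∩ {x : XX | x.1 ∈ GG}) = muX Good := by
      apply measure_inter_conull
      exact ae_mem_GG'
    rw [h3]
    exact hGpos
  obtain ⟨x₀, hx₀⟩ := exists_uncountable (measurable_Xi J) (hGm.inter hGGm) hpos'
  set U : Set (ℕ → ZMod 2) := {α | (x₀.1, x₀.2 + Xi J α) ∈ Good ∩ {x : XX | x.1 ∈ GG}} with hU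
  obtain ⟨z, w⟩ := x₀
  have hz : z ∈ GG := by
    have h3 : U.Nonempty := by
      rw [Set.nonempty_iff_ne_empty]
      intro h4
      apply hx₀
      rw [h4]
      exact Set.countable_empty
    obtain ⟨α, hα⟩ := h3
    exact hα.2
  have hgoodα : ∀ α ∈ U, ∀ i N, (cnt {n | TX^[n] (z, w + Xi J α) ∈ BP i ∪ BQ i} N : ℝ) ≤
      (1 / 2) ^ i * N := fun α hα i N => hGood _ hα.1 i N
  have hgoodP : ∀ α ∈ U, ∀ i N, (cnt {n | TX^[n] (z, w + Xi J α) ∈ BP i} N : ℝ) ≤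
      (1 / 2) ^ i * N := fun α hα i N => le_trans (by
        exact_mod_cast cnt_mono fun n _ h => Or.inl h) (hgoodα α hα i N)
  have hgoodQ : ∀ α ∈ U, ∀ i N, (cnt {n | TX^[n] (z, w + Xi J α) ∈ BQ i} N : ℝ) ≤
      (1 / 2) ^ i * N := fun α hα i N => le_trans (by
        exact_mod_cast cnt_mono fun n _ h => Or.inr h) (hgoodα α hα i N)
  have hdel : ∀ᶠ k in atTop, ∀ n : ℕ, n < 2 ^ aPos (J (k + 1)) → del n z < 2 ^ J (k + 1) := by
    have h3 := del_lt hz
    have h4 : Tendsto (fun k => J (k + 1)) atTop atTop :=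
      hJ.tendsto_atTop.comp (tendsto_add_atTop_nat 1)
    filter_upwards [h4.eventually h3] with k hk n hn
    apply hk n
    apply lt_of_lt_of_le hn
    apply Nat.pow_le_pow_right (by norm_num)
    have := aPos_lt_sPos (J (k + 1))
    omega
  have hbig : ∀ k, k ≤ 2 ^ aPos (J (k + 1)) := by
    intro k
    have h3 : k + 1 ≤ J (k + 1) := hJ.id_le (k + 1)
    have h4 := le_aPos (J (k + 1))
    have h5 : aPos (J (k + 1)) < 2 ^ aPos (J (k + 1)) := Nat.lt_two_pow_self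
    omega
  -- first condition
  have hprox : ∀ α ∈ U, ∀ β ∈ U, Proximal TX P (z, w + Xi J α) (z, w + Xi J β) := by
    intro α hα β hβ
    apply proximal_of href
    intro k₀
    apply le_upperDensity
    intro ε hε
    rw [frequently_atTop]
    intro K
    have h3 : ∀ᶠ k : ℕ in atTop, 3 * ((1 : ℝ) / 2) ^ (k + 1) ≤ ε := by
      have h4 : Tendsto (fun k : ℕ => 3 * ((1 : ℝ) / 2) ^ (k + 1)) atTop (𝓝 (3 * 0)) :=
        ((tendsto_pow_atTop_nhds_zero_of_lt_one (by norm_num) (by norm_num)).comp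
          (tendsto_add_atTop_nat 1)).const_mul 3
      rw [mul_zero] at h4
      exact h4.eventually (ge_mem_nhds hε)
    obtain ⟨k₁, hk₁⟩ := eventually_atTop.1 (hdel.and h3)
    obtain ⟨k, hk1, hk2, hk3, hk4⟩ : ∃ k, k₁ ≤ k ∧ K ≤ k ∧ k₀ ≤ k + 1 ∧ Even (k + 1) := by
      refine ⟨2 * (k₁ + K + k₀) + 1, by omega, by omega, by omega, ?_⟩
      exact ⟨k₁ + K + k₀ + 1, by omega⟩
    obtain ⟨hd, he⟩ := hk₁ k hk1
    refine ⟨2 ^ aPos (J (k + 1)), le_trans hk2 (hbig k), ?_⟩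
    have h5 := even_estimate href hR hJ hk4 (le_sched m k) hk3 (sched_growth m k) hz w α β
      (hBP (k + 1)) rfl hd (hgoodP α hα _ _) (hgoodP β hβ _ _)
    refine le_trans ?_ h5
    apply mul_le_mul_of_nonneg_right _ (Nat.cast_nonneg _)
    linarith
  -- second condition
  have hsep : ∀ α ∈ U, ∀ β ∈ U, α ≠ β → ∀ η : ℝ, ∀ q : ℕ, 0 < η → η ≤ 1 - 4 * (1 / 2) ^ q →
      Separated TX P (z, w + Xi J α) (z, w + Xi J β) (κ q) η := by
    intro α hα β hβ hne η q hη hq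
    obtain ⟨i₀, hi₀⟩ : ∃ i, α i ≠ β i := by
      by_contra hcon
      push Not at hcon
      exact hne (funext hcon)
    apply separated_of hη
    apply le_upperDensity
    intro ε hε
    rw [frequently_atTop]
    intro K
    obtain ⟨k₁, hk₁⟩ := eventually_atTop.1 hdel
    obtain ⟨k, hk1, hk2, hk3, hk4, hk5⟩ : ∃ k, k₁ ≤ k ∧ K ≤ k ∧ q ≤ k + 1 ∧ i₀ < k + 1 ∧
        Odd (k + 1) := by
      refine ⟨2 * (k₁ + K + q + i₀), by omega, by omega, by omega, by omega, ?_⟩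
      exact ⟨k₁ + K + q + i₀, by omega⟩
    refine ⟨2 ^ aPos (J (k + 1)), le_trans hk2 (hbig k), ?_⟩
    have h5 := odd_estimate (hF q) hJ hk5 hk3 (sched_growth m k) hz w hk4 hi₀
      (hBQ q) rfl (hk₁ k hk1) (hgoodQ α hα _ _) (hgoodQ β hβ _ _)
    refine le_trans ?_ h5
    apply mul_le_mul_of_nonneg_right _ (Nat.cast_nonneg _)
    linarith
  have hqex : ∀ η : ℝ, η < 1 → ∃ q : ℕ, η ≤ 1 - 4 * (1 / 2) ^ q := by
    intro η hη
    obtain ⟨q, hq⟩ := exists_pow_lt_of_lt_one (show (0 : ℝ) < (1 - η) / 4 by linarith)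
      (show (1 : ℝ) / 2 < 1 by norm_num)
    exact ⟨q, by linarith⟩
  classical
  refine ⟨(fun α => ((z, w + Xi J α) : XX)) '' U, ?_,
    fun η => if h : η < 1 then κ (hqex η h).choose else 0, ?_⟩
  · intro hcount
    apply hx₀
    apply Set.countable_of_injective_of_countable_image _ hcount
    intro α hα β hβ hab
    by_contra hne
    obtain ⟨q, hq⟩ := hqex (1 / 2) (by norm_num)
    obtain ⟨n, _, _, hn⟩ := hsep α hα β hβ hne (1 / 2) q (by norm_num) hq
    apply hn 0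
    have hab' : ((z, w + Xi J α) : XX) = (z, w + Xi J β) := hab
    rw [hab']
  · rintro _ ⟨α, hα, rfl⟩ _ ⟨β, hβ, rfl⟩ hne
    have hne' : α ≠ β := by
      rintro rfl
      exact hne rfl
    refine ⟨hprox α hα β hβ, ?_⟩
    intro η hη hη1
    simp only [dif_pos hη1]
    exact hsep α hα β hβ hne' η _ hη (hqex η hη1).choose_spec

end Pool.MPe5a66a
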