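import Pool.Agent.Lib_MP_e5a66a_an.Codes
import Pool.Agent.Lib_MP_e5a66a_an.Flip
import Pool.Agent.Lib_MP_e5a66a_an.Density
import Pool.Agent.Lib_MP_e5a66a_an.Approx

/-! Piece 12: `TY` has a refining sequence without scrambled pairs. May use everything imported. -/

open MeasureTheory Filter Topology

namespace Pool.MPe5a66a

/-- `Q` is a refining sequence of Borel partitions, generating in the strong sense, for which no
pair is scrambled -/
structure BadSeq {Y : Type} [MeasurableSpace Y] (ν : Measure Y) (S : Y → Y) (Q : ℕ → Y → ℕ) :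
    Prop where
  finite : ∀ k, (Set.range (Q k)).Finite
  measurable : ∀ k, Measurable (Q k)
  refines : ∀ k x y, Q (k + 1) x = Q (k + 1) y → Q k x = Q k y
  generates : ∃ D : Set Y, MeasurableSet[MeasurableSpace.generateFrom (atoms Q)] D ∧
    ν Dᶜ = 0 ∧ ∀ s ⊆ D, MeasurableSet s → MeasurableSet[MeasurableSpace.generateFrom (atoms Q)] s
  notScrambled : ∀ x y, Proximal S Q x y → ∀ k η, 0 < η → ¬ Separated S Q x y k η

lemma ym_orbit_fst (n : ℕ) (y : YY) : (TY^[n] y).1.1 = y.1.1 + n := by
  rw [TY_iterate_fst, TX_iterate_fst]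

lemma ym_orbit_GG (n : ℕ) (y : YY) : (TY^[n] y).1.1 ∈ GG ↔ y.1.1 ∈ GG := by
  rw [ym_orbit_fst, add_nat_mem_GG]

/-- a pair which is never in a common atom of `Q k` is not proximal -/
lemma ym_never {Q : ℕ → YY → ℕ} {x y : YY} (h : Proximal TY Q x y) (k : ℕ)
    (hk : ∀ n, Q k (TY^[n] x) ≠ Q k (TY^[n] y)) : False := by
  have h1 := upperDensity_of_proximal h k
  have h2 : {n | Q k (TY^[n] x) = Q k (TY^[n] y)} = ∅ := by
    ext n; simp [hk n]
  rw [h2, upperDensity_empty] at h1
  exact zero_ne_one h1

theorem exists_badSeq : ∃ Q, BadSeq muY TY Q := by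
  obtain ⟨Q, hfin, hmeas, hQ⟩ := exists_RY
  have hmD : MeasurableSet {y : YY | y.1.1 ∈ GG} :=
    measurableSet_GG.preimage (measurable_fst.comp measurable_fst)
  have hgD : MeasurableSet[MeasurableSpace.generateFrom (atoms Q)] {y : YY | y.1.1 ∈ GG} := by
    have h1 : {y : YY | y.1.1 ∈ GG} = ⋃ i ∈ Q 0 '' {y : YY | y.1.1 ∈ GG}, Q 0 ⁻¹' {i} := by
      ext y
      simp only [Set.mem_ofPred_eq, Set.mem_image, Set.mem_iUnion, Set.mem_preimage,
        Set.mem_singleton_iff, exists_prop]
      constructor
      · intro hy; exact ⟨Q 0 y, ⟨y, hy, rfl⟩, rfl⟩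
      · rintro ⟨i, ⟨y', hy', rfl⟩, hyy'⟩
        rcases (hQ 0 y y').mp hyy' with h | h
        · exact absurd hy' h.2
        · exact h.1
    rw [h1]
    refine @MeasurableSet.biUnion _ _ (MeasurableSpace.generateFrom (atoms Q)) _ _
      (Set.to_countable _) ?_
    intro i _
    exact MeasurableSpace.measurableSet_generateFrom ⟨0, i, rfl⟩
  refine ⟨Q, hfin, hmeas, ?_, ?_, ?_⟩
  · intro k x y h
    rw [hQ] at h ⊢
    rcases h with h | ⟨h1, h2, h3, h4, h5⟩
    · exact Or.inl h
    · refine Or.inr ⟨h1, h2, ?_, ?_, h5⟩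
      · rw [← val_mod (Nat.le_succ k), ← val_mod (Nat.le_succ k) y.1.1, h3]
      · intro p hp hp'
        exact h4 p (by omega) (by omega)
  · refine ⟨{y : YY | y.1.1 ∈ GG}, hgD, ?_, ?_⟩
    · have h1 : ∀ᵐ y ∂muY, y.1.1 ∈ GG := by
        unfold muY
        exact Measure.quasiMeasurePreserving_fst.ae ae_mem_GG'
      exact h1
    · intro s hs hms
      refine generates_of_injOn hmeas hmD hgD ?_ hms hs
      intro x hx y hy hxy
      have hx' : x.1.1 ∈ GG := hx
      have key : ∀ k, val k x.1.1 = val k y.1.1 ∧
          (∀ p : ℕ × ℕ, p.1 < k → p.2 < k → x.1.2 p = y.1.2 p) ∧ x.2 = y.2 := by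
        intro k
        rcases (hQ k x y).mp (hxy k) with h | h
        · exact absurd hx' h.1
        · exact h.2.2
      have e1 : x.1.1 = y.1.1 := eq_of_val fun k => (key k).1
      have e2 : x.1.2 = y.1.2 := by
        ext p
        have := (key (max p.1 p.2 + 1)).2.1 p (by omega) (by omega)
        rw [this]
      have e3 : x.2 = y.2 := (key 0).2.2
      exact Prod.ext (Prod.ext e1 e2) e3
  · intro x y hprox k η _ hsep
    obtain ⟨m, _, _, hm⟩ := hsep
    by_cases hx : x.1.1 ∈ GG <;> by_cases hy : y.1.1 ∈ GG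
    · -- both typical
      by_cases hz : x.1.1 = y.1.1
      · by_cases hw : x.1.2 = y.1.2
        · by_cases hu : x.2 = y.2
          · have : x = y := Prod.ext (Prod.ext hz hw) hu
            exact hm 0 (by rw [this])
          · -- constant difference of the last coordinates
            have h1 : x.1 = y.1 := Prod.ext hz hw
            apply ym_never hprox 0
            intro n he
            obtain ⟨R, hR, hR'⟩ := ((TY_iterate_snd hx n).and (TY_iterate_snd hy n)).exists
            rcases (hQ 0 _ _).mp he with h | h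
            · exact h.1 ((ym_orbit_GG n x).mpr hx)
            · have h2 := h.2.2.2.2
              rw [hR, hR', h1] at h2
              exact hu (add_right_cancel h2)
        · -- the main case
          have h1 := upperDensity_of_proximal hprox 0
          have hc := count_ne hx hw x.2 y.2
          have ex : ((x.1.1, x.1.2), x.2) = x := rfl
          have ey : ((x.1.1, y.1.2), y.2) = y := by rw [hz]
          rw [ex, ey] at hc
          have h2 : upperDensity {n | Q 0 (TY^[n] x) = Q 0 (TY^[n] y)} ≤ 3 / 4 := by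
            apply upperDensity_le
            filter_upwards [hc] with N hN
            have h3 : cnt {n | Q 0 (TY^[n] x) = Q 0 (TY^[n] y)} N ≤
                cnt {n | (TY^[n] x).2 ≠ (TY^[n] y).2}ᶜ N := by
              apply cnt_mono
              intro n _ he
              rcases (hQ 0 _ _).mp he with h | h
              · exact absurd ((ym_orbit_GG n x).mpr hx) h.1
              · simpa using h.2.2.2.2
            have h4 := cnt_add_compl {n | (TY^[n] x).2 ≠ (TY^[n] y).2} N
            have h3' : (cnt {n | Q 0 (TY^[n] x) = Q 0 (TY^[n] y)} N : ℝ) ≤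
                cnt {n | (TY^[n] x).2 ≠ (TY^[n] y).2}ᶜ N := by exact_mod_cast h3
            have h4' : (cnt {n | (TY^[n] x).2 ≠ (TY^[n] y).2} N : ℝ) +
                cnt {n | (TY^[n] x).2 ≠ (TY^[n] y).2}ᶜ N = N := by exact_mod_cast h4
            linarith
          rw [h1] at h2
          norm_num at h2
      · -- different base points
        obtain ⟨j, hj⟩ : ∃ j, val j x.1.1 ≠ val j y.1.1 := by
          by_contra hcon
          push Not at hcon
          exact hz (eq_of_val hcon)
        apply ym_never hprox j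
        intro n he
        rcases (hQ j _ _).mp he with h | h
        · exact h.1 ((ym_orbit_GG n x).mpr hx)
        · have h2 := h.2.2.1
          rw [ym_orbit_fst, ym_orbit_fst] at h2
          exact val_add_ne hj n h2
    · apply ym_never hprox 0
      intro n he
      rcases (hQ 0 _ _).mp he with h | h
      · exact h.1 ((ym_orbit_GG n x).mpr hx)
      · exact hy ((ym_orbit_GG n y).mp h.2.1)
    · apply ym_never hprox 0
      intro n he
      rcases (hQ 0 _ _).mp he with h | h
      · exact h.2 ((ym_orbit_GG n y).mpr hy)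
      · exact hx ((ym_orbit_GG n x).mp h.1)
    · apply hm 0
      rw [hQ]
      left
      exact ⟨fun h => hx ((ym_orbit_GG _ x).mp h), fun h => hy ((ym_orbit_GG _ y).mp h)⟩

end Pool.MPe5a66a
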